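import Pool.Agent.H19.UC.Gen
import Pool.Agent.H45.Corr.Count

/-!
# From numbers of linear orderings to volumes

PROOF. `cell_volume`: all order cells of the cube have the same positive finite volume. For linear
orderings `L, L'` of the finite set `X` there is a bijection `e : X ≃ X` with
`L a b ↔ L' (e a) (e b)` (compose two maps from `exists_rank` in `Pool.Agent.H45.Corr.Count`), and
`τ ↦ τ ∘ e` is a measure preserving map of `X → ℝ` (`MeasureTheory.volume_measurePreserving_piCongrLeft`
or `measurePreserving_piCongrLeft`) which maps the cell of `L'` in the cube onto the cell of `L`.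
Positive: the cell is open and nonempty (take `τ a = (rank a + 1) / (card X + 2)`), `X → ℝ` has
an open positive volume. Finite: contained in the cube.

`vol_gExt`: the set on the left is, up to the null set of `τ` which are not injective
(a finite union of the hyperplanes `τ a = τ b`, `a ≠ b`, which are null:
`MeasureTheory.Measure.addHaar_submodule` or `Real.volume_preserving..`), the disjoint union of the
cells of the orderings `L ∈ gExt ι G 𝒲`, provided `S` is a union of cells of orderings of `T` in the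
sense of `hS` (for injective `τ` the ordering of `τ` restricted to `T` is in `𝒲` iff `τ ∘ ι ∈ S`).

`vol_ineq`: `vol_gExt` for the four sets and `count_ineq`, multiplied by `v ^ 2`.
-/

open MeasureTheory

namespace Pool.Agent.H19.UC

open Pool.Agent.H45.Corr

/-- The volume of the configurations of `X` in the cube, increasing along `G`, with restriction
to `T` in `S`. -/
noncomputable def nu {T X : Type} [Fintype X] (ι : T ↪ X) (G : X → X → Prop) (S : Set (T → ℝ)) : ℝ :=
  (volume (cube X ∩ cellR G ∩ {τ : X → ℝ | (fun t => τ (ι t)) ∈ S})).toReal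

private theorem isOpen_cellR {X : Type} [Finite X] (r : X → X → Prop) : IsOpen (cellR r) := by
  have : cellR r = ⋂ s, ⋂ t, ⋂ (_ : r s t), {τ : X → ℝ | τ s < τ t} := by
    ext τ; simp [cellR]
  rw [this]
  refine isOpen_iInter_of_finite fun s => isOpen_iInter_of_finite fun t =>
    isOpen_iInter_of_finite fun _ => ?_
  exact isOpen_lt (continuous_apply s) (continuous_apply t)

private theorem isOpen_cube (X : Type) [Finite X] : IsOpen (cube X) := by
  have : cube X = ⋂ s, ({τ : X → ℝ | 0 < τ s} ∩ {τ : X → ℝ | τ s < 1}) := by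
    ext τ; simp [cube, boxR]
  rw [this]
  exact isOpen_iInter_of_finite fun s =>
    (isOpen_lt continuous_const (continuous_apply s)).inter
      (isOpen_lt (continuous_apply s) continuous_const)

private theorem cube_lt_top (X : Type) [Fintype X] (A : Set (X → ℝ)) :
    volume (cube X ∩ A) < ⊤ := by
  refine lt_of_le_of_lt (measure_mono (t := Set.Icc (0 : X → ℝ) 1) ?_)
    isCompact_Icc.measure_lt_top
  rintro τ ⟨hτ, -⟩
  exact ⟨fun s => (hτ s).1.le, fun s => (hτ s).2.le⟩

theorem cell_volume (X : Type) [Fintype X] :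
    ∃ v : ℝ, 0 < v ∧ ∀ L : LinOrd X, volume (cube X ∩ cellR L.1) = ENNReal.ofReal v := by
  classical
  -- the reference cell
  set n := Fintype.card X with hn
  set C : Set (Fin n → ℝ) := cube (Fin n) ∩ cellR (fun i j : Fin n => i < j) with hC
  have hfin : volume C < ⊤ := cube_lt_top _ _
  have hpos : 0 < volume C := by
    refine ((isOpen_cube _).inter (isOpen_cellR _)).measure_pos volume
      ⟨fun i => ((i : ℕ) + 1 : ℝ) / (n + 1), fun i => ⟨?_, ?_⟩, fun i j hij => ?_⟩
    · positivity
    · rw [div_lt_one (by positivity)]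
      have : ((i : ℕ) : ℝ) < n := by exact_mod_cast i.2
      linarith
    · have h1 : ((i : ℕ) : ℝ) < (j : ℕ) := by exact_mod_cast hij
      show ((i : ℕ) + 1 : ℝ) / (n + 1) < ((j : ℕ) + 1 : ℝ) / (n + 1)
      gcongr
  refine ⟨(volume C).toReal, ENNReal.toReal_pos hpos.ne' hfin.ne, fun L => ?_⟩
  rw [ENNReal.ofReal_toReal hfin.ne]
  obtain ⟨e, he⟩ := exists_rank L
  have hmp := volume_measurePreserving_piCongrLeft (fun _ : Fin n => ℝ) e
  rw [← hmp.measure_preimage_equiv C]
  congr 1
  have happ : ∀ (τ : X → ℝ) (a : X),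
      (MeasurableEquiv.piCongrLeft (fun _ : Fin n => ℝ) e) τ (e a) = τ a := fun τ a => by
    rw [MeasurableEquiv.coe_piCongrLeft]
    exact Equiv.piCongrLeft_apply_apply (fun _ : Fin n => ℝ) e τ a
  ext τ
  constructor
  · rintro ⟨h1, h2⟩
    refine ⟨fun i => ?_, fun i j hij => ?_⟩
    · obtain ⟨a, rfl⟩ := e.surjective i
      rw [happ]
      exact h1 a
    · obtain ⟨a, rfl⟩ := e.surjective i
      obtain ⟨b, rfl⟩ := e.surjective j
      rw [happ, happ]
      exact h2 a b ((he a b).2 hij)
  · rintro ⟨h1, h2⟩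
    refine ⟨fun a => ?_, fun a b hab => ?_⟩
    · have := h1 (e a)
      rw [happ] at this
      exact this
    · have := h2 (e a) (e b) ((he a b).1 hab)
      rw [happ, happ] at this
      exact this

/-- The configurations which are not injective are null. -/
private theorem null_noninj (X : Type) [Fintype X] :
    volume {τ : X → ℝ | ¬ Function.Injective τ} = 0 := by
  classical
  have hsub : {τ : X → ℝ | ¬ Function.Injective τ} ⊆
      ⋃ a : X, ⋃ b : X, ⋃ (_ : a ≠ b),
        ((LinearMap.ker ((LinearMap.proj a : (X → ℝ) →ₗ[ℝ] ℝ) - LinearMap.proj b) :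
          Submodule ℝ (X → ℝ)) : Set (X → ℝ)) := by
    intro τ hτ
    have hτ' : ¬ Function.Injective τ := hτ
    simp only [Function.Injective, not_forall] at hτ'
    obtain ⟨a, b, hab, hne⟩ := hτ'
    simp only [Set.mem_iUnion]
    refine ⟨a, b, hne, ?_⟩
    simp [hab]
  refine measure_mono_null hsub ?_
  refine measure_iUnion_null fun a => measure_iUnion_null fun b => measure_iUnion_null fun hab => ?_
  refine Measure.addHaar_submodule volume _ fun htop => ?_
  have : (fun c : X => if c = a then (1 : ℝ) else 0) ∈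
      LinearMap.ker ((LinearMap.proj a : (X → ℝ) →ₗ[ℝ] ℝ) - LinearMap.proj b) := by
    rw [htop]; trivial
  rw [LinearMap.mem_ker] at this
  simp [Ne.symm hab] at this

private theorem eq_of_cellR {T : Type} {L M : LinOrd T} {τ : T → ℝ} (h1 : τ ∈ cellR L.1)
    (h2 : τ ∈ cellR M.1) : L = M := by
  apply Subtype.ext
  funext s t
  have key : ∀ {L M : LinOrd T}, τ ∈ cellR L.1 → τ ∈ cellR M.1 → L.1 s t → M.1 s t := by
    intro L M h1 h2 h
    by_contra hcon
    have hlt := h1 s t h
    by_cases h3 : M.1 t s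
    · exact absurd (h2 t s h3) (not_lt.2 hlt.le)
    · have := M.2.trichotomous s t hcon h3
      rw [this] at hlt
      exact lt_irrefl _ hlt
  exact propext ⟨key h1 h2, key h2 h1⟩

theorem vol_gExt {T X : Type} [Fintype X] (ι : T ↪ X) (G : X → X → Prop) {v : ℝ} (hv : 0 < v)
    (hcell : ∀ L : LinOrd X, volume (cube X ∩ cellR L.1) = ENNReal.ofReal v)
    (𝒲 : Set (LinOrd T)) (S : Set (T → ℝ))
    (hS : ∀ L : LinOrd T, ∀ τ ∈ cellR L.1, (τ ∈ S ↔ L ∈ 𝒲)) :
    nu ι G S = (gExt ι G 𝒲).ncard * v := by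
  classical
  have hfinset : (gExt ι G 𝒲).Finite := Set.toFinite _
  have hUsub : (⋃ L ∈ gExt ι G 𝒲, (cube X ∩ cellR L.1)) ⊆
      cube X ∩ cellR G ∩ {τ : X → ℝ | (fun t => τ (ι t)) ∈ S} := by
    intro τ hτ
    simp only [Set.mem_iUnion] at hτ
    obtain ⟨L, hL, hc, hLc⟩ := hτ
    refine ⟨⟨hc, fun a b hab => hLc a b (hL.1 a b hab)⟩, ?_⟩
    exact (hS (L.restrict ι) (fun t => τ (ι t)) (fun s t hst => hLc _ _ hst)).2 hL.2
  have hAsub : cube X ∩ cellR G ∩ {τ : X → ℝ | (fun t => τ (ι t)) ∈ S} ⊆
      (⋃ L ∈ gExt ι G 𝒲, (cube X ∩ cellR L.1)) ∪ {τ : X → ℝ | ¬ Function.Injective τ} := by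
    rintro τ ⟨⟨hc, hG⟩, hτS⟩
    by_cases hinj : Function.Injective τ
    · left
      simp only [Set.mem_iUnion]
      refine ⟨⟨fun a b => τ a < τ b,
        { trichotomous := fun _ _ h1 h2 => hinj (le_antisymm (not_lt.1 h2) (not_lt.1 h1))
          irrefl := fun _ => lt_irrefl _
          trans := fun _ _ _ => lt_trans }⟩, ⟨fun a b hab => hG a b hab, ?_⟩, hc,
          fun a b hab => hab⟩
      refine (hS _ (fun t => τ (ι t)) (fun s t hst => hst)).1 hτS
    · exact Or.inr hinj
  have hvolU : volume (⋃ L ∈ gExt ι G 𝒲, (cube X ∩ cellR L.1))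
      = (gExt ι G 𝒲).ncard * ENNReal.ofReal v := by
    rw [measure_biUnion hfinset.countable]
    · rw [tsum_congr (fun L : gExt ι G 𝒲 => hcell L.1), ENNReal.tsum_const,
        ENat.card_coe_set_eq, ← hfinset.cast_ncard_eq, ENat.toENNReal_coe]
    · intro L _ M _ hLM
      rw [Function.onFun, Set.disjoint_left]
      rintro τ ⟨-, h1⟩ ⟨-, h2⟩
      exact hLM (eq_of_cellR h1 h2)
    · exact fun L _ => ((isOpen_cube X).inter (isOpen_cellR L.1)).measurableSet
  have hvol : volume (cube X ∩ cellR G ∩ {τ : X → ℝ | (fun t => τ (ι t)) ∈ S})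
      = (gExt ι G 𝒲).ncard * ENNReal.ofReal v := by
    refine le_antisymm ?_ ?_
    · refine (measure_mono hAsub).trans ((measure_union_le _ _).trans ?_)
      rw [null_noninj, add_zero, hvolU]
    · rw [← hvolU]
      exact measure_mono hUsub
  unfold nu
  rw [hvol, ENNReal.toReal_mul, ENNReal.toReal_natCast, ENNReal.toReal_ofReal hv.le]

private theorem hS_single {T : Type} (b : LinOrd T) :
    ∀ L : LinOrd T, ∀ τ ∈ cellR L.1, (τ ∈ cellR b.1 ↔ L ∈ ({b} : Set (LinOrd T))) := by
  intro L τ hτ
  constructor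
  · intro h
    exact eq_of_cellR hτ h
  · intro h
    rw [Set.mem_singleton_iff] at h
    rw [← h]
    exact hτ

private theorem hS_half {T : Type} {x y : T} (hxy : x ≠ y) :
    ∀ L : LinOrd T, ∀ τ ∈ cellR L.1, (τ ∈ half x y ↔ L ∈ {L : LinOrd T | L.1 x y}) := by
  intro L τ hτ
  constructor
  · intro h
    have h' : τ x < τ y := h
    show L.1 x y
    by_contra hcon
    by_cases h3 : L.1 y x
    · exact absurd (hτ y x h3) (not_lt.2 h'.le)
    · exact hxy (L.2.trichotomous x y hcon h3)
  · intro h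
    exact hτ x y h

theorem vol_ineq {T X : Type} [Fintype X] (ι : T ↪ X) (G : X → X → Prop) {x y : T} (hxy : x ≠ y)
    {V : Set (LinOrd T)} (h : UnivCorr {L | L.1 x y} V) {b c : LinOrd T}
    (hb : b.1 x y) (hbV : b ∉ V) (hc : c.1 y x) (hcV : c ∈ V) :
    nu ι G (cellR b.1) * nu ι G (half y x) + nu ι G (cellR c.1) * nu ι G (half x y)
      ≤ nu ι G (half x y) * nu ι G (half y x) := by
  obtain ⟨v, hv, hcell⟩ := cell_volume X
  rw [vol_gExt ι G hv hcell {b} (cellR b.1) (hS_single b),
    vol_gExt ι G hv hcell {c} (cellR c.1) (hS_single c),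
    vol_gExt ι G hv hcell {L | L.1 x y} (half x y) (hS_half hxy),
    vol_gExt ι G hv hcell {L | L.1 y x} (half y x) (hS_half hxy.symm)]
  have h1 := count_ineq ι G hxy h hb hbV hc hcV
  have h2 : (((gExt ι G {b}).ncard : ℝ) * (gExt ι G {L | L.1 y x}).ncard
        + (gExt ι G {c}).ncard * (gExt ι G {L | L.1 x y}).ncard)
      ≤ (gExt ι G {L | L.1 x y}).ncard * (gExt ι G {L | L.1 y x}).ncard := by
    exact_mod_cast h1
  have h3 := mul_le_mul_of_nonneg_right h2 (mul_nonneg hv.le hv.le)
  linarith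

end Pool.Agent.H19.UC
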