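import Pool.Agent.H19.UC.Dat

/-!
# Combinatorics of the classes

All proofs are by unfolding `Dat.cls` (`split_ifs`), trichotomy and transitivity of `b` and `c`
(fields `sb`, `sc`; `T` is finite) and the two hypotheses `nRT`, `nP1`.

* `cls_LL ..`: characterisations. `LM`: `b z x`, not `c z y`, so `c y z`; and `c z x` since
  `c x z` with `b z x` would be a reversed triple.
  `HC`: `c x z`; then not `b z x` (reversed triple), so `b x z`.
  `MM`: `b x z`, `b z y`, `c z x` (and `c z y` or `c y z`).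
  `HM`: `b y z`; `c z x`; and not `c z y` (reversed triple), so `c y z`.
* `LL_LM`: let `s` be `LL` and `t` be `LM`; if `b t s` then (`t` between `y` and `x` in `c`,
  `b t s`, `b s x`) not `P1` gives `¬ c s t`, so `c t s`, so `c y s`, a contradiction to `c s y`.
* `LM_LM`: if `b s t` and `c t s`: `z := s`, `u := t` in the second alternative of `P1`.
* `HM_HC`: `s` is `HM`, `t` is `HC` with `b y t`; if `b t s` then `z := s`, `u := t` in the first
  alternative gives `¬ c s t`, so `c t s`, so `c x s`, a contradiction to `c s x`.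
* `HM_HM`: if `b s t` and `c t s`: `z := t`, `u := s` in the first alternative.
* ranks: `{u | b u s} ⊂ {u | b u t}` when `b s t`, and `t ∉ {u | b u t}`.
-/

set_option linter.unusedSectionVars false

namespace Pool.Agent.H19.UC

variable {T : Type} [Fintype T] (D : Dat T)

omit [Fintype T] in
private theorem cb_irr (z : T) : ¬ D.b z z := by
  have := D.sb
  exact irrefl_of D.b z

omit [Fintype T] in
private theorem cc_irr (z : T) : ¬ D.c z z := by
  have := D.sc
  exact irrefl_of D.c z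

omit [Fintype T] in
private theorem cb_tr {u v w : T} (h : D.b u v) (h' : D.b v w) : D.b u w := by
  have := D.sb
  exact trans_of D.b h h'

omit [Fintype T] in
private theorem cc_tr {u v w : T} (h : D.c u v) (h' : D.c v w) : D.c u w := by
  have := D.sc
  exact trans_of D.c h h'

omit [Fintype T] in
private theorem cb_tri (u v : T) : D.b u v ∨ u = v ∨ D.b v u := by
  have := D.sb
  exact trichotomous_of D.b u v

omit [Fintype T] in
private theorem cc_tri (u v : T) : D.c u v ∨ u = v ∨ D.c v u := by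
  have := D.sc
  exact trichotomous_of D.c u v

omit [Fintype T] in
private theorem cb_ne {u v : T} (h : D.b u v) : u ≠ v := by
  rintro rfl
  exact cb_irr D _ h

omit [Fintype T] in
private theorem cc_ne {u v : T} (h : D.c u v) : u ≠ v := by
  rintro rfl
  exact cc_irr D _ h

omit [Fintype T] in
private theorem cb_as {u v : T} (h : D.b u v) : ¬ D.b v u := fun h' => cb_irr D _ (cb_tr D h h')

omit [Fintype T] in
private theorem cc_as {u v : T} (h : D.c u v) : ¬ D.c v u := fun h' => cc_irr D _ (cc_tr D h h')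

omit [Fintype T] in
private theorem nrt1 {z : T} (h : D.c D.x z) : ¬ D.b z D.x := fun h' =>
  D.nRT ⟨z, Or.inl ⟨h, h'⟩⟩

omit [Fintype T] in
private theorem nrt2 {z : T} (h : D.c z D.y) : ¬ D.b D.y z := fun h' =>
  D.nRT ⟨z, Or.inr ⟨h, h'⟩⟩

omit [Fintype T] in
private theorem np1 {z u : T} (h1 : D.c D.y z) (h2 : D.c z D.x) (h3 : D.b D.y u) (h4 : D.b u z) :
    ¬ D.c z u := fun h' => D.nP1 ⟨z, u, h1, h2, Or.inl ⟨h3, h4, h'⟩⟩

omit [Fintype T] in
private theorem np2 {z u : T} (h1 : D.c D.y z) (h2 : D.c z D.x) (h3 : D.b z u) (h4 : D.b u D.x) :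
    ¬ D.c u z := fun h' => D.nP1 ⟨z, u, h1, h2, Or.inr ⟨h3, h4, h'⟩⟩

omit [Fintype T] in
private theorem xney : D.x ≠ D.y := cb_ne D D.bxy

theorem Dat.cls_X {z : T} : D.cls z = .X ↔ z = D.x := by
  unfold Dat.cls
  split_ifs <;> simp_all

theorem Dat.cls_Y {z : T} : D.cls z = .Y ↔ z = D.y := by
  have := xney D
  unfold Dat.cls
  split_ifs <;> simp_all

theorem Dat.cls_LL {z : T} (h : D.cls z = .LL) : D.b z D.x ∧ D.b z D.y ∧ D.c z D.y ∧ D.c z D.x := by
  unfold Dat.cls at h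
  split_ifs at h with h1 h2 h3 h4
  exact ⟨h3, cb_tr D h3 D.bxy, h4, cc_tr D h4 D.cyx⟩

theorem Dat.cls_LM {z : T} (h : D.cls z = .LM) : D.b z D.x ∧ D.b z D.y ∧ D.c D.y z ∧ D.c z D.x := by
  unfold Dat.cls at h
  split_ifs at h with h1 h2 h3 h4
  refine ⟨h3, cb_tr D h3 D.bxy, ?_, ?_⟩
  · rcases cc_tri D z D.y with h5 | h5 | h5
    · exact absurd h5 h4
    · exact absurd h5 h2
    · exact h5
  · rcases cc_tri D z D.x with h5 | h5 | h5
    · exact h5
    · exact absurd h5 h1
    · exact absurd h3 (nrt1 D h5)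

omit [Fintype T] in
private theorem bx_of {z : T} (h1 : z ≠ D.x) (h3 : ¬ D.b z D.x) : D.b D.x z := by
  rcases cb_tri D z D.x with h5 | h5 | h5
  · exact absurd h5 h3
  · exact absurd h5 h1
  · exact h5

omit [Fintype T] in
private theorem cx_of {z : T} (h1 : z ≠ D.x) (h3 : ¬ D.c D.x z) : D.c z D.x := by
  rcases cc_tri D z D.x with h5 | h5 | h5
  · exact h5
  · exact absurd h5 h1
  · exact absurd h5 h3

theorem Dat.cls_HC {z : T} (h : D.cls z = .HC) :
    D.b D.x z ∧ D.c D.x z ∧ D.c D.y z ∧ z ≠ D.y := by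
  unfold Dat.cls at h
  split_ifs at h with h1 h2 h3 h4 h5 h6
  exact ⟨bx_of D h1 h3, h5, cc_tr D D.cyx h5, h2⟩

theorem Dat.cls_MM {z : T} (h : D.cls z = .MM) :
    D.b D.x z ∧ D.b z D.y ∧ D.c z D.x ∧ z ≠ D.y := by
  unfold Dat.cls at h
  split_ifs at h with h1 h2 h3 h4 h5 h6
  exact ⟨bx_of D h1 h3, h6, cx_of D h1 h5, h2⟩

theorem Dat.cls_HM {z : T} (h : D.cls z = .HM) : D.b D.x z ∧ D.b D.y z ∧ D.c D.y z ∧ D.c z D.x := by
  unfold Dat.cls at h
  split_ifs at h with h1 h2 h3 h4 h5 h6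
  have h7 : D.b D.y z := by
    rcases cb_tri D z D.y with h8 | h8 | h8
    · exact absurd h8 h6
    · exact absurd h8 h2
    · exact h8
  refine ⟨bx_of D h1 h3, h7, ?_, cx_of D h1 h5⟩
  rcases cc_tri D z D.y with h8 | h8 | h8
  · exact absurd h7 (nrt2 D h8)
  · exact absurd h8 h2
  · exact h8

theorem Dat.LL_LM {s t : T} (hs : D.cls s = .LL) (ht : D.cls t = .LM) : D.b s t := by
  obtain ⟨s1, s2, s3, s4⟩ := D.cls_LL hs
  obtain ⟨t1, t2, t3, t4⟩ := D.cls_LM ht
  rcases cb_tri D s t with h | h | h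
  · exact h
  · subst h
    exact absurd t3 (cc_as D s3)
  · exact absurd (cc_tr D s3 t3) (np2 D t3 t4 h s1)

theorem Dat.LM_LM {s t : T} (hs : D.cls s = .LM) (ht : D.cls t = .LM) (h : D.b s t) : D.c s t := by
  obtain ⟨s1, s2, s3, s4⟩ := D.cls_LM hs
  obtain ⟨t1, t2, t3, t4⟩ := D.cls_LM ht
  rcases cc_tri D s t with h' | h' | h'
  · exact h'
  · exact absurd h' (cb_ne D h)
  · exact absurd h' (np2 D s3 s4 h t1)

theorem Dat.HM_HC {s t : T} (hs : D.cls s = .HM) (ht : D.cls t = .HC) (h : D.b D.y t) :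
    D.b s t := by
  obtain ⟨s1, s2, s3, s4⟩ := D.cls_HM hs
  obtain ⟨t1, t2, t3, t4⟩ := D.cls_HC ht
  rcases cb_tri D s t with h' | h' | h'
  · exact h'
  · subst h'
    exact absurd t2 (cc_as D s4)
  · exact absurd (cc_tr D s4 t2) (np1 D s3 s4 h h')

theorem Dat.HM_HM {s t : T} (hs : D.cls s = .HM) (ht : D.cls t = .HM) (h : D.b s t) : D.c s t := by
  obtain ⟨s1, s2, s3, s4⟩ := D.cls_HM hs
  obtain ⟨t1, t2, t3, t4⟩ := D.cls_HM ht
  rcases cc_tri D s t with h' | h' | h'
  · exact h'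
  · exact absurd h' (cb_ne D h)
  · exact absurd h' (np1 D t3 t4 s2 h)

theorem Dat.rb_lt {s t : T} (h : D.b s t) : D.rb s < D.rb t := by
  unfold Dat.rb
  apply Set.ncard_lt_ncard _ (Set.toFinite _)
  have hsub : {u | D.b u s} ⊆ {u | D.b u t} := fun u hu => cb_tr D hu h
  exact (Set.ssubset_iff_of_subset hsub).mpr ⟨s, h, cb_irr D s⟩

theorem Dat.rc_lt {s t : T} (h : D.c s t) : D.rc s < D.rc t := by
  unfold Dat.rc
  apply Set.ncard_lt_ncard _ (Set.toFinite _)
  have hsub : {u | D.c u s} ⊆ {u | D.c u t} := fun u hu => cc_tr D hu h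
  exact (Set.ssubset_iff_of_subset hsub).mpr ⟨s, h, cc_irr D s⟩

theorem Dat.rb_lt_card (z : T) : D.rb z < Fintype.card T := by
  unfold Dat.rb
  rw [← Nat.card_eq_fintype_card, ← Set.ncard_univ]
  apply Set.ncard_lt_ncard _ (Set.toFinite _)
  rw [Set.ssubset_iff_of_subset (Set.subset_univ _)]
  exact ⟨z, Set.mem_univ _, cb_irr D z⟩

theorem Dat.rc_lt_card (z : T) : D.rc z < Fintype.card T := by
  unfold Dat.rc
  rw [← Nat.card_eq_fintype_card, ← Set.ncard_univ]
  apply Set.ncard_lt_ncard _ (Set.toFinite _)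
  rw [Set.ssubset_iff_of_subset (Set.subset_univ _)]
  exact ⟨z, Set.mem_univ _, cc_irr D z⟩

theorem Dat.R_b {s t : T} (h : D.R s t) : D.b s t := h.1

/-- The relations are also satisfied by `c`. -/
theorem Dat.R_c {s t : T} (h : D.R s t) : D.c s t := by
  rcases h with ⟨h, ⟨hs, ht | ht⟩ | ⟨ht, hs | hs⟩⟩
  · subst ht
    exact (D.cls_LM hs).2.2.2
  · exact D.LM_LM hs ht h
  · subst hs
    exact (D.cls_HM ht).2.2.1
  · exact D.HM_HM hs ht h

end Pool.Agent.H19.UC
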