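import Pool.Agent.H19.UC.Sect
import Pool.Agent.H19.UC.Comb

/-!
# The weights of the poset are the factors of `h`

PROOF. `Fintype.prod_prod_type` (or `Finset.prod_product`) writes the product over `T × Fin 3` as
`∏ z, ∏ i : Fin 3, ..`, and `Fin.prod_univ_three`. For fixed `z` compute by cases on `cls z`, with the
lengths for `τ` in the cube: `len ∅ {z} = τ z`, `len {z} ∅ = 1 - τ z`, `len {x} {z} = max (τ z - τ x) 0`,
`len {z} {x} = max (τ x - τ z) 0`, `len {x, z} ∅ = 1 - max (τ x) (τ z)`, `len {x} ∅ = 1 - τ x`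
(each is the volume of an open interval, `Real.volume_Ioo`; powers with exponent `0` are `1`, so the
trivial weights need no computation).
-/

namespace Pool.Agent.H19.UC

variable {T : Type} [Fintype T] (D : Dat T)

private theorem len_Ioo {T : Type} {Lo Up : T → Prop} {τ : T → ℝ} {a b : ℝ}
    (h : ∀ ω : ℝ, (0 < ω ∧ ω < 1 ∧ (∀ i, Lo i → τ i < ω) ∧ ∀ i, Up i → ω < τ i) ↔ a < ω ∧ ω < b) :
    len Lo Up τ = max (b - a) 0 := by
  unfold len
  have e : {ω : ℝ | 0 < ω ∧ ω < 1 ∧ (∀ i, Lo i → τ i < ω) ∧ ∀ i, Up i → ω < τ i} =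
      Set.Ioo a b := Set.ext h
  rw [e, Real.volume_Ioo, ENNReal.toReal_ofReal']

private theorem len_up {T : Type} {τ : T → ℝ} (hτ : τ ∈ cube T) (z : T) :
    len (fun _ => False) (fun u => u = z) τ = τ z := by
  have h := hτ z
  rw [len_Ioo (a := 0) (b := τ z)]
  · rw [sub_zero, max_eq_left h.1.le]
  · intro ω
    constructor
    · rintro ⟨h1, -, -, h2⟩
      exact ⟨h1, h2 z rfl⟩
    · rintro ⟨h1, h2⟩
      exact ⟨h1, h2.trans h.2, fun _ h3 => h3.elim, fun i hi => hi ▸ h2⟩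

private theorem len_lo {T : Type} {τ : T → ℝ} (hτ : τ ∈ cube T) (z : T) :
    len (fun u => u = z) (fun _ => False) τ = 1 - τ z := by
  have h := hτ z
  rw [len_Ioo (a := τ z) (b := 1)]
  · rw [max_eq_left (sub_nonneg.2 h.2.le)]
  · intro ω
    constructor
    · rintro ⟨-, h1, h2, -⟩
      exact ⟨h2 z rfl, h1⟩
    · rintro ⟨h1, h2⟩
      exact ⟨h.1.trans h1, h2, fun i hi => hi ▸ h1, fun _ h3 => h3.elim⟩

private theorem len_lu {T : Type} {τ : T → ℝ} (hτ : τ ∈ cube T) (x z : T) :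
    len (fun u => u = x) (fun u => u = z) τ = max (τ z - τ x) 0 := by
  have h := hτ z
  have h' := hτ x
  refine len_Ioo fun ω => ?_
  constructor
  · rintro ⟨-, -, h1, h2⟩
    exact ⟨h1 x rfl, h2 z rfl⟩
  · rintro ⟨h1, h2⟩
    exact ⟨h'.1.trans h1, h2.trans h.2, fun i hi => hi ▸ h1, fun i hi => hi ▸ h2⟩

private theorem len_ll {T : Type} {τ : T → ℝ} (hτ : τ ∈ cube T) (x z : T) :
    len (fun u => u = x ∨ u = z) (fun _ => False) τ = 1 - max (τ x) (τ z) := by
  have h := hτ z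
  have h' := hτ x
  rw [len_Ioo (a := max (τ x) (τ z)) (b := 1)]
  · exact max_eq_left (sub_nonneg.2 (max_le h'.2.le h.2.le))
  · intro ω
    constructor
    · rintro ⟨-, h1, h2, -⟩
      exact ⟨max_lt (h2 x (Or.inl rfl)) (h2 z (Or.inr rfl)), h1⟩
    · rintro ⟨h1, h2⟩
      have h3 := (le_max_left _ _).trans_lt h1
      have h4 := (le_max_right _ _).trans_lt h1
      refine ⟨h'.1.trans h3, h2, ?_, fun _ h3 => h3.elim⟩
      rintro i (hi | hi)
      · exact hi ▸ h3
      · exact hi ▸ h4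

theorem Dat.wt_eq {τ : T → ℝ} (hτ : τ ∈ cube T) : wt D.wLo D.wUp D.wm τ = D.h τ := by
  classical
  unfold wt Dat.h
  rw [Fintype.prod_prod_type]
  refine Finset.prod_congr rfl fun z _ => ?_
  rw [Fin.prod_univ_three]
  delta Dat.wLo Dat.wUp Dat.wm
  cases hc : D.cls z <;>
    simp only [gac, fac, pow_zero, one_mul, mul_one, pow_one,
      len_up hτ, len_lo hτ, len_lu hτ, len_ll hτ] <;> ring

end Pool.Agent.H19.UC
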