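import Mathlib

/-!
# A Laplace argument

PROOF. Put `I Z = ∫ ω in Z, h ω ^ M ∂μ`; all are finite as `h` is bounded and `μ` finite. As
`I A = I b + I (A \ b)` it suffices that `I c * I A > I (A \ b) * I A'`. Let `0 < δ < 1` with
`(1 - δ) ^ 2 > θ` (we may assume `0 ≤ θ`, replace `θ` by `max θ 0`; note `S > 0`). With
`m1 = μ (A ∩ {(1 - δ) S < h}) > 0`, `m2 = μ (c ∩ {(1 - δ) S' < h}) > 0` (real numbers):
`I A ≥ m1 ((1 - δ) S) ^ M`, `I c ≥ m2 ((1 - δ) S') ^ M`, `I (A \ b) ≤ μ univ * (θ S) ^ M`,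
`I A' ≤ μ univ * S' ^ M`. So it suffices that `m1 m2 ((1 - δ) ^ 2) ^ M > (μ univ) ^ 2 θ ^ M`, true for
large `M` since `((1 - δ) ^ 2 / θ) ^ M → ∞` (for `θ = 0` take `M = 1`; or choose `θ > 0` from the
start by enlarging it).
-/

open MeasureTheory

namespace Pool.Agent.H19.UC

theorem laplace {Ω : Type} [MeasurableSpace Ω] (μ : Measure Ω) [IsFiniteMeasure μ] (h : Ω → ℝ)
    (hm : Measurable h) (h0 : ∀ ω, 0 ≤ h ω) (K : ℝ) (hK : ∀ ω, h ω ≤ K)
    (A A' b c : Set Ω) (hA : MeasurableSet A) (hA' : MeasurableSet A') (hb : MeasurableSet b)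
    (hc : MeasurableSet c) (hbA : b ⊆ A) (S S' θ : ℝ) (hS : 0 < S) (hS' : 0 < S')
    (hθ : θ < 1) (h1 : ∀ ω ∈ A \ b, h ω ≤ θ * S)
    (h2 : ∀ δ > 0, 0 < μ (A ∩ {ω | (1 - δ) * S < h ω}))
    (h3 : ∀ ω ∈ A', h ω ≤ S')
    (h4 : ∀ δ > 0, 0 < μ (c ∩ {ω | (1 - δ) * S' < h ω})) :
    ∃ M : ℕ, (∫ ω in A, h ω ^ M ∂μ) * (∫ ω in A', h ω ^ M ∂μ)
      < (∫ ω in b, h ω ^ M ∂μ) * (∫ ω in A', h ω ^ M ∂μ)
        + (∫ ω in c, h ω ^ M ∂μ) * (∫ ω in A, h ω ^ M ∂μ) := by
  classical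
  -- basic integrability
  have hpow_meas : ∀ M : ℕ, Measurable fun ω => h ω ^ M := fun M => hm.pow_const M
  have hK0 : ∀ ω, ‖h ω‖ ≤ K := fun ω => by
    rw [Real.norm_eq_abs, abs_of_nonneg (h0 ω)]; exact hK ω
  have hint : ∀ M : ℕ, Integrable (fun ω => h ω ^ M) μ := by
    intro M
    refine Integrable.of_bound (hpow_meas M).aestronglyMeasurable (|K| ^ M) ?_
    refine Filter.Eventually.of_forall fun ω => ?_
    rw [norm_pow]
    exact pow_le_pow_left₀ (norm_nonneg _) ((hK0 ω).trans (le_abs_self K)) M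
  -- choose t and δ
  set t : ℝ := (max θ 0 + 1) / 2 with ht
  have hmax1 : max θ 0 < 1 := max_lt hθ one_pos
  have hmax0 : 0 ≤ max θ 0 := le_max_right _ _
  have ht0 : 0 < t := by rw [ht]; linarith
  have ht1 : t < 1 := by rw [ht]; linarith
  have hθt : θ ≤ t := by
    have := le_max_left θ 0
    rw [ht]; linarith
  set δ : ℝ := (1 - t) / 4 with hδ
  have hδ0 : 0 < δ := by rw [hδ]; linarith
  have hδ1 : δ < 1 := by rw [hδ]; linarith
  have hq : t < (1 - δ) ^ 2 := by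
    rw [hδ]; nlinarith [mul_pos (sub_pos.2 ht1) (sub_pos.2 ht1)]
  set E : Set Ω := A ∩ {ω | (1 - δ) * S < h ω} with hE
  set F : Set Ω := c ∩ {ω | (1 - δ) * S' < h ω} with hF
  have hEm : MeasurableSet E := hA.inter (measurableSet_lt measurable_const hm)
  have hFm : MeasurableSet F := hc.inter (measurableSet_lt measurable_const hm)
  have hm1 : 0 < μ.real E := by
    rw [Measure.real]
    exact ENNReal.toReal_pos (h2 δ hδ0).ne' (measure_ne_top μ E)
  have hm2 : 0 < μ.real F := by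
    rw [Measure.real]
    exact ENNReal.toReal_pos (h4 δ hδ0).ne' (measure_ne_top μ F)
  have hU0 : 0 ≤ μ.real Set.univ := measureReal_nonneg
  -- a large M
  obtain ⟨M, hM⟩ : ∃ M : ℕ, (μ.real Set.univ) ^ 2 * (t / (1 - δ) ^ 2) ^ M < μ.real E * μ.real F := by
    have hr0 : 0 ≤ t / (1 - δ) ^ 2 := div_nonneg ht0.le (sq_nonneg _)
    have hpos : 0 < (1 - δ) ^ 2 := ht0.trans hq
    have hr1 : t / (1 - δ) ^ 2 < 1 := (div_lt_one hpos).2 hq
    have hlim := (tendsto_pow_atTop_nhds_zero_of_lt_one hr0 hr1).const_mul ((μ.real Set.univ) ^ 2)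
    rw [mul_zero] at hlim
    exact ((hlim.eventually (gt_mem_nhds (mul_pos hm1 hm2)))).exists
  refine ⟨M, ?_⟩
  set I : Set Ω → ℝ := fun Z => ∫ ω in Z, h ω ^ M ∂μ with hI
  have hnn : ∀ Z, 0 ≤ I Z := fun Z => integral_nonneg fun ω => pow_nonneg (h0 ω) M
  have hsplit : I A = I b + I (A \ b) := by
    have hd : Disjoint b (A \ b) := Set.disjoint_sdiff_right
    have hu : b ∪ (A \ b) = A := Set.union_sdiff_cancel hbA
    have := setIntegral_union (μ := μ) (f := fun ω => h ω ^ M) hd (hA.diff hb)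
      (hint M).integrableOn (hint M).integrableOn
    rw [hu] at this
    exact this
  have hlow : ∀ (Z W : Set Ω) (a : ℝ), MeasurableSet W → W ⊆ Z → 0 ≤ a → (∀ ω ∈ W, a ≤ h ω) →
      μ.real W * a ^ M ≤ I Z := by
    intro Z W a hWm hWZ ha hah
    have h5 : ∫ ω in W, h ω ^ M ∂μ ≤ I Z :=
      setIntegral_mono_set (hint M).integrableOn
        (Filter.Eventually.of_forall fun ω => pow_nonneg (h0 ω) M)
        (Filter.Eventually.of_forall fun _ hx => hWZ hx)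
    have h6 : ∫ ω in W, a ^ M ∂μ ≤ ∫ ω in W, h ω ^ M ∂μ :=
      setIntegral_mono_on (integrable_const _).integrableOn (hint M).integrableOn hWm
        fun ω hω => pow_le_pow_left₀ ha (hah ω hω) M
    rw [setIntegral_const, smul_eq_mul] at h6
    exact h6.trans h5
  have hup : ∀ (Z : Set Ω) (a : ℝ), MeasurableSet Z → 0 ≤ a → (∀ ω ∈ Z, h ω ≤ a) →
      I Z ≤ μ.real Set.univ * a ^ M := by
    intro Z a hZm ha hah
    have h6 : ∫ ω in Z, h ω ^ M ∂μ ≤ ∫ ω in Z, a ^ M ∂μ :=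
      setIntegral_mono_on (hint M).integrableOn (integrable_const _).integrableOn hZm
        fun ω hω => pow_le_pow_left₀ (h0 ω) (hah ω hω) M
    rw [setIntegral_const, smul_eq_mul] at h6
    refine h6.trans (mul_le_mul_of_nonneg_right ?_ (pow_nonneg ha M))
    exact measureReal_mono (Set.subset_univ _)
  have hA1 : μ.real E * ((1 - δ) * S) ^ M ≤ I A :=
    hlow A E _ hEm Set.inter_subset_left (mul_nonneg (by linarith) hS.le)
      fun ω hω => (hω.2 : (1 - δ) * S < h ω).le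
  have hc1 : μ.real F * ((1 - δ) * S') ^ M ≤ I c :=
    hlow c F _ hFm Set.inter_subset_left (mul_nonneg (by linarith) hS'.le)
      fun ω hω => (hω.2 : (1 - δ) * S' < h ω).le
  have hAb : I (A \ b) ≤ μ.real Set.univ * (t * S) ^ M :=
    hup _ _ (hA.diff hb) (mul_nonneg ht0.le hS.le) fun ω hω =>
      (h1 ω hω).trans (mul_le_mul_of_nonneg_right hθt hS.le)
  have hA'1 : I A' ≤ μ.real Set.univ * S' ^ M := hup _ _ hA' hS'.le h3
  have hkey : I (A \ b) * I A' < I c * I A := by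
    have e1 : I (A \ b) * I A' ≤ (μ.real Set.univ * (t * S) ^ M) * (μ.real Set.univ * S' ^ M) :=
      mul_le_mul hAb hA'1 (hnn _) (mul_nonneg hU0 (pow_nonneg (mul_nonneg ht0.le hS.le) M))
    have e2 : (μ.real F * ((1 - δ) * S') ^ M) * (μ.real E * ((1 - δ) * S) ^ M) ≤ I c * I A :=
      mul_le_mul hc1 hA1 (mul_nonneg hm1.le (pow_nonneg (mul_nonneg (by linarith) hS.le) M)) (hnn _)
    refine lt_of_le_of_lt e1 (lt_of_lt_of_le ?_ e2)
    have hSS : 0 < (S * S') ^ M := pow_pos (mul_pos hS hS') M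
    have hd0 : 0 < (1 - δ) ^ 2 := ht0.trans hq
    have e3 : (μ.real Set.univ * (t * S) ^ M) * (μ.real Set.univ * S' ^ M)
        = (μ.real Set.univ) ^ 2 * t ^ M * (S * S') ^ M := by
      rw [mul_pow, mul_pow]; ring
    have e4 : (μ.real F * ((1 - δ) * S') ^ M) * (μ.real E * ((1 - δ) * S) ^ M)
        = μ.real E * μ.real F * ((1 - δ) ^ 2) ^ M * (S * S') ^ M := by
      rw [mul_pow, mul_pow, mul_pow, ← pow_mul, mul_comm 2 M, pow_mul]; ring
    rw [e3, e4]
    refine mul_lt_mul_of_pos_right ?_ hSS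
    rw [div_pow, mul_div_assoc', div_lt_iff₀ (pow_pos hd0 M)] at hM
    exact hM
  have e5 : I A * I A' = I b * I A' + I (A \ b) * I A' := by
    rw [← add_mul, ← hsplit]
  have e6 : I A * I A' < I b * I A' + I c * I A := by
    rw [e5]
    exact (add_lt_add_iff_left _).2 hkey
  exact e6

end Pool.Agent.H19.UC
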