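import Pool.Agent.H19.UC.NearP

/-!
# The configurations near `q`

PROOF of `pos_Q`. Let `n = card T`. For small `s > 0` put
`q^s z = q z - s (n - rc z)` if `c z y` or `c x z` (then `q z = up z`), and `q^s z = 1/2 + s (rc z + 1)`
otherwise (`z = y`, `z = x` or `z` between `y` and `x` in `c`; `q z = 1/2`, `up z = 3/4`).
* In the box: `p z < q z` when `c z y` (`p z < 5/16 < 3/8` for `LL` and `MM`; other classes are
  impossible) or `c x z` (`HC`, `p z < up z`); in the other case `p z ≤ 1/2 < q^s z` (by class: `X` 1/4,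
  `Y` 1/2, `LM` 1/4, `MM` < 5/16, `HM` 1/2). Above: `q^s z < up z`.
* `q^s ∈ cellR c`: for `c u v` the values of `q` are `q u ≤ q v` (3/8, 1/2, 1/2 + 1/(2N) in the
  order of `c`), with equality only in the same group, where `rc u < rc v` decides; different
  groups are separated for small `s`.
* The relations `R` hold since `R ⊆ c` (`Dat.R_c`).
* `q^s → q` as `s → 0`, `h` is continuous. So the set is open and nonempty.
-/

open MeasureTheory

namespace Pool.Agent.H19.UC

variable {T : Type} [Fintype T] (D : Dat T)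

/-- A strict inequality between affine functions for small positive `s`. -/
private theorem ev_lt {a b k l : ℝ} (h : a < b ∨ (a = b ∧ k < l)) :
    ∀ᶠ s : ℝ in nhdsWithin 0 (Set.Ioi 0), a + s * k < b + s * l := by
  rcases h with h | ⟨h, hk⟩
  · have hc : ContinuousAt (fun s : ℝ => (b + s * l) - (a + s * k)) 0 := by fun_prop
    have h0 : (0 : ℝ) < (fun s : ℝ => (b + s * l) - (a + s * k)) 0 := by
      simp only [zero_mul, add_zero]; linarith
    have := hc.eventually_const_lt h0
    filter_upwards [this.filter_mono nhdsWithin_le_nhds] with s hs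
    linarith
  · filter_upwards [self_mem_nhdsWithin] with s hs
    have hs' : (0 : ℝ) < s := hs
    have := mul_lt_mul_of_pos_left hk hs'
    linarith

open Classical in
/-- The direction of the perturbation. -/
private noncomputable def kk (z : T) : ℝ :=
  if D.c z D.y then (D.rc z : ℝ) - Fintype.card T
  else if D.c D.x z then (D.rc z : ℝ) - Fintype.card T else (D.rc z : ℝ) + 1

private theorem N_pos : (0 : ℚ) < (D.N : ℚ) := by
  have h1 : 0 < Fintype.card T := Fintype.card_pos_iff.mpr ⟨D.x⟩
  have h : 0 < D.N := by unfold Dat.N; omega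
  exact_mod_cast h

private theorem low (z : T) : (D.p z : ℝ) < (D.q z : ℝ) ∨ ((D.p z : ℝ) = (D.q z : ℝ) ∧ 0 < kk D z) := by
  classical
  by_cases h1 : D.c z D.y
  · left
    have h := D.p_lt_up z
    have e : D.q z = D.up z := by unfold Dat.q Dat.up; simp only [h1, if_true]
    rw [e]; exact_mod_cast h
  by_cases h2 : D.c D.x z
  · left
    have h := D.p_lt_up z
    have e : D.q z = D.up z := by unfold Dat.q Dat.up; simp only [h1, h2, if_false, if_true]
    rw [e]; exact_mod_cast h
  have hk : 0 < kk D z := by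
    unfold kk; simp only [h1, h2, if_false]; positivity
  rcases lt_or_eq_of_le (D.p_le_q z) with h | h
  · left; exact_mod_cast h
  · right; exact ⟨by rw [h], hk⟩

private theorem upp (z : T) :
    (D.q z : ℝ) < (D.up z : ℝ) ∨ ((D.q z : ℝ) = (D.up z : ℝ) ∧ kk D z < 0) := by
  classical
  have hr : (D.rc z : ℝ) < (Fintype.card T : ℝ) := by exact_mod_cast D.rc_lt_card z
  by_cases h1 : D.c z D.y
  · right
    have e : D.q z = D.up z := by unfold Dat.q Dat.up; simp only [h1, if_true]
    refine ⟨by rw [e], ?_⟩
    unfold kk; simp only [h1, if_true]; linarith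
  by_cases h2 : D.c D.x z
  · right
    have e : D.q z = D.up z := by unfold Dat.q Dat.up; simp only [h1, h2, if_false, if_true]
    refine ⟨by rw [e], ?_⟩
    unfold kk; simp only [h1, h2, if_false, if_true]; linarith
  left
  have e : D.q z < D.up z := by
    unfold Dat.q Dat.up; simp only [h1, h2, if_false]; norm_num
  exact_mod_cast e

private theorem ord {u v : T} (huv : D.c u v) :
    (D.q u : ℝ) < (D.q v : ℝ) ∨ ((D.q u : ℝ) = (D.q v : ℝ) ∧ kk D u < kk D v) := by
  classical
  have hN := N_pos D
  have hN' : (0 : ℚ) < 1 / (2 * D.N) := by positivity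
  have hr : (D.rc u : ℝ) < (D.rc v : ℝ) := by exact_mod_cast D.rc_lt huv
  have tr : ∀ {a b c : T}, D.c a b → D.c b c → D.c a c := fun {a b c} h1 h2 => D.sc.trans a b c h1 h2
  by_cases hv : D.c v D.y
  · have hu : D.c u D.y := tr huv hv
    right
    unfold Dat.q kk
    simp only [hu, hv, if_true]
    exact ⟨trivial, by linarith⟩
  by_cases hu : D.c u D.y
  · left
    have : D.q u < D.q v := by
      unfold Dat.q
      simp only [hu, hv, if_true, if_false]
      split_ifs
      · linarith
      · norm_num
    exact_mod_cast this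
  by_cases hu2 : D.c D.x u
  · have hv2 : D.c D.x v := tr hu2 huv
    right
    unfold Dat.q kk
    simp only [hu, hv, hu2, hv2, if_true, if_false]
    exact ⟨trivial, by linarith⟩
  by_cases hv2 : D.c D.x v
  · left
    have : D.q u < D.q v := by
      unfold Dat.q
      simp only [hu, hv, hu2, hv2, if_true, if_false]
      linarith
    exact_mod_cast this
  · right
    unfold Dat.q kk
    simp only [hu, hv, hu2, hv2, if_false]
    exact ⟨trivial, by linarith⟩

theorem Dat.pos_Q (h0 : 0 < D.h D.qt) (δ : ℝ) (hδ : 0 < δ) :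
    0 < volume (D.Fo ∩ cellR D.c ∩ {τ | (1 - δ) * D.h D.qt < D.h τ}) := by
  have hopen : IsOpen (D.Fo ∩ cellR D.c ∩ {τ | (1 - δ) * D.h D.qt < D.h τ}) :=
    (D.isOpen_Fo.inter (isOpen_cellR D.c)).inter (isOpen_lt continuous_const D.continuous_h)
  refine hopen.measure_pos volume ?_
  set qs : ℝ → T → ℝ := fun s z => D.qt z + s * kk D z with hqs
  have e1 : ∀ᶠ s : ℝ in nhdsWithin 0 (Set.Ioi 0), ∀ z, (D.p z : ℝ) < qs s z := by
    rw [Filter.eventually_all]
    intro z
    have := ev_lt (a := (D.p z : ℝ)) (b := (D.q z : ℝ)) (k := 0) (l := kk D z) (low D z)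
    filter_upwards [this] with s hs
    simpa [hqs, Dat.qt] using hs
  have e2 : ∀ᶠ s : ℝ in nhdsWithin 0 (Set.Ioi 0), ∀ z, qs s z < (D.up z : ℝ) := by
    rw [Filter.eventually_all]
    intro z
    have := ev_lt (a := (D.q z : ℝ)) (b := (D.up z : ℝ)) (k := kk D z) (l := 0) (upp D z)
    filter_upwards [this] with s hs
    simpa [hqs, Dat.qt] using hs
  have e3 : ∀ᶠ s : ℝ in nhdsWithin 0 (Set.Ioi 0), ∀ u v, D.c u v → qs s u < qs s v := by
    rw [Filter.eventually_all]
    intro u
    rw [Filter.eventually_all]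
    intro v
    by_cases huv : D.c u v
    · have := ev_lt (ord D huv)
      filter_upwards [this] with s hs _
      simpa [hqs, Dat.qt] using hs
    · exact Filter.Eventually.of_forall fun s h => absurd h huv
  have e4 : ∀ᶠ s : ℝ in nhdsWithin 0 (Set.Ioi 0), (1 - δ) * D.h D.qt < D.h (qs s) := by
    have hc : ContinuousAt (fun s : ℝ => D.h (qs s)) 0 := by
      have : Continuous qs := by
        rw [continuous_pi_iff]
        intro z
        simp only [hqs]
        fun_prop
      exact (D.continuous_h.comp this).continuousAt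
    have hq0 : qs 0 = D.qt := by
      funext z; simp [hqs]
    have hlt : (1 - δ) * D.h D.qt < (fun s : ℝ => D.h (qs s)) 0 := by
      simp only [hq0]
      have := mul_pos hδ h0
      linarith
    exact (hc.eventually_const_lt hlt).filter_mono nhdsWithin_le_nhds
  obtain ⟨s, ⟨h1, h2⟩, h3, h4⟩ := ((e1.and e2).and (e3.and e4)).exists
  refine ⟨qs s, ⟨⟨fun z => ⟨h1 z, h2 z⟩, fun a t hR => h3 a t (D.R_c hR)⟩, fun a t hc => h3 a t hc⟩, h4⟩

end Pool.Agent.H19.UC
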