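import Pool.Agent.H19.UC.Dat

/-!
# One variable inequalities at the collapsed configuration (real analysis only)

PROOFS. Always `0 ≤ (1 - ξ) ^ N ≤ (1/2) ^ N`.

* `Q_LL`: `ζ ≤ 3/8 ≤ 3 ξ / 4`, so `ζ ^ 3 (ξ - ζ) ≤ (3/8) ^ 3 (ξ - 3/8)` (the derivative of
  `ζ ^ 3 (ξ - ζ)` is `ζ ^ 2 (3 ξ - 4 ζ) ≥ 0`), and `(ξ - 3/8) (1 - ξ) ^ N ≤ (1/8) (1/2) ^ N`:
  `(ξ - 3/8) (1 - ξ) ^ 4` is decreasing for `ξ ≥ 1/2` (`4 (ξ - 3/8) ≥ 1 - ξ`), the other factors too.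
* `Q_LM`: `(1 - ξ) ^ N ζ ≤ (1 - ξ) ^ N ξ ≤ (1 - ξ) ^ (N-1) / 4 ≤ (1/2) ^ (N-1) / 4`.
* `Q_MMl`: `1 - max ξ ζ ≤ 1 - ξ ≤ 1/2` and `ζ ≤ 3/8`.
* `Q_MMm`: `ζ (1 - max ξ ζ) ^ 4 ≤ ζ (1 - ζ) (1 - ξ) ^ 3 ≤ (1/4) (1/2) ^ 3`.
* `Q_HC`: `max (ζ - ξ) 0 ≤ max (ζ - 1/2) 0` and `(ζ - 1/2) (1 - ζ) ^ (N - 1)` is increasing on
  `[1/2, 1/2 + 1/(2N)]`; with `ρ = 1/2 + 1/(2N)` one has for `1/2 ≤ ζ ≤ ρ` (Bernoulli or AM-GM)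
  `(ζ - 1/2) (1 - ζ) ^ (N-1) ≤ (ρ - 1/2) (1 - ρ) ^ (N-1)`: by `a ≤ b exp (a/b - 1)` the quotient is at most
  `exp ((ζ - ρ) / (ρ - 1/2) + (N - 1) (ρ - ζ) / (1 - ρ))`, and `1 / (ρ - 1/2) = 2 N = (N-1) / (1 - ρ)`.
-/

namespace Pool.Agent.H19.UC

private theorem pw {N : ℕ} {ξ : ℝ} (h1 : 1 / 2 ≤ ξ) (h2 : ξ ≤ 1) :
    (1 - ξ) ^ N ≤ (1 - 1 / 2 : ℝ) ^ N :=
  pow_le_pow_left₀ (by linarith) (by linarith) N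

private theorem pw0 {N : ℕ} {ξ : ℝ} (h2 : ξ ≤ 1) : 0 ≤ (1 - ξ) ^ N :=
  pow_nonneg (by linarith) N

theorem Q_X {N : ℕ} {ξ : ℝ} (h1 : 1 / 2 ≤ ξ) (h2 : ξ ≤ 1) :
    gac N .X ξ ξ ≤ gac N .X (1 / 2) (1 / 2) := by
  simp only [gac, fac]
  simpa using pw (N := N) h1 h2

theorem Q_Y {N : ℕ} {ξ ζ : ℝ} (h1 : 1 / 2 ≤ ξ) (h2 : ξ ≤ 1) (h3 : 1 / 2 ≤ ζ) (h4 : ζ ≤ 1) :
    gac N .Y ξ ζ ≤ gac N .Y (1 / 2) (1 / 2) := by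
  simp only [gac, fac]
  exact mul_le_mul (pw h1 h2) (by linarith) (by linarith) (by positivity)

theorem Q_HM {N : ℕ} {ξ ζ : ℝ} (h1 : 1 / 2 ≤ ξ) (h2 : ξ ≤ 1) (h3 : 1 / 2 ≤ ζ) (h4 : ζ ≤ 1) :
    gac N .HM ξ ζ ≤ gac N .HM (1 / 2) (1 / 2) := by
  simp only [gac, fac]
  exact mul_le_mul (pw h1 h2) (by linarith) (by linarith) (by positivity)

theorem Q_LL {N : ℕ} (hN : 16 ≤ N) {ξ ζ : ℝ} (h1 : 1 / 2 ≤ ξ) (h2 : ξ ≤ 1) (h3 : 0 ≤ ζ)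
    (h4 : ζ ≤ 3 / 8) : gac N .LL ξ ζ ≤ gac N .LL (1 / 2) (3 / 8) := by
  simp only [gac, fac]
  rw [max_eq_left (by linarith : (0 : ℝ) ≤ ξ - ζ), max_eq_left (by norm_num : (0 : ℝ) ≤ 1 / 2 - 3 / 8)]
  obtain ⟨M, rfl⟩ : ∃ M, N = M + 4 := ⟨N - 4, by omega⟩
  have hA : ζ ^ 3 * (ξ - ζ) ≤ (3 / 8) ^ 3 * (ξ - 3 / 8) := by
    have e : (3 / 8 : ℝ) ^ 3 * (ξ - 3 / 8) - ζ ^ 3 * (ξ - ζ)
        = (3 / 8 - ζ) * ((ξ - 1 / 2) * ((3 / 8) ^ 2 + 3 / 8 * ζ + ζ ^ 2)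
          + ((3 / 8) ^ 3 / 3 + (3 / 8) ^ 2 * ζ / 3 + 3 / 8 * ζ ^ 2 / 3 - ζ ^ 3)) := by ring
    have h5 : ζ ^ 3 ≤ (3 / 8) ^ 3 / 3 + (3 / 8) ^ 2 * ζ / 3 + 3 / 8 * ζ ^ 2 / 3 := by
      have h6 : ζ ^ 2 ≤ (3 / 8) ^ 2 := pow_le_pow_left₀ h3 h4 2
      have h7 : ζ ^ 3 ≤ (3 / 8) ^ 3 := pow_le_pow_left₀ h3 h4 3
      have h8 : ζ ^ 3 ≤ (3 / 8) ^ 2 * ζ := by nlinarith
      have h9 : ζ ^ 3 ≤ 3 / 8 * ζ ^ 2 := by nlinarith [sq_nonneg ζ]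
      linarith
    have h6 : 0 ≤ (3 / 8 : ℝ) ^ 3 * (ξ - 3 / 8) - ζ ^ 3 * (ξ - ζ) := by
      rw [e]
      refine mul_nonneg (by linarith) (add_nonneg (mul_nonneg (by linarith) (by positivity)) (by linarith))
    linarith
  have hB : (ξ - 3 / 8) * (1 - ξ) ^ 4 ≤ 1 / 8 * (1 / 2) ^ 4 := by
    obtain ⟨s, hs⟩ : ∃ s, s = 1 - ξ := ⟨_, rfl⟩
    have hx : ξ = 1 - s := by linarith
    subst hx
    have hs0 : 0 ≤ s := by linarith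
    have hs1 : s ≤ 1 / 2 := by linarith
    have e : 1 / 8 * (1 / 2 : ℝ) ^ 4 - (1 - s - 3 / 8) * (1 - (1 - s)) ^ 4
        = (1 / 2 - s) * ((1 / 2) ^ 3 / 8 + (1 / 2) ^ 2 * s / 8 + 1 / 2 * s ^ 2 / 8 + s ^ 3 / 8 - s ^ 4) := by
      ring
    have h5 : s ^ 4 ≤ (1 / 2) ^ 3 / 8 + (1 / 2) ^ 2 * s / 8 + 1 / 2 * s ^ 2 / 8 + s ^ 3 / 8 := by
      have h6 : s ^ 2 ≤ (1 / 2) ^ 2 := pow_le_pow_left₀ hs0 hs1 2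
      have h7 : s ^ 3 ≤ (1 / 2) ^ 3 := pow_le_pow_left₀ hs0 hs1 3
      have h8 : s ^ 3 ≤ (1 / 2) ^ 2 * s := by nlinarith
      have h9 : s ^ 3 ≤ 1 / 2 * s ^ 2 := by nlinarith [sq_nonneg s]
      have h10 : s ^ 4 ≤ 1 / 2 * s ^ 3 := by nlinarith [pow_nonneg hs0 3]
      linarith
    have h6 : 0 ≤ 1 / 8 * (1 / 2 : ℝ) ^ 4 - (1 - s - 3 / 8) * (1 - (1 - s)) ^ 4 := by
      rw [e]
      exact mul_nonneg (by linarith) (by linarith)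
    linarith
  have hC : (1 - ξ) ^ M ≤ (1 / 2) ^ M := pow_le_pow_left₀ (by linarith) (by linarith) M
  calc (1 - ξ) ^ (M + 4) * (ζ ^ 3 * (ξ - ζ))
      ≤ (1 - ξ) ^ (M + 4) * ((3 / 8) ^ 3 * (ξ - 3 / 8)) :=
        mul_le_mul_of_nonneg_left hA (pw0 h2)
    _ = (3 / 8) ^ 3 * ((1 - ξ) ^ M * ((ξ - 3 / 8) * (1 - ξ) ^ 4)) := by ring
    _ ≤ (3 / 8) ^ 3 * ((1 / 2) ^ M * (1 / 8 * (1 / 2) ^ 4)) := by
        refine mul_le_mul_of_nonneg_left ?_ (by positivity)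
        exact mul_le_mul hC hB (mul_nonneg (by linarith) (pw0 h2)) (by positivity)
    _ = (1 - 1 / 2) ^ (M + 4) * ((3 / 8) ^ 3 * (1 / 2 - 3 / 8)) := by
        have : (1 - 1 / 2 : ℝ) = 1 / 2 := by norm_num
        rw [this]; ring

theorem Q_LM {N : ℕ} (hN : 16 ≤ N) {ξ ζ : ℝ} (h1 : 1 / 2 ≤ ξ) (h2 : ξ ≤ 1) (h3 : 0 ≤ ζ)
    (h4 : ζ ≤ ξ) : gac N .LM ξ ζ ≤ gac N .LM (1 / 2) (1 / 2) := by
  simp only [gac, fac]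
  obtain ⟨M, rfl⟩ : ∃ M, N = M + 1 := ⟨N - 1, by omega⟩
  have hC : (1 - ξ) ^ M ≤ (1 / 2) ^ M := pow_le_pow_left₀ (by linarith) (by linarith) M
  calc (1 - ξ) ^ (M + 1) * ζ ≤ (1 - ξ) ^ (M + 1) * ξ := mul_le_mul_of_nonneg_left h4 (pw0 h2)
    _ = (1 - ξ) ^ M * ((1 - ξ) * ξ) := by ring
    _ ≤ (1 / 2) ^ M * (1 / 2 * (1 / 2)) := by
        refine mul_le_mul hC ?_ (mul_nonneg (by linarith) (by linarith)) (by positivity)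
        nlinarith [sq_nonneg (ξ - 1 / 2)]
    _ = (1 - 1 / 2) ^ (M + 1) * (1 / 2) := by
        have : (1 - 1 / 2 : ℝ) = 1 / 2 := by norm_num
        rw [this]; ring

theorem Q_MMl {N : ℕ} {ξ ζ : ℝ} (h1 : 1 / 2 ≤ ξ) (h2 : ξ ≤ 1) (h3 : 0 ≤ ζ)
    (h4 : ζ ≤ 3 / 8) : gac N .MM ξ ζ ≤ gac N .MM (1 / 2) (3 / 8) := by
  simp only [gac, fac]
  rw [max_eq_left (by linarith : ζ ≤ ξ), max_eq_left (by norm_num : (3 / 8 : ℝ) ≤ 1 / 2)]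
  refine mul_le_mul (pw h1 h2) ?_ (mul_nonneg h3 (pw0 h2)) (by positivity)
  exact mul_le_mul h4 (pw h1 h2) (pw0 h2) (by norm_num)

theorem Q_MMm {N : ℕ} {ξ ζ : ℝ} (h1 : 1 / 2 ≤ ξ) (h2 : ξ ≤ 1) (h3 : 0 ≤ ζ)
    (h4 : ζ ≤ 1) : gac N .MM ξ ζ ≤ gac N .MM (1 / 2) (1 / 2) := by
  simp only [gac, fac]
  rw [max_self]
  have hm : max ξ ζ ≤ 1 := max_le h2 h4
  refine mul_le_mul (pw h1 h2) ?_ (mul_nonneg h3 (pw0 hm)) (by positivity)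
  have ha : 0 ≤ 1 - max ξ ζ := by linarith
  have hb : 1 - max ξ ζ ≤ 1 - ζ := by linarith [le_max_right ξ ζ]
  have hc : 1 - max ξ ζ ≤ 1 / 2 := by linarith [le_max_left ξ ζ]
  have hd : (1 - max ξ ζ) ^ 3 ≤ (1 / 2) ^ 3 := pow_le_pow_left₀ ha hc 3
  calc ζ * (1 - max ξ ζ) ^ 4 = (ζ * (1 - max ξ ζ)) * (1 - max ξ ζ) ^ 3 := by ring
    _ ≤ (1 / 4) * (1 / 2) ^ 3 := by
        refine mul_le_mul ?_ hd (pow_nonneg ha 3) (by norm_num)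
        nlinarith [sq_nonneg (ζ - 1 / 2), mul_le_mul_of_nonneg_left hb h3]
    _ = 1 / 2 * (1 - 1 / 2) ^ 4 := by norm_num

theorem Q_HC {N : ℕ} (hN : 16 ≤ N) {ξ ζ : ℝ} (h1 : 1 / 2 ≤ ξ) (h2 : ξ ≤ 1) (h3 : 0 ≤ ζ)
    (h4 : ζ ≤ 1 / 2 + 1 / (2 * N)) :
    gac N .HC ξ ζ ≤ gac N .HC (1 / 2) (1 / 2 + 1 / (2 * N)) := by
  simp only [gac, fac]
  have hNr : (16 : ℝ) ≤ N := by exact_mod_cast hN
  have hNp : (0 : ℝ) < N := by linarith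
  obtain ⟨τ, hτ⟩ : ∃ τ : ℝ, τ = 1 / (2 * N) := ⟨_, rfl⟩
  rw [← hτ] at h4 ⊢
  have hτ0 : 0 < τ := by rw [hτ]; positivity
  have hτN : 2 * N * τ = 1 := by rw [hτ]; field_simp
  have hτ1 : τ ≤ 1 / 32 := by
    nlinarith
  rw [max_eq_left (by linarith : (0 : ℝ) ≤ 1 / 2 + τ - 1 / 2)]
  have hR : 0 ≤ (1 / 2 + τ - 1 / 2) * (1 - (1 / 2 + τ)) ^ (N - 1) :=
    mul_nonneg (by linarith) (pw0 (by linarith))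
  rcases le_or_gt ζ ξ with hz | hz
  · rw [max_eq_right (by linarith : ζ - ξ ≤ 0), zero_mul, mul_zero]
    exact mul_nonneg (by positivity) hR
  rw [max_eq_left (by linarith : (0 : ℝ) ≤ ζ - ξ)]
  have hz1 : ζ ≤ 1 := by linarith
  refine mul_le_mul (pw h1 h2) ?_ (mul_nonneg (by linarith) (pw0 hz1)) (by positivity)
  obtain ⟨t, ht⟩ : ∃ t, t = ζ - 1 / 2 := ⟨_, rfl⟩
  have ht0 : 0 ≤ t := by linarith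
  have htt : t ≤ τ := by linarith
  have e1 : 1 - ζ = 1 / 2 - t := by linarith
  have e2 : 1 - (1 / 2 + τ) = 1 / 2 - τ := by ring
  have e3 : 1 / 2 + τ - 1 / 2 = τ := by ring
  rw [e1, e2, e3]
  have hb : 0 < 1 / 2 - τ := by linarith
  have ha : 0 < 1 / 2 - t := by linarith
  have hstep : (ζ - ξ) * (1 / 2 - t) ^ (N - 1) ≤ t * (1 / 2 - t) ^ (N - 1) :=
    mul_le_mul_of_nonneg_right (by linarith) (pow_nonneg ha.le _)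
  refine hstep.trans ?_
  have hc1 : ((N - 1 : ℕ) : ℝ) = (N : ℝ) - 1 := by
    rw [Nat.cast_sub (by omega)]; simp
  have k1 : t / τ ≤ Real.exp (t / τ - 1) := by
    have := Real.add_one_le_exp (t / τ - 1); linarith
  have k2 : (1 / 2 - t) / (1 / 2 - τ) ≤ Real.exp ((1 / 2 - t) / (1 / 2 - τ) - 1) := by
    have := Real.add_one_le_exp ((1 / 2 - t) / (1 / 2 - τ) - 1); linarith
  have k3 : ((1 / 2 - t) / (1 / 2 - τ)) ^ (N - 1)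
      ≤ Real.exp (((N : ℝ) - 1) * ((1 / 2 - t) / (1 / 2 - τ) - 1)) := by
    calc ((1 / 2 - t) / (1 / 2 - τ)) ^ (N - 1)
        ≤ (Real.exp ((1 / 2 - t) / (1 / 2 - τ) - 1)) ^ (N - 1) :=
          pow_le_pow_left₀ (div_nonneg ha.le hb.le) k2 _
      _ = Real.exp (((N : ℝ) - 1) * ((1 / 2 - t) / (1 / 2 - τ) - 1)) := by
          rw [← Real.exp_nat_mul, hc1]
  have k4 : ((N : ℝ) - 1) * ((1 / 2 - t) / (1 / 2 - τ) - 1) = 1 - t / τ := by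
    have hNe : (N : ℝ) ≠ 0 := hNp.ne'
    have hN1 : (N : ℝ) - 1 ≠ 0 := by
      have : (0 : ℝ) < (N : ℝ) - 1 := by linarith
      exact this.ne'
    have hb' : (1 / 2 - τ) = ((N : ℝ) - 1) * τ := by nlinarith
    have hτ' : τ ≠ 0 := hτ0.ne'
    rw [hb']
    field_simp
    nlinarith
  have k5 : (t / τ) * ((1 / 2 - t) / (1 / 2 - τ)) ^ (N - 1) ≤ 1 := by
    calc (t / τ) * ((1 / 2 - t) / (1 / 2 - τ)) ^ (N - 1)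
        ≤ Real.exp (t / τ - 1) * Real.exp (1 - t / τ) := by
          rw [← k4]
          exact mul_le_mul k1 k3 (pow_nonneg (div_nonneg ha.le hb.le) _) (Real.exp_pos _).le
      _ = 1 := by rw [← Real.exp_add]; norm_num
  rw [div_pow, div_mul_div_comm, div_le_one (mul_pos hτ0 (pow_pos hb _))] at k5
  exact k5

end Pool.Agent.H19.UC
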