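import Pool.Agent.H19.UC.PVal
import Pool.Agent.H19.UC.OneQ

/-!
# `q` is a maximum of `h` on the part `τ y ≤ τ x` of the closed domain

PROOF. Let `τ ∈ F` with `τ y ≤ τ x`; then `ξ = τ x ≥ τ y ≥ p y = 1/2`. For every `z` of class `k`
one has `gac N k ξ (τ z) ≤ gac N k (1/2) (q z)` by `OneQ.lean` (`q x = 1/2`): `X`: `Q_X`, `q = 1/2`.
`Y`, `HM`: `τ z ≥ p z = 1/2`, `q z = 1/2`. `LL`: `τ z ≤ up z = 3/8 = q z`. `LM`: `τ z ≤ τ x` by the
relation `R z x`, `q z = 1/2`. `MM`: if `c z y` then `τ z ≤ up z = 3/8 = q z`, `Q_MMl`; otherwise `q z = 1/2`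
(`¬ c x z`), `Q_MMm`. `HC`: `q z = up z = 1/2 + 1/(2N)`, `Q_HC`. All factors are nonnegative, so
the products compare (`Finset.prod_le_prod`). Positivity of all `gac N k (1/2) (q z)`: direct.
-/

namespace Pool.Agent.H19.UC

variable {T : Type} [Fintype T] (D : Dat T)

omit [Fintype T] in
private lemma asymC {s t : T} (h1 : D.c s t) (h2 : D.c t s) : False := by
  have := D.sc
  exact asymm_of D.c h1 h2

omit [Fintype T] in
private lemma irrC {s : T} (h1 : D.c s s) : False := asymC D h1 h1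

private lemma N_ge : 32 ≤ D.N := by
  have h : 1 < Fintype.card T :=
    Fintype.one_lt_card_iff.2 ⟨D.x, D.y, fun h => irrC D (h ▸ D.cyx : D.c D.y D.y)⟩
  unfold Dat.N
  omega

private lemma qt_low {z : T} (h : D.c z D.y) : D.qt z = 3 / 8 := by
  unfold Dat.qt Dat.q
  rw [if_pos h]
  norm_num

private lemma qt_high {z : T} (h1 : D.c D.y z) (h2 : D.c D.x z) :
    D.qt z = 1 / 2 + 1 / (2 * D.N) := by
  unfold Dat.qt Dat.q
  rw [if_neg (fun h => asymC D h h1), if_pos h2]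
  push_cast
  ring

private lemma qt_mid {z : T} (h1 : ¬ D.c z D.y) (h2 : ¬ D.c D.x z) : D.qt z = 1 / 2 := by
  unfold Dat.qt Dat.q
  rw [if_neg h1, if_neg h2]
  norm_num

private lemma up_low {z : T} (h : D.c z D.y) : (D.up z : ℝ) = 3 / 8 := by
  unfold Dat.up
  rw [if_pos h]
  norm_num

private lemma up_high {z : T} (h1 : D.c D.y z) (h2 : D.c D.x z) :
    (D.up z : ℝ) = 1 / 2 + 1 / (2 * D.N) := by
  unfold Dat.up
  rw [if_neg (fun h => asymC D h h1), if_pos h2]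
  push_cast
  ring

private lemma qt_x : D.qt D.x = 1 / 2 :=
  qt_mid D (fun h => asymC D h D.cyx) (fun h => irrC D h)

private lemma qt_y : D.qt D.y = 1 / 2 :=
  qt_mid D (fun h => irrC D h) (fun h => asymC D h D.cyx)

private lemma half_pow_pos (N : ℕ) : (0 : ℝ) < (1 - 1 / 2) ^ N := by positivity

theorem Dat.h_Q_pos : 0 < D.h D.qt := by
  unfold Dat.h
  refine Finset.prod_pos fun z _ => ?_
  rw [qt_x]
  unfold gac
  refine mul_pos (half_pow_pos _) ?_
  have hN : (32 : ℝ) ≤ D.N := by exact_mod_cast N_ge D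
  rcases hz : D.cls z
  · simp only [fac]
    norm_num
  · obtain rfl := D.cls_Y.1 hz
    rw [qt_y]
    simp only [fac]
    norm_num
  · obtain ⟨-, -, h3, -⟩ := D.cls_LL hz
    rw [qt_low D h3]
    simp only [fac]
    rw [max_eq_left (by norm_num)]
    norm_num
  · obtain ⟨-, -, h3, h4⟩ := D.cls_LM hz
    rw [qt_mid D (fun h => asymC D h h3) (fun h => asymC D h h4)]
    simp only [fac]
    norm_num
  · obtain ⟨-, h2, h3, -⟩ := D.cls_HC hz
    rw [qt_high D h3 h2]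
    simp only [fac]
    have h5 : (0 : ℝ) < 1 / (2 * D.N) := by positivity
    have h6 : (1 : ℝ) / (2 * D.N) ≤ 1 / 64 :=
      one_div_le_one_div_of_le (by norm_num) (by linarith)
    refine mul_pos ?_ (pow_pos (by linarith) _)
    rw [max_eq_left (by linarith)]
    linarith
  · obtain ⟨-, -, h3, -⟩ := D.cls_MM hz
    by_cases h4 : D.c z D.y
    · rw [qt_low D h4]
      simp only [fac]
      rw [max_eq_left (by norm_num)]
      norm_num
    · rw [qt_mid D h4 (fun h => asymC D h h3)]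
      simp only [fac]
      rw [max_self]
      norm_num
  · obtain ⟨-, -, h3, h4⟩ := D.cls_HM hz
    rw [qt_mid D (fun h => asymC D h h3) (fun h => asymC D h h4)]
    simp only [fac]
    norm_num

private lemma gac_nonneg (N : ℕ) (k : Cls) {ξ ζ : ℝ} (h1 : ξ ≤ 1) (h2 : 0 ≤ ζ)
    (h3 : ζ ≤ 1) : 0 ≤ gac N k ξ ζ := by
  unfold gac
  refine mul_nonneg (pow_nonneg (by linarith) _) ?_
  cases k <;> simp only [fac]
  · norm_num
  · linarith
  · exact mul_nonneg (pow_nonneg h2 _) (le_max_right _ _)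
  · exact h2
  · exact mul_nonneg (le_max_right _ _) (pow_nonneg (by linarith) _)
  · exact mul_nonneg h2 (pow_nonneg (by linarith [max_le h1 h3]) _)
  · linarith

theorem Dat.h_le_Q {τ : T → ℝ} (hτ : τ ∈ D.F) (hyx : τ D.y ≤ τ D.x) : D.h τ ≤ D.h D.qt := by
  have hN : 16 ≤ D.N := le_trans (by norm_num) (N_ge D)
  have hpos : ∀ z, 0 ≤ τ z := fun z => by
    have h1 := (hτ.1 z).1
    have h2 : (0 : ℝ) < (D.p z : ℝ) := by exact_mod_cast D.p_pos z
    linarith
  have hup : ∀ z, τ z ≤ 1 := fun z => by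
    have h1 := (hτ.1 z).2
    have h2 : (D.up z : ℝ) < 1 := by exact_mod_cast D.up_lt_one z
    linarith
  have hy : (1 : ℝ) / 2 ≤ τ D.y := by
    have h1 := (hτ.1 D.y).1
    rw [D.p_Y] at h1
    push_cast at h1
    linarith
  have hξ1 : (1 : ℝ) / 2 ≤ τ D.x := hy.trans hyx
  have hξ2 : τ D.x ≤ 1 := hup D.x
  unfold Dat.h
  refine Finset.prod_le_prod (fun z _ => gac_nonneg _ _ hξ2 (hpos z) (hup z)) fun z _ => ?_
  rw [qt_x]
  rcases hz : D.cls z
  · obtain rfl := D.cls_X.1 hz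
    rw [qt_x]
    exact Q_X hξ1 hξ2
  · obtain rfl := D.cls_Y.1 hz
    rw [qt_y]
    exact Q_Y hξ1 hξ2 hy (hup _)
  · obtain ⟨-, -, h3, -⟩ := D.cls_LL hz
    rw [qt_low D h3]
    refine Q_LL hN hξ1 hξ2 (hpos z) ?_
    rw [← up_low D h3]
    exact (hτ.1 z).2
  · obtain ⟨h1, -, h3, h4⟩ := D.cls_LM hz
    rw [qt_mid D (fun h => asymC D h h3) (fun h => asymC D h h4)]
    refine Q_LM hN hξ1 hξ2 (hpos z) (hτ.2 z D.x ⟨h1, Or.inl ⟨hz, Or.inl rfl⟩⟩)
  · obtain ⟨-, h2, h3, -⟩ := D.cls_HC hz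
    rw [qt_high D h3 h2]
    refine Q_HC hN hξ1 hξ2 (hpos z) ?_
    rw [← up_high D h3 h2]
    exact (hτ.1 z).2
  · obtain ⟨-, -, h3, -⟩ := D.cls_MM hz
    by_cases h4 : D.c z D.y
    · rw [qt_low D h4]
      refine Q_MMl hξ1 hξ2 (hpos z) ?_
      rw [← up_low D h4]
      exact (hτ.1 z).2
    · rw [qt_mid D h4 (fun h => asymC D h h3)]
      exact Q_MMm hξ1 hξ2 (hpos z) (hup z)
  · obtain ⟨-, -, h3, h4⟩ := D.cls_HM hz
    rw [qt_mid D (fun h => asymC D h h3) (fun h => asymC D h h4)]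
    refine Q_HM hξ1 hξ2 ?_ (hup z)
    have h1 := (hτ.1 z).1
    rw [D.p_HM hz] at h1
    push_cast at h1
    linarith

end Pool.Agent.H19.UC
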