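import Pool.Agent.H19.UC.PVal

/-!
# The configurations near `p`

PROOFS. `eta_pos`: `n, N > 0`. `near_P`: let `b s t`. By `Dat.gap` either `p s + 2 η ≤ p t` and then
`τ s < p s + η ≤ p t - η < τ t`, or `R s t` and then `τ s < τ t` as `τ ∈ cellR R`.

`continuous_h`: `gac N k` is continuous in both variables for every `k` (by cases).

`pos_P`: for `s > 0` small the point `p^s z = p z + s (rb z + 1)` is in the open set `Fo ∩ cellR b`:
`p z < p^s z < up z` (`p z < up z`), and for `a, t` with `b a t`: `p a ≤ p t` (`Dat.gap`) and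
`rb a < rb t`; the relations `R` are contained in `b`. As `s → 0`, `p^s → p` and `h (p^s) → h p > (1-δ) h p`.
So `Fo ∩ cellR b ∩ {(1 - δ) h p < h}` is open (finite intersections of open sets) and nonempty, so
its volume is positive (`IsOpen.measure_pos`). Here `0 < h p` is `Dat.h_P_pos`; it is passed as a
hypothesis so that this file does not depend on `OptP`.
-/

open MeasureTheory

namespace Pool.Agent.H19.UC

variable {T : Type} [Fintype T] (D : Dat T)

theorem Dat.eta_pos : 0 < D.eta := by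
  have h2 : (2 : ℝ) ≤ (Fintype.card T : ℝ) := by exact_mod_cast D.two_le_card
  have hN : (0 : ℝ) < (D.N : ℝ) := by
    unfold Dat.N
    push_cast
    linarith
  unfold Dat.eta
  have : (0 : ℝ) < 4 * (Fintype.card T : ℝ) * (D.N : ℝ) := by positivity
  exact one_div_pos.mpr this

theorem Dat.near_P {τ : T → ℝ} (hτ : τ ∈ D.Fo) (h : ∀ z, |τ z - D.pt z| < D.eta) :
    τ ∈ cellR D.b := by
  intro s t hst
  rcases D.gap hst with hg | ⟨hR, -⟩
  · have h1 := (abs_lt.mp (h s)).2
    have h2 := (abs_lt.mp (h t)).1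
    linarith
  · exact hτ.2 s t hR

private theorem continuous_gac (N : ℕ) (k : Cls) (x z : T) :
    Continuous fun τ : T → ℝ => gac N k (τ x) (τ z) := by
  unfold gac
  refine Continuous.mul (by fun_prop) ?_
  cases k <;> simp only [fac] <;> fun_prop

theorem Dat.continuous_h : Continuous D.h := by
  unfold Dat.h
  exact continuous_finset_prod _ fun z _ => continuous_gac _ _ _ _

theorem isOpen_cellR (r : T → T → Prop) : IsOpen (cellR r) := by
  have : cellR r = ⋂ s, ⋂ t, {τ : T → ℝ | r s t → τ s < τ t} := by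
    ext τ
    simp [cellR]
  rw [this]
  refine isOpen_iInter_of_finite fun s => isOpen_iInter_of_finite fun t => ?_
  by_cases h : r s t
  · simp only [h, true_imp_iff]
    exact isOpen_lt (continuous_apply s) (continuous_apply t)
  · simp only [h, false_imp_iff, Set.setOf_true]
    exact isOpen_univ

private theorem isOpen_boxR (lo up : T → ℝ) : IsOpen (boxR lo up) := by
  have : boxR lo up = ⋂ z, {τ : T → ℝ | lo z < τ z ∧ τ z < up z} := by
    ext τ
    simp [boxR]
  rw [this]
  refine isOpen_iInter_of_finite fun z => ?_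
  exact (isOpen_lt continuous_const (continuous_apply z)).inter
    (isOpen_lt (continuous_apply z) continuous_const)

theorem Dat.isOpen_Fo : IsOpen D.Fo :=
  (isOpen_boxR _ _).inter (isOpen_cellR _)

private theorem Dat.near_mem (D : Dat T) {s : ℝ} (hs : 0 < s)
    (h : ∀ z, D.pt z + s * ((D.rb z : ℝ) + 1) < (D.up z : ℝ)) :
    (fun z => D.pt z + s * ((D.rb z : ℝ) + 1)) ∈ D.Fo ∩ cellR D.b := by
  have hb : ∀ a t, D.b a t → D.pt a + s * ((D.rb a : ℝ) + 1) < D.pt t + s * ((D.rb t : ℝ) + 1) := by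
    intro a t hat
    have h1 : D.pt a ≤ D.pt t := by
      rcases D.gap hat with hg | ⟨-, he⟩
      · have := D.eta_pos
        linarith
      · exact he.le
    have h2 : (D.rb a : ℝ) < (D.rb t : ℝ) := by exact_mod_cast D.rb_lt hat
    nlinarith
  refine ⟨⟨fun z => ⟨?_, h z⟩, fun a t hat => hb a t hat.1⟩, fun a t hat => hb a t hat⟩
  have : (0 : ℝ) ≤ (D.rb z : ℝ) := Nat.cast_nonneg _
  have h3 : 0 < s * ((D.rb z : ℝ) + 1) := by positivity
  simp only [Dat.pt]
  linarith

theorem Dat.pos_P (h0 : 0 < D.h D.pt) (δ : ℝ) (hδ : 0 < δ) :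
    0 < volume (D.Fo ∩ cellR D.b ∩ {τ | (1 - δ) * D.h D.pt < D.h τ}) := by
  refine IsOpen.measure_pos _ ((D.isOpen_Fo.inter (isOpen_cellR _)).inter
    (isOpen_lt continuous_const D.continuous_h)) ?_
  have hc : Continuous fun s : ℝ => fun z => D.pt z + s * ((D.rb z : ℝ) + 1) := by fun_prop
  have hz : (fun z => D.pt z + (0 : ℝ) * ((D.rb z : ℝ) + 1)) = D.pt := by
    ext z
    simp
  have e1 : ∀ᶠ s : ℝ in nhds 0, ∀ z, D.pt z + s * ((D.rb z : ℝ) + 1) < (D.up z : ℝ) := by
    refine Filter.eventually_all.mpr fun z => ?_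
    have hcz : Continuous fun s : ℝ => D.pt z + s * ((D.rb z : ℝ) + 1) := by fun_prop
    refine hcz.continuousAt.eventually_lt continuousAt_const ?_
    simp only [zero_mul, add_zero, Dat.pt]
    exact_mod_cast D.p_lt_up z
  have e2 : ∀ᶠ s : ℝ in nhds 0, (1 - δ) * D.h D.pt <
      D.h (fun z => D.pt z + s * ((D.rb z : ℝ) + 1)) := by
    have hcc : Continuous fun s : ℝ => D.h (fun z => D.pt z + s * ((D.rb z : ℝ) + 1)) :=
      D.continuous_h.comp hc
    refine continuousAt_const.eventually_lt hcc.continuousAt ?_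
    rw [hz]
    nlinarith
  have e3 : ∀ᶠ s : ℝ in nhdsWithin 0 (Set.Ioi 0), (∀ z, D.pt z + s * ((D.rb z : ℝ) + 1) < (D.up z : ℝ))
      ∧ (1 - δ) * D.h D.pt < D.h (fun z => D.pt z + s * ((D.rb z : ℝ) + 1)) ∧ 0 < s := by
    filter_upwards [nhdsWithin_le_nhds e1, nhdsWithin_le_nhds e2, self_mem_nhdsWithin]
      with s a1 a2 a3 using ⟨a1, a2, a3⟩
  obtain ⟨s, h1, h2, h3⟩ := e3.exists
  exact ⟨_, D.near_mem h3 h1, h2⟩

end Pool.Agent.H19.UC
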