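import Pool.Agent.H19.UC.OptP
import Pool.Agent.H19.UC.NearP

/-!
# Outside the cell of `b` the weight is smaller by a factor

PROOF. Let `K = {τ ∈ F | ∃ z, η ≤ |τ z - p z|}`: closed (finite union, closed conditions) and bounded, so
compact. If `K = ∅` take `θ = 1/2`: a `τ ∈ Fo ⊆ F` outside `cellR b` would be in `K` by `near_P`.
Otherwise the continuous `h` attains its maximum on `K` at some `τ₀`, `τ₀ ≠ p` (`η > 0`), so
`h τ₀ < h p` by `h_lt_P`, and `θ = h τ₀ / h p < 1`.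
-/

namespace Pool.Agent.H19.UC

variable {T : Type} [Fintype T] (D : Dat T)

theorem Dat.Fo_subset : D.Fo ⊆ D.F := fun τ hτ =>
  ⟨fun z => ⟨le_of_lt (hτ.1 z).1, le_of_lt (hτ.1 z).2⟩, fun s t h => le_of_lt (hτ.2 s t h)⟩

private theorem uc_isCompact : IsCompact (D.F ∩ {τ | ∃ z, D.eta ≤ |τ z - D.pt z|}) := by
  have h1 : IsCompact (Set.univ.pi fun z => Set.Icc (D.p z : ℝ) (D.up z : ℝ)) :=
    isCompact_univ_pi fun z => isCompact_Icc
  refine h1.of_isClosed_subset ?_ ?_
  · refine IsClosed.inter ?_ ?_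
    · have e : D.F = (⋂ z, {τ | (D.p z : ℝ) ≤ τ z ∧ τ z ≤ (D.up z : ℝ)}) ∩
          ⋂ s, ⋂ t, ⋂ _ : D.R s t, {τ : T → ℝ | τ s ≤ τ t} := by
        ext τ
        simp only [Dat.F, Set.mem_setOf_eq, Set.mem_inter_iff, Set.mem_iInter]
      rw [e]
      refine IsClosed.inter (isClosed_iInter fun z => ?_) (isClosed_iInter fun s =>
        isClosed_iInter fun t => isClosed_iInter fun _ =>
          isClosed_le (continuous_apply s) (continuous_apply t))
      exact (isClosed_le continuous_const (continuous_apply z)).inter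
        (isClosed_le (continuous_apply z) continuous_const)
    · have e : {τ : T → ℝ | ∃ z, D.eta ≤ |τ z - D.pt z|} =
          ⋃ z, {τ : T → ℝ | D.eta ≤ |τ z - D.pt z|} := by
        ext τ
        simp only [Set.mem_setOf_eq, Set.mem_iUnion]
      rw [e]
      refine isClosed_iUnion_of_finite fun z => ?_
      exact isClosed_le continuous_const
        (((continuous_apply z).sub continuous_const).abs)
  · intro τ hτ z _
    exact hτ.1.1 z

theorem Dat.exists_theta :
    ∃ θ : ℝ, θ < 1 ∧ ∀ τ ∈ D.Fo, τ ∉ cellR D.b → D.h τ ≤ θ * D.h D.pt := by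
  have key : ∀ τ ∈ D.Fo, τ ∉ cellR D.b → τ ∈ D.F ∩ {τ | ∃ z, D.eta ≤ |τ z - D.pt z|} := by
    intro τ hτ hb
    refine ⟨D.Fo_subset hτ, ?_⟩
    by_contra hc
    exact hb (D.near_P hτ fun z => lt_of_not_ge fun h => hc ⟨z, h⟩)
  rcases Set.eq_empty_or_nonempty (D.F ∩ {τ | ∃ z, D.eta ≤ |τ z - D.pt z|}) with he | hne
  · refine ⟨1 / 2, by norm_num, fun τ hτ hb => ?_⟩
    have h := key τ hτ hb
    rw [he] at h
    exact h.elim
  · obtain ⟨τ₀, hτ₀, hmax⟩ := (uc_isCompact D).exists_isMaxOn hne D.continuous_h.continuousOn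
    have hpos := D.h_P_pos
    have hlt : D.h τ₀ < D.h D.pt := by
      refine D.h_lt_P hτ₀.1 fun h => ?_
      obtain ⟨z, hz⟩ := hτ₀.2
      rw [h, sub_self, abs_zero] at hz
      exact absurd D.eta_pos (not_lt.2 hz)
    refine ⟨D.h τ₀ / D.h D.pt, (div_lt_one hpos).2 hlt, fun τ hτ hb => ?_⟩
    rw [div_mul_cancel₀ _ hpos.ne']
    exact hmax (key τ hτ hb)

end Pool.Agent.H19.UC
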