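import Pool.Agent.H19.UC.Peak
import Pool.Agent.H19.UC.Lapl
import Pool.Agent.H19.UC.Theta
import Pool.Agent.H19.UC.OptQ
import Pool.Agent.H19.UC.NearQ
import Pool.Agent.H19.UC.Fac

/-!
# The volume inequality fails for the design

PROOF. Apply `laplace` on `Ω = T → ℝ` with `μ = volume.restrict Fo` (finite, `Fo` is bounded),
`h := wt wLo wUp wm` (continuous, between `0` and `1`; on `Fo ⊆ cube` it is `D.h` by `wt_eq`),
`A = half x y`, `A' = half y x`, `b = cellR b`, `c = cellR c`, `S = h p`, `S' = h q`: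
`h1` from `exists_theta` (the statements for all `ω` are needed only on `Fo`: use
`A := half x y ∩ Fo` etc., the integrals over `A` and `A ∩ Fo` agree), `h2` from `pos_P`, `h3` from `h_le_Q`, `h4`
from `pos_Q`. The resulting `M` contradicts `VolIneq` for `lo = p`, `up = up`, `R = D.R`,
`m w = M * wm w`: `wt .. (M * wm) τ = (wt .. wm τ) ^ M`, and `II .. S = ∫ τ in S, .. ∂(volume.restrict Fo)`
(`Measure.restrict_restrict`).
-/

open MeasureTheory

namespace Pool.Agent.H19.UC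

variable {T : Type} [Fintype T] (D : Dat T)

private theorem uc_Fo_cube : D.Fo ⊆ cube T := by
  intro τ hτ z
  have h := hτ.1 z
  have h1 : (0 : ℝ) < (D.p z : ℝ) := by exact_mod_cast D.p_pos z
  have h2 : (D.up z : ℝ) < 1 := by exact_mod_cast D.up_lt_one z
  exact ⟨h1.trans h.1, h.2.trans h2⟩

private theorem uc_vol_Fo : volume D.Fo < ⊤ := by
  have h : D.Fo ⊆ Set.univ.pi (fun _ : T => Set.Ioo (0 : ℝ) 1) := by
    intro τ hτ z _
    exact uc_Fo_cube D hτ z
  refine (measure_mono h).trans_lt ?_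
  rw [Real.volume_pi_Ioo]
  exact ENNReal.prod_lt_top fun _ _ => ENNReal.ofReal_lt_top

private theorem uc_half_meas {x y : T} : MeasurableSet (half x y) :=
  (isOpen_lt (continuous_apply x) (continuous_apply y)).measurableSet

private theorem uc_int (S : Set (T → ℝ)) (hS : MeasurableSet S) (M : ℕ) :
    ∫ ω in S ∩ D.Fo, wt D.wLo D.wUp D.wm ω ^ M ∂(volume.restrict D.Fo)
      = II (fun z => (D.p z : ℝ)) (fun z => (D.up z : ℝ)) D.R D.wLo D.wUp
        (fun w => M * D.wm w) S := by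
  have hF : MeasurableSet D.Fo := D.isOpen_Fo.measurableSet
  rw [Measure.restrict_restrict (hS.inter hF)]
  have e : S ∩ D.Fo ∩ D.Fo =
      boxR (fun z => (D.p z : ℝ)) (fun z => (D.up z : ℝ)) ∩ cellR D.R ∩ S := by
    rw [Set.inter_assoc, Set.inter_self, Set.inter_comm]
    rfl
  rw [e]
  unfold II
  refine integral_congr_ae (Filter.Eventually.of_forall fun τ => ?_)
  simp only [wt]
  rw [← Finset.prod_pow]
  refine Finset.prod_congr rfl fun w _ => ?_
  rw [← pow_mul, mul_comm]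

theorem Dat.core : ¬ VolIneq D.x D.y D.b D.c := by
  intro hV
  have hF : MeasurableSet D.Fo := D.isOpen_Fo.measurableSet
  have hfin : IsFiniteMeasure (volume.restrict D.Fo) :=
    ⟨by rw [Measure.restrict_apply_univ]; exact uc_vol_Fo D⟩
  have hcont := continuous_wt D.wLo D.wUp D.wm
  have hm : Measurable (wt D.wLo D.wUp D.wm) := hcont.measurable
  have h0 : ∀ ω, 0 ≤ wt D.wLo D.wUp D.wm ω := fun ω =>
    Finset.prod_nonneg fun w _ => pow_nonneg (len_nonneg _ _ _) _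
  have hK : ∀ ω, wt D.wLo D.wUp D.wm ω ≤ 1 := fun ω =>
    Finset.prod_le_one (fun w _ => pow_nonneg (len_nonneg _ _ _) _)
      fun w _ => pow_le_one₀ (len_nonneg _ _ _) (len_le_one _ _ _)
  have heq : ∀ ω ∈ D.Fo, wt D.wLo D.wUp D.wm ω = D.h ω := fun ω hω =>
    D.wt_eq (uc_Fo_cube D hω)
  have hb : MeasurableSet (cellR D.b) := (isOpen_cellR D.b).measurableSet
  have hc : MeasurableSet (cellR D.c) := (isOpen_cellR D.c).measurableSet
  have hA : MeasurableSet (half D.x D.y) := uc_half_meas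
  have hA' : MeasurableSet (half D.y D.x) := uc_half_meas
  obtain ⟨θ, hθ, hθ'⟩ := D.exists_theta
  have hset : ∀ s : ℝ, MeasurableSet {ω | s < wt D.wLo D.wUp D.wm ω} := fun s =>
    (isOpen_lt continuous_const hcont).measurableSet
  obtain ⟨M, hM⟩ := laplace (volume.restrict D.Fo) (wt D.wLo D.wUp D.wm) hm h0 1 hK
    (half D.x D.y ∩ D.Fo) (half D.y D.x ∩ D.Fo) (cellR D.b ∩ D.Fo) (cellR D.c ∩ D.Fo)
    (hA.inter hF) (hA'.inter hF) (hb.inter hF) (hc.inter hF)
    (fun τ hτ => ⟨hτ.1 _ _ D.bxy, hτ.2⟩) (D.h D.pt) (D.h D.qt) θ D.h_P_pos D.h_Q_pos hθ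
    (fun ω hω => by
      rw [heq ω hω.1.2]
      exact hθ' ω hω.1.2 fun hb => hω.2 ⟨hb, hω.1.2⟩)
    (fun δ hδ => by
      rw [Measure.restrict_apply ((hA.inter hF).inter (hset _))]
      refine (D.pos_P D.h_P_pos δ hδ).trans_le (measure_mono fun τ hτ => ?_)
      have h1 : τ ∈ D.Fo := hτ.1.1
      have h2 : τ ∈ cellR D.b := hτ.1.2
      have h3 : (1 - δ) * D.h D.pt < D.h τ := hτ.2
      refine ⟨⟨⟨h2 _ _ D.bxy, h1⟩, ?_⟩, h1⟩
      change (1 - δ) * D.h D.pt < wt D.wLo D.wUp D.wm τ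
      rw [heq τ h1]
      exact h3)
    (fun ω hω => by
      rw [heq ω hω.2]
      exact D.h_le_Q (D.Fo_subset hω.2) (le_of_lt hω.1))
    (fun δ hδ => by
      rw [Measure.restrict_apply ((hc.inter hF).inter (hset _))]
      refine (D.pos_Q D.h_Q_pos δ hδ).trans_le (measure_mono fun τ hτ => ?_)
      have h1 : τ ∈ D.Fo := hτ.1.1
      have h2 : τ ∈ cellR D.c := hτ.1.2
      have h3 : (1 - δ) * D.h D.qt < D.h τ := hτ.2
      refine ⟨⟨⟨h2, h1⟩, ?_⟩, h1⟩
      change (1 - δ) * D.h D.qt < wt D.wLo D.wUp D.wm τ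
      rw [heq τ h1]
      exact h3)
  rw [uc_int D _ hA, uc_int D _ hA', uc_int D _ hb, uc_int D _ hc] at hM
  have h := hV D.p D.up D.p_pos (fun z => (D.p_lt_up z).trans (D.up_lt_one z))
    (fun z => (D.p_pos z).trans (D.p_lt_up z)) D.up_lt_one D.R (T × Fin 3) D.wLo D.wUp
    (fun w => M * D.wm w)
  linarith

end Pool.Agent.H19.UC
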