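import Pool.Agent.H19.UC.Defs

/-!
# The design of the posets

Data: two orderings `b` (with `x < y`) and `c` (with `y < x`) of `T` without a reversed triple and
without `P1`. Positions in `b` (below `x`, between, above `y`) and in `c` (below `y`, between,
above `x`) give the classes

* `X`, `Y`: the elements `x`, `y`;
* `LL`: below `x` in `b`, below `y` in `c`;
* `LM`: below `x` in `b`, between in `c`;
* `HC`: above `x` in `c` (then between or above `y` in `b`);
* `MM`: between in `b`, below `y` or between in `c`;
* `HM`: above `y` in `b`, between in `c`.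

With `n = card T`, `N = 16 n`, `ε = 1 / N` the point `p` is the configuration `b`, the point `q` the
collapsed configuration `c`.
-/

open MeasureTheory

namespace Pool.Agent.H19.UC

open Pool.Agent.H45.Corr

/-- The data. -/
structure Dat (T : Type) where
  x : T
  y : T
  b : T → T → Prop
  c : T → T → Prop
  sb : IsStrictTotalOrder T b
  sc : IsStrictTotalOrder T c
  bxy : b x y
  cyx : c y x
  nRT : ¬ RT x y b c
  nP1 : ¬ P1 x y b c

/-- The classes. -/
inductive Cls
  | X | Y | LL | LM | HC | MM | HM
  deriving DecidableEq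

variable {T : Type}

open Classical in
/-- The class of an element. -/
noncomputable def Dat.cls (D : Dat T) (z : T) : Cls :=
  if z = D.x then .X else if z = D.y then .Y
  else if D.b z D.x then (if D.c z D.y then .LL else .LM)
  else if D.c D.x z then .HC
  else if D.b z D.y then .MM else .HM

variable [Fintype T]

/-- The rank of `z` in `b`. -/
noncomputable def Dat.rb (D : Dat T) (z : T) : ℕ := {u | D.b u z}.ncard

/-- The rank of `z` in `c`. -/
noncomputable def Dat.rc (D : Dat T) (z : T) : ℕ := {u | D.c u z}.ncard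

/-- `N = 16 n`. -/
def Dat.N (_D : Dat T) : ℕ := 16 * Fintype.card T

open Classical in
/-- The lower bounds, which are also the coordinates of the configuration `b`. -/
noncomputable def Dat.p (D : Dat T) (z : T) : ℚ :=
  match D.cls z with
  | .X => 1 / 4
  | .Y => 1 / 2
  | .LL => 1 / 4 - ((D.rb D.x : ℚ) - D.rb z) / D.N
  | .LM => 1 / 4
  | .HC => if D.b z D.y then 1 / 4 + ((D.rb z : ℚ) - D.rb D.x) / D.N
      else 1 / 2 + (D.rb z : ℚ) / (2 * Fintype.card T * D.N)
  | .MM => 1 / 4 + ((D.rb z : ℚ) - D.rb D.x) / D.N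
  | .HM => 1 / 2

open Classical in
/-- The upper bounds. -/
noncomputable def Dat.up (D : Dat T) (z : T) : ℚ :=
  if D.c z D.y then 3 / 8 else if D.c D.x z then 1 / 2 + 1 / (2 * D.N) else 3 / 4

open Classical in
/-- The coordinates of the collapsed configuration. -/
noncomputable def Dat.q (D : Dat T) (z : T) : ℚ :=
  if D.c z D.y then 3 / 8 else if D.c D.x z then 1 / 2 + 1 / (2 * D.N) else 1 / 2

/-- The relations between elements of `T`: the chain of the `LM` elements ending in `x` and the chain
of the `HM` elements starting in `y`, both in the order of `b`. -/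
def Dat.R (D : Dat T) (s t : T) : Prop :=
  D.b s t ∧ ((D.cls s = .LM ∧ (t = D.x ∨ D.cls t = .LM)) ∨
    (D.cls t = .HM ∧ (s = D.y ∨ D.cls s = .HM)))

/-- The factor of an element of class `k` at `ζ` when `x` is at `ξ`. -/
noncomputable def fac (N : ℕ) (k : Cls) (ξ ζ : ℝ) : ℝ :=
  match k with
  | .X => 1
  | .Y => 1 - ζ
  | .LL => ζ ^ 3 * max (ξ - ζ) 0
  | .LM => ζ
  | .HC => max (ζ - ξ) 0 * (1 - ζ) ^ (N - 1)
  | .MM => ζ * (1 - max ξ ζ) ^ 4
  | .HM => 1 - ζ

/-- The factor with the additional power of `1 - ξ`. -/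
noncomputable def gac (N : ℕ) (k : Cls) (ξ ζ : ℝ) : ℝ := (1 - ξ) ^ N * fac N k ξ ζ

/-- The weight function. -/
noncomputable def Dat.h (D : Dat T) (τ : T → ℝ) : ℝ := ∏ z, gac D.N (D.cls z) (τ D.x) (τ z)

/-- The closed domain. -/
def Dat.F (D : Dat T) : Set (T → ℝ) :=
  {τ | (∀ z, (D.p z : ℝ) ≤ τ z ∧ τ z ≤ (D.up z : ℝ)) ∧ ∀ s t, D.R s t → τ s ≤ τ t}

/-- The open domain. -/
noncomputable def Dat.Fo (D : Dat T) : Set (T → ℝ) :=
  boxR (fun z => (D.p z : ℝ)) (fun z => (D.up z : ℝ)) ∩ cellR D.R

/-- The configuration `b`. -/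
noncomputable def Dat.pt (D : Dat T) : T → ℝ := fun z => (D.p z : ℝ)

/-- The collapsed configuration. -/
noncomputable def Dat.qt (D : Dat T) : T → ℝ := fun z => (D.q z : ℝ)

/-- The width of the gaps in the configuration `b`. -/
noncomputable def Dat.eta (D : Dat T) : ℝ := 1 / (4 * Fintype.card T * D.N)

/-! The weights as elements of the poset: three for every element of `T`. -/

/-- The elements of `T` below the weight `(z, i)`. -/
def Dat.wLo (D : Dat T) : T × Fin 3 → T → Prop := fun w u =>
  match w.2 with
  | 0 => match D.cls w.1 with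
    | .Y => u = w.1
    | .HC => u = D.x
    | .HM => u = w.1
    | _ => False
  | 1 => match D.cls w.1 with
    | .LL => u = w.1
    | .HC => u = w.1
    | .MM => u = D.x ∨ u = w.1
    | _ => False
  | 2 => u = D.x

/-- The elements of `T` above the weight `(z, i)`. -/
def Dat.wUp (D : Dat T) : T × Fin 3 → T → Prop := fun w u =>
  match w.2 with
  | 0 => match D.cls w.1 with
    | .LL => u = w.1
    | .LM => u = w.1
    | .HC => u = w.1
    | .MM => u = w.1
    | _ => False
  | 1 => match D.cls w.1 with
    | .LL => u = D.x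
    | _ => False
  | 2 => False

/-- The multiplicities of the weights. -/
noncomputable def Dat.wm (D : Dat T) : T × Fin 3 → ℕ := fun w =>
  match w.2 with
  | 0 => match D.cls w.1 with
    | .X => 0
    | .LL => 3
    | _ => 1
  | 1 => match D.cls w.1 with
    | .LL => 1
    | .HC => D.N - 1
    | .MM => 4
    | _ => 0
  | 2 => D.N

end Pool.Agent.H19.UC
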