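import Mathlib
import Pool.Agent.H45.Corr.Defs

/-!
# Universal correlation with a simple relation: definitions for the necessity part (MP_f51d55_co)

`b` is an ordering with `x < y`, `c` an ordering with `y < x`.
-/

open MeasureTheory

namespace Pool.Agent.H19.UC

open Pool.Agent.H45.Corr

/-- A reversed triple: `z < x` in `b` and `x < z` in `c`, or `y < z` in `b` and `z < y` in `c`. -/
def RT {T : Type} (x y : T) (b c : T → T → Prop) : Prop :=
  ∃ z, (c x z ∧ b z x) ∨ (c z y ∧ b y z)

/-- An element `z` which `c` puts between `y` and `x`, and an element `u` with `y < u < z` in `b`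
and `z < u` in `c`, or with `z < u < x` in `b` and `u < z` in `c`. -/
def P1 {T : Type} (x y : T) (b c : T → T → Prop) : Prop :=
  ∃ z u, c y z ∧ c z x ∧ ((b y u ∧ b u z ∧ c z u) ∨ (b z u ∧ b u x ∧ c u z))

/-- The same with the roles of `(b, x, y)` and `(c, y, x)` exchanged. -/
def P2 {T : Type} (x y : T) (b c : T → T → Prop) : Prop := P1 y x c b

/-- The open cell of a relation: all `τ` which are strictly increasing along it. -/
def cellR {T : Type} (r : T → T → Prop) : Set (T → ℝ) := {τ | ∀ s t, r s t → τ s < τ t}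

/-- An open box. -/
def boxR {T : Type} (lo up : T → ℝ) : Set (T → ℝ) := {τ | ∀ z, lo z < τ z ∧ τ z < up z}

/-- The open unit cube. -/
def cube (T : Type) : Set (T → ℝ) := boxR (fun _ => 0) (fun _ => 1)

/-- The length of the set of all `ω` in the unit interval above all `τ i` with `Lo i` and below
all `τ i` with `Up i`. -/
noncomputable def len {T : Type} (Lo Up : T → Prop) (τ : T → ℝ) : ℝ :=
  (volume {ω : ℝ | 0 < ω ∧ ω < 1 ∧ (∀ i, Lo i → τ i < ω) ∧ ∀ i, Up i → ω < τ i}).toReal

/-- The weight of a configuration of `T`: a product of powers of lengths. -/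
noncomputable def wt {T W : Type} [Fintype W] (Lo Up : W → T → Prop) (m : W → ℕ) (τ : T → ℝ) : ℝ :=
  ∏ w, len (Lo w) (Up w) τ ^ m w

/-- The weight of a set `S` of configurations inside a box and along a relation `R`. -/
noncomputable def II {T W : Type} [Fintype T] [Fintype W] (lo up : T → ℝ) (R : T → T → Prop)
    (Lo Up : W → T → Prop) (m : W → ℕ) (S : Set (T → ℝ)) : ℝ :=
  ∫ τ in boxR lo up ∩ cellR R ∩ S, wt Lo Up m τ

/-- The configurations with `τ x < τ y`. -/
def half {T : Type} (x y : T) : Set (T → ℝ) := {τ | τ x < τ y}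

/-- All weighted inequalities which universal correlation of `x < y` with `V` implies for a pair
`b ∉ V`, `c ∈ V`. -/
def VolIneq {T : Type} [Fintype T] (x y : T) (b c : T → T → Prop) : Prop :=
  ∀ (lo up : T → ℚ), (∀ z, 0 < lo z) → (∀ z, lo z < 1) → (∀ z, 0 < up z) → (∀ z, up z < 1) →
    ∀ (R : T → T → Prop) (W : Type) [Fintype W] (Lo Up : W → T → Prop) (m : W → ℕ),
      II (fun z => (lo z : ℝ)) (fun z => (up z : ℝ)) R Lo Up m (cellR b)
          * II (fun z => (lo z : ℝ)) (fun z => (up z : ℝ)) R Lo Up m (half y x)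
        + II (fun z => (lo z : ℝ)) (fun z => (up z : ℝ)) R Lo Up m (cellR c)
          * II (fun z => (lo z : ℝ)) (fun z => (up z : ℝ)) R Lo Up m (half x y)
      ≤ II (fun z => (lo z : ℝ)) (fun z => (up z : ℝ)) R Lo Up m (half x y)
          * II (fun z => (lo z : ℝ)) (fun z => (up z : ℝ)) R Lo Up m (half y x)

end Pool.Agent.H19.UC
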