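import Pool.Agent.H19.UC.Defs

/-!
# From posets to arbitrary generating relations

PROOF. `ext_gen`: if no linear ordering contains `G` all numbers are zero. Otherwise let `L₀`
contain `G`; let `a ≤ b` be the reflexive transitive closure `Relation.ReflTransGen G a b`. It is
antisymmetric since `a ≠ b`, `a ≤ b` imply `L₀ a b` (induction, `L₀` is transitive and
irreflexive). So it is a `PartialOrder`, and a linear ordering `L` is a linear extension of it iff
`G a b → L a b` for all `a b` (`→`: `G a b` implies `a ≤ b`, and `a ≠ b` as `L₀ a b`; `←`: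
induction along the closure). Apply `UnivCorr` to this poset: with
`N W = {L | G ⊆ L, L.restrict ι ∈ W}.ncard` it reads `N (U ∩ V) / N univ ≥ (N U / N univ) * (N V / N univ)`,
i.e. `N U * N V ≤ N (U ∩ V) * N univ`.

`count_ineq`: let `U = {L | L x y}`. `N` is finitely additive, the complement of `U` is `{L | L y x}`
(trichotomy, `x ≠ y`). With `B = U \ V ∋ b`, `C = V \ U ∋ c`:
`N V = N (U ∩ V) + N C`, `N (U ∩ V) = N U - N B`, `N univ = N U + N Uᶜ`, so `ext_gen` gives
`N B * N Uᶜ + N C * N U ≤ N U * N Uᶜ`, and `N {b} ≤ N B`, `N {c} ≤ N C`.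
-/

namespace Pool.Agent.H19.UC

open Pool.Agent.H45.Corr

/-- The linear orderings of `X` which contain the relation `G` and restrict to an element of
`W`. -/
def gExt {T X : Type} (ι : T ↪ X) (G : X → X → Prop) (W : Set (LinOrd T)) : Set (LinOrd X) :=
  {L | (∀ a b, G a b → L.1 a b) ∧ L.restrict ι ∈ W}

private lemma Gen_fin (X : Type) [Finite X] (S : Set (LinOrd X)) : S.Finite := by
  have : Finite (LinOrd X) :=
    inferInstanceAs (Finite {r : X → X → Prop // IsStrictTotalOrder X r})
  exact S.toFinite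

private lemma Gen_mono {T X : Type} [Finite X] (ι : T ↪ X) (G : X → X → Prop)
    {U V : Set (LinOrd T)} (h : U ⊆ V) : (gExt ι G U).ncard ≤ (gExt ι G V).ncard :=
  Set.ncard_le_ncard (fun _ hL => ⟨hL.1, h hL.2⟩) (Gen_fin X _)

private lemma Gen_add {T X : Type} [Finite X] (ι : T ↪ X) (G : X → X → Prop)
    {U V W : Set (LinOrd T)} (h : W = U ∪ V) (hd : Disjoint U V) :
    (gExt ι G W).ncard = (gExt ι G U).ncard + (gExt ι G V).ncard := by
  rw [← Set.ncard_union_eq _ (Gen_fin X _) (Gen_fin X _)]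
  · congr 1
    ext L
    rw [h]
    constructor
    · rintro ⟨h1, h2 | h2⟩
      · exact Or.inl ⟨h1, h2⟩
      · exact Or.inr ⟨h1, h2⟩
    · rintro (⟨h1, h2⟩ | ⟨h1, h2⟩)
      · exact ⟨h1, Or.inl h2⟩
      · exact ⟨h1, Or.inr h2⟩
  · rw [Set.disjoint_left]
    intro L h1 h2
    exact Set.disjoint_left.1 hd h1.2 h2.2

private lemma Gen_trans {X : Type} (L : LinOrd X) {a b c : X} (h1 : L.1 a b) (h2 : L.1 b c) :
    L.1 a c := L.2.trans a b c h1 h2

private lemma Gen_irrefl {X : Type} (L : LinOrd X) (a : X) : ¬ L.1 a a := L.2.irrefl a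

private lemma Gen_closure {X : Type} {G : X → X → Prop} (L : LinOrd X)
    (hL : ∀ a b, G a b → L.1 a b) {a b : X} (h : Relation.ReflTransGen G a b) :
    a = b ∨ L.1 a b := by
  induction h with
  | refl => exact Or.inl rfl
  | tail _ h2 ih =>
    rcases ih with rfl | h3
    · exact Or.inr (hL _ _ h2)
    · exact Or.inr (Gen_trans L h3 (hL _ _ h2))

theorem ext_gen {T X : Type} [Finite X] (ι : T ↪ X) (G : X → X → Prop) {U V : Set (LinOrd T)}
    (h : UnivCorr U V) :
    (gExt ι G U).ncard * (gExt ι G V).ncard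
      ≤ (gExt ι G (U ∩ V)).ncard * (gExt ι G Set.univ).ncard := by
  rcases Set.eq_empty_or_nonempty (gExt ι G Set.univ) with he | ⟨L₀, hL₀, -⟩
  · have h1 : (gExt ι G U).ncard = 0 := by
      have h2 := Gen_mono ι G (Set.subset_univ U)
      rw [he, Set.ncard_empty] at h2
      omega
    rw [h1, zero_mul]
    exact Nat.zero_le _
  let _ : PartialOrder X :=
    { le := Relation.ReflTransGen G
      le_refl := fun _ => Relation.ReflTransGen.refl
      le_trans := fun _ _ _ h1 h2 => h1.trans h2
      le_antisymm := fun a b h1 h2 => by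
        rcases Gen_closure L₀ hL₀ h1 with h3 | h3
        · exact h3
        · rcases Gen_closure L₀ hL₀ h2 with h4 | h4
          · exact h4.symm
          · exact absurd (Gen_trans L₀ h3 h4) (Gen_irrefl L₀ a) }
  have hlin : ∀ L : LinOrd X, L ∈ linExts X ↔ ∀ a b, G a b → L.1 a b := by
    intro L
    constructor
    · intro hL a b hab
      refine hL a b (lt_of_le_of_ne (Relation.ReflTransGen.single hab) ?_)
      rintro rfl
      exact Gen_irrefl L₀ a (hL₀ a a hab)
    · intro hL a b hab
      rcases Gen_closure L hL (le_of_lt hab : Relation.ReflTransGen G a b) with h1 | h1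
      · exact absurd h1 hab.ne
      · exact h1
  have hnum : ∀ W : Set (LinOrd T), numExts X ι W = (gExt ι G W).ncard := by
    intro W
    unfold numExts gExt
    congr 1
    ext L
    rw [Set.mem_setOf_eq, Set.mem_setOf_eq, hlin]
  have hden : (linExts X).ncard = (gExt ι G Set.univ).ncard := by
    congr 1
    ext L
    rw [hlin]
    exact ⟨fun h => ⟨h, Set.mem_univ _⟩, fun h => h.1⟩
  have hpos : 0 < (gExt ι G Set.univ).ncard :=
    (Set.ncard_pos (Gen_fin X _)).2 ⟨L₀, hL₀, Set.mem_univ _⟩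
  have h1 := h X ι
  unfold prExt at h1
  rw [hnum, hnum, hnum, hden, ge_iff_le, div_mul_div_comm] at h1
  have hpos' : (0 : ℚ) < ((gExt ι G Set.univ).ncard : ℚ) := by exact_mod_cast hpos
  rw [div_le_div_iff₀ (mul_pos hpos' hpos') hpos', ← mul_assoc] at h1
  have h2 := le_of_mul_le_mul_right h1 hpos'
  exact_mod_cast h2

theorem count_ineq {T X : Type} [Finite X] (ι : T ↪ X) (G : X → X → Prop) {x y : T} (hxy : x ≠ y)
    {V : Set (LinOrd T)} (h : UnivCorr {L | L.1 x y} V) {b c : LinOrd T}
    (hb : b.1 x y) (hbV : b ∉ V) (hc : c.1 y x) (hcV : c ∈ V) :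
    (gExt ι G {b}).ncard * (gExt ι G {L | L.1 y x}).ncard
        + (gExt ι G {c}).ncard * (gExt ι G {L | L.1 x y}).ncard
      ≤ (gExt ι G {L | L.1 x y}).ncard * (gExt ι G {L | L.1 y x}).ncard := by
  have h0 := ext_gen ι G h
  have htri : ∀ L : LinOrd T, L.1 x y ∨ L.1 y x := by
    intro L
    by_contra hcon
    push Not at hcon
    exact hxy (L.2.trichotomous x y hcon.1 hcon.2)
  have hasym : ∀ L : LinOrd T, L.1 x y → ¬ L.1 y x := fun L h1 h2 =>
    Gen_irrefl L x (Gen_trans L h1 h2)
  have a1 : (gExt ι G Set.univ).ncard =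
      (gExt ι G {L | L.1 x y}).ncard + (gExt ι G {L | L.1 y x}).ncard := by
    refine Gen_add ι G ?_ ?_
    · ext L
      exact ⟨fun _ => htri L, fun _ => Set.mem_univ _⟩
    · rw [Set.disjoint_left]
      exact fun L h1 h2 => hasym L h1 h2
  have a2 : (gExt ι G {L | L.1 x y}).ncard = (gExt ι G ({L | L.1 x y} ∩ V)).ncard +
      (gExt ι G ({L | L.1 x y} \ V)).ncard := by
    refine Gen_add ι G (Set.inter_union_diff _ _).symm ?_
    rw [Set.disjoint_left]
    exact fun L h1 h2 => h2.2 h1.2
  have a3 : (gExt ι G V).ncard = (gExt ι G ({L | L.1 x y} ∩ V)).ncard +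
      (gExt ι G (V \ {L | L.1 x y})).ncard := by
    refine Gen_add ι G ?_ ?_
    · rw [Set.inter_comm]
      exact (Set.inter_union_diff _ _).symm
    · rw [Set.disjoint_left]
      exact fun L h1 h2 => h2.2 h1.1
  have a4 : (gExt ι G {b}).ncard ≤ (gExt ι G ({L | L.1 x y} \ V)).ncard :=
    Gen_mono ι G (Set.singleton_subset_iff.2 ⟨hb, hbV⟩)
  have a5 : (gExt ι G {c}).ncard ≤ (gExt ι G (V \ {L | L.1 x y})).ncard :=
    Gen_mono ι G (Set.singleton_subset_iff.2 ⟨hcV, fun h1 => hasym c h1 hc⟩)
  generalize (gExt ι G Set.univ).ncard = tot at *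
  generalize (gExt ι G {L | L.1 x y}).ncard = u at *
  generalize (gExt ι G {L | L.1 y x}).ncard = w at *
  generalize (gExt ι G ({L | L.1 x y} ∩ V)).ncard = n at *
  generalize (gExt ι G ({L | L.1 x y} \ V)).ncard = B at *
  generalize (gExt ι G V).ncard = v at *
  generalize (gExt ι G (V \ {L | L.1 x y})).ncard = C at *
  generalize (gExt ι G {b}).ncard = β at *
  generalize (gExt ι G {c}).ncard = γ at *
  have e1 : C * u ≤ n * w := by
    have e2 : u * n + C * u ≤ n * u + n * w := by
      calc u * n + C * u = u * v := by rw [a3]; ring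
        _ ≤ n * tot := h0
        _ = n * u + n * w := by rw [a1]; ring
    have e3 : u * n = n * u := mul_comm _ _
    omega
  calc β * w + γ * u ≤ B * w + C * u :=
        Nat.add_le_add (Nat.mul_le_mul_right _ a4) (Nat.mul_le_mul_right _ a5)
    _ ≤ B * w + n * w := Nat.add_le_add_left e1 _
    _ = u * w := by rw [a2]; ring

end Pool.Agent.H19.UC
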