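import Pool.Agent.H19.UC.Sect

/-!
# The limit of the rulers

PROOF of `peak`. `c r = ∏ j, r j ^ A j * (1 - r j) ^ B j` is continuous, nonnegative on the closed
cube `s = Set.Icc 0 1` of `J → ℝ`, and `r0 j = A j / (A j + B j)` is its unique maximum there: for one
variable `r ^ a * (1 - r) ^ b < ρ ^ a * (1 - ρ) ^ b` for `r ∈ [0,1]`, `r ≠ ρ = a / (a + b)`, `a, b > 0`
(weighted AM-GM, or: `r ≤ ρ exp (r / ρ - 1)`, `1 - r ≤ (1 - ρ) exp ((1 - r) / (1 - ρ) - 1)`, the
exponents add up to `a (r / ρ - 1) + b ((1 - r) / (1 - ρ) - 1) = 0`, strict as `Real.add_one_lt_exp`);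
then take the product (`Finset.prod_lt_prod_of_nonempty`-like argument: all factors are `≤` and
nonnegative, one is `<`, the right ones positive). Now use
`tendsto_setIntegral_pow_smul_of_unique_maximum_of_isCompact_of_measure_nhdsWithin_pos`
(or the variant with `closure (interior s)`); the integrals over the open cube and over the closed
cube agree (the difference is a null set: `Measure.univ_pi_Ioo_ae_eq_Icc` or similar). `0 < ∫ c ^ N`
is `peak_pos`.

PROOF of `continuous_II`. Dominated convergence: `wt` is continuous, bounded by `1` in absolute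
value and nonnegative (`len_nonneg`, `len_le_one`); near a given `(lo₀, up₀)` all boxes are contained
in the bounded box `boxR (lo₀ - 1) (up₀ + 1)`, and the indicator of `boxR lo up` converges at all `τ`
with `τ z ≠ lo₀ z`, `τ z ≠ up₀ z` for all `z` (these exceptions form a null set).
-/

open MeasureTheory Filter Topology

namespace Pool.Agent.H19.UC

private theorem peak_cube_eq (J : Type) :
    cube J = Set.univ.pi fun _ : J => Set.Ioo (0 : ℝ) 1 := by
  ext r
  simp [cube, boxR, Set.mem_pi]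

private theorem peak_cube_open (J : Type) [Fintype J] : IsOpen (cube J) := by
  rw [peak_cube_eq]
  exact isOpen_set_pi Set.finite_univ fun _ _ => isOpen_Ioo

private theorem peak_cube_ae (J : Type) [Fintype J] :
    (cube J : Set (J → ℝ)) =ᵐ[volume] (Set.Icc (0 : J → ℝ) 1 : Set (J → ℝ)) := by
  rw [peak_cube_eq]
  exact Measure.univ_pi_Ioo_ae_eq_Icc (μ := fun _ : J => (volume : Measure ℝ)) (f := 0) (g := 1)

private theorem peak_cont {J : Type} [Fintype J] (A B : J → ℕ) :
    Continuous fun r : J → ℝ => ∏ j, r j ^ A j * (1 - r j) ^ B j := by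
  fun_prop

theorem peak_pos {J : Type} [Fintype J] (A B : J → ℕ) (N : ℕ) :
    0 < ∫ r in cube J, (∏ j, r j ^ A j * (1 - r j) ^ B j) ^ N := by
  have hp : ∀ r ∈ cube J, 0 < (∏ j, r j ^ A j * (1 - r j) ^ B j) ^ N := by
    intro r hr
    refine pow_pos (Finset.prod_pos fun j _ => ?_) N
    have h := hr j
    exact mul_pos (pow_pos h.1 _) (pow_pos (by linarith [h.2]) _)
  have hm : MeasurableSet (cube J) := (peak_cube_open J).measurableSet
  have hi : IntegrableOn (fun r : J → ℝ => (∏ j, r j ^ A j * (1 - r j) ^ B j) ^ N) (cube J)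
      volume := by
    have h1 : IntegrableOn (fun r : J → ℝ => (∏ j, r j ^ A j * (1 - r j) ^ B j) ^ N)
        (Set.Icc (0 : J → ℝ) 1) volume :=
      ((peak_cont A B).pow N).continuousOn.integrableOn_compact isCompact_Icc
    exact h1.congr_set_ae (peak_cube_ae J)
  rw [setIntegral_pos_iff_support_of_nonneg_ae ?_ hi]
  · have e : Function.support (fun r : J → ℝ => (∏ j, r j ^ A j * (1 - r j) ^ B j) ^ N) ∩ cube J =
        cube J := by
      refine Set.inter_eq_right.2 fun r hr => ?_
      exact (hp r hr).ne'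
    rw [e]
    refine (peak_cube_open J).measure_pos volume ⟨fun _ => 1 / 2, fun j => ?_⟩
    norm_num
  · exact (ae_restrict_iff' hm).2 (Eventually.of_forall fun r hr => (hp r hr).le)

private theorem peak_one {a b : ℕ} (ha : 0 < a) (hb : 0 < b) {r : ℝ} (h0 : 0 ≤ r) (h1 : r ≤ 1)
    (hr : r ≠ (a : ℝ) / (a + b)) :
    r ^ a * (1 - r) ^ b <
      ((a : ℝ) / (a + b)) ^ a * (1 - (a : ℝ) / (a + b)) ^ b := by
  have ha' : (0 : ℝ) < a := Nat.cast_pos.2 ha
  have hb' : (0 : ℝ) < b := Nat.cast_pos.2 hb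
  have hab : (0 : ℝ) < a + b := by linarith
  set ρ : ℝ := (a : ℝ) / (a + b) with hρ
  have hρ0 : 0 < ρ := div_pos ha' hab
  have hσ : 1 - ρ = (b : ℝ) / (a + b) := by
    rw [hρ]
    field_simp
    ring
  have hσ0 : 0 < 1 - ρ := by
    rw [hσ]
    exact div_pos hb' hab
  have e1 : r < ρ * Real.exp (r / ρ - 1) := by
    have h2 : r / ρ - 1 ≠ 0 := by
      intro h
      apply hr
      have h3 : r / ρ = 1 := by linarith
      exact (div_eq_one_iff_eq hρ0.ne').1 h3
    have h4 := Real.add_one_lt_exp h2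
    have h5 : ρ * (r / ρ - 1 + 1) < ρ * Real.exp (r / ρ - 1) := mul_lt_mul_of_pos_left h4 hρ0
    have h6 : ρ * (r / ρ - 1 + 1) = r := by
      field_simp
      ring
    linarith
  have e2 : 1 - r < (1 - ρ) * Real.exp ((1 - r) / (1 - ρ) - 1) := by
    have h2 : (1 - r) / (1 - ρ) - 1 ≠ 0 := by
      intro h
      apply hr
      have h3 : (1 - r) / (1 - ρ) = 1 := by linarith
      have := (div_eq_one_iff_eq hσ0.ne').1 h3
      linarith
    have h4 := Real.add_one_lt_exp h2
    have h5 : (1 - ρ) * ((1 - r) / (1 - ρ) - 1 + 1) < (1 - ρ) * Real.exp ((1 - r) / (1 - ρ) - 1) :=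
      mul_lt_mul_of_pos_left h4 hσ0
    have h6 : (1 - ρ) * ((1 - r) / (1 - ρ) - 1 + 1) = 1 - r := by
      rw [sub_add_cancel, mul_div_cancel₀ _ hσ0.ne']
    linarith
  have e3 : r ^ a < (ρ * Real.exp (r / ρ - 1)) ^ a := pow_lt_pow_left₀ e1 h0 ha.ne'
  have e4 : (1 - r) ^ b < ((1 - ρ) * Real.exp ((1 - r) / (1 - ρ) - 1)) ^ b :=
    pow_lt_pow_left₀ e2 (by linarith) hb.ne'
  refine (mul_lt_mul'' e3 e4 (pow_nonneg h0 _) (pow_nonneg (by linarith) _)).trans_eq ?_
  rw [mul_pow, mul_pow, ← Real.exp_nat_mul, ← Real.exp_nat_mul]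
  have e5 : (a : ℝ) * (r / ρ - 1) + b * ((1 - r) / (1 - ρ) - 1) = 0 := by
    rw [hσ, hρ]
    field_simp
    ring
  calc ρ ^ a * Real.exp (a * (r / ρ - 1)) * ((1 - ρ) ^ b * Real.exp (b * ((1 - r) / (1 - ρ) - 1)))
      = ρ ^ a * (1 - ρ) ^ b * (Real.exp (a * (r / ρ - 1)) *
        Real.exp (b * ((1 - r) / (1 - ρ) - 1))) := by ring
    _ = ρ ^ a * (1 - ρ) ^ b := by rw [← Real.exp_add, e5, Real.exp_zero, mul_one]

theorem peak {J : Type} [Fintype J] (A B : J → ℕ) (hA : ∀ j, 0 < A j) (hB : ∀ j, 0 < B j)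
    (g : (J → ℝ) → ℝ) (hg : Continuous g) (r0 : J → ℝ)
    (hr0 : ∀ j, r0 j = (A j : ℝ) / (A j + B j)) :
    Tendsto (fun N : ℕ => (∫ r in cube J, (∏ j, r j ^ A j * (1 - r j) ^ B j) ^ N)⁻¹
        * ∫ r in cube J, (∏ j, r j ^ A j * (1 - r j) ^ B j) ^ N * g r) atTop (𝓝 (g r0)) := by
  have h01 : ∀ j, 0 < r0 j ∧ r0 j < 1 := by
    intro j
    have ha' : (0 : ℝ) < A j := Nat.cast_pos.2 (hA j)
    have hb' : (0 : ℝ) < B j := Nat.cast_pos.2 (hB j)
    rw [hr0 j]
    exact ⟨by positivity, by rw [div_lt_one (by linarith)]; linarith⟩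
  have hr0c : r0 ∈ cube J := fun j => h01 j
  have hr0s : r0 ∈ Set.Icc (0 : J → ℝ) 1 :=
    ⟨fun j => (h01 j).1.le, fun j => (h01 j).2.le⟩
  have hsub : cube J ⊆ Set.Icc (0 : J → ℝ) 1 :=
    fun r hr => ⟨fun j => (hr j).1.le, fun j => (hr j).2.le⟩
  have hpos0 : ∀ j, 0 < r0 j ^ A j * (1 - r0 j) ^ B j := fun j =>
    mul_pos (pow_pos (h01 j).1 _) (pow_pos (by linarith [(h01 j).2]) _)
  have hnn : ∀ r ∈ Set.Icc (0 : J → ℝ) 1, ∀ j, 0 ≤ r j ^ A j * (1 - r j) ^ B j := by
    intro r hr j
    have h1 := hr.1 j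
    have h2 := hr.2 j
    simp only [Pi.zero_apply, Pi.one_apply] at h1 h2
    exact mul_nonneg (pow_nonneg h1 _) (pow_nonneg (by linarith) _)
  have key := tendsto_setIntegral_pow_smul_of_unique_maximum_of_isCompact_of_measure_nhdsWithin_pos
    (μ := (volume : Measure (J → ℝ))) (x₀ := r0) (s := Set.Icc (0 : J → ℝ) 1) (g := g)
    (c := fun r => ∏ j, r j ^ A j * (1 - r j) ^ B j) isCompact_Icc ?_ (peak_cont A B).continuousOn
    ?_ ?_ ?_ hr0s (hg.continuousOn.integrableOn_compact isCompact_Icc) hg.continuousWithinAt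
  · have e : ∀ f : (J → ℝ) → ℝ, ∫ r in cube J, f r = ∫ r in Set.Icc (0 : J → ℝ) 1, f r :=
      fun f => setIntegral_congr_set (peak_cube_ae J)
    simp only [e]
    exact key
  · intro u hu hxu
    have h1 : 0 < volume (u ∩ cube J) :=
      (hu.inter (peak_cube_open J)).measure_pos volume ⟨r0, hxu, hr0c⟩
    exact h1.trans_le (measure_mono (Set.inter_subset_inter_right u hsub))
  · intro y hy hyr
    have hp : 0 < ∏ j, r0 j ^ A j * (1 - r0 j) ^ B j := Finset.prod_pos fun j _ => hpos0 j
    have hy0 : ∀ j, 0 ≤ y j ∧ y j ≤ 1 := fun j => ⟨hy.1 j, hy.2 j⟩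
    have hlt : ∀ j, y j ≠ r0 j → y j ^ A j * (1 - y j) ^ B j < r0 j ^ A j * (1 - r0 j) ^ B j := by
      intro j hj
      rw [hr0 j] at hj ⊢
      exact peak_one (hA j) (hB j) (hy0 j).1 (hy0 j).2 hj
    by_cases hz : ∀ j, 0 < y j ^ A j * (1 - y j) ^ B j
    · obtain ⟨j, hj⟩ := Function.ne_iff.1 hyr
      refine Finset.prod_lt_prod (fun i _ => hz i) (fun i _ => ?_) ⟨j, Finset.mem_univ j, hlt j hj⟩
      by_cases hi : y i = r0 i
      · rw [hi]
      · exact (hlt i hi).le
    · push Not at hz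
      obtain ⟨j, hj⟩ := hz
      have h0 : y j ^ A j * (1 - y j) ^ B j = 0 := le_antisymm hj (hnn y hy j)
      have h1 : ∏ j, y j ^ A j * (1 - y j) ^ B j = 0 :=
        Finset.prod_eq_zero (Finset.mem_univ j) h0
      change ∏ j, y j ^ A j * (1 - y j) ^ B j < _
      rw [h1]
      exact hp
  · intro r hr
    exact Finset.prod_nonneg fun j _ => hnn r hr j
  · exact Finset.prod_pos fun j _ => hpos0 j

theorem continuous_wt {T W : Type} [Fintype T] [Fintype W] (Lo Up : W → T → Prop) (m : W → ℕ) :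
    Continuous (wt Lo Up m) :=
  continuous_finsetProd _ fun w _ => (continuous_len (Lo w) (Up w)).pow (m w)

theorem continuous_II {T W : Type} [Fintype T] [Fintype W] (R : T → T → Prop)
    (Lo Up : W → T → Prop) (m : W → ℕ) (S : Set (T → ℝ)) (hS : MeasurableSet S) :
    Continuous (fun p : (T → ℝ) × (T → ℝ) => II p.1 p.2 R Lo Up m S) := by
  classical
  have mbox : ∀ lo up : T → ℝ, MeasurableSet (boxR lo up) := by
    intro lo up
    have e : boxR lo up = Set.univ.pi fun z => Set.Ioo (lo z) (up z) := by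
      ext τ
      simp [boxR, Set.mem_pi]
    rw [e]
    exact MeasurableSet.univ_pi fun _ => measurableSet_Ioo
  have mcell : MeasurableSet (cellR R) := by
    have e : cellR R = ⋂ s, ⋂ t, {τ : T → ℝ | R s t → τ s < τ t} := by
      ext τ; simp [cellR]
    rw [e]
    refine MeasurableSet.iInter fun s => MeasurableSet.iInter fun t => ?_
    by_cases hg : R s t
    · simpa [hg] using measurableSet_lt (measurable_pi_apply s) (measurable_pi_apply t)
    · simp [hg]
  set h : (T → ℝ) → ℝ := (cellR R ∩ S).indicator (wt Lo Up m) with hh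
  have mh : Measurable h := (continuous_wt Lo Up m).measurable.indicator (mcell.inter hS)
  have bh : ∀ τ, |h τ| ≤ 1 := by
    intro τ
    rw [hh, Set.indicator_apply]
    split_ifs
    · unfold wt
      rw [Finset.abs_prod]
      refine Finset.prod_le_one (fun w _ => abs_nonneg _) fun w _ => ?_
      rw [abs_pow, abs_of_nonneg (len_nonneg _ _ _)]
      exact pow_le_one₀ (len_nonneg _ _ _) (len_le_one _ _ _)
    · simp
  have hII : (fun p : (T → ℝ) × (T → ℝ) => II p.1 p.2 R Lo Up m S) =
      fun p => ∫ τ, (boxR p.1 p.2).indicator h τ := by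
    funext p
    unfold II
    rw [Set.inter_assoc, integral_indicator (mbox _ _), hh]
    rw [← integral_indicator ((mbox p.1 p.2).inter (mcell.inter hS)),
      ← integral_indicator (mbox p.1 p.2)]
    congr 1
    funext τ
    rw [Set.indicator_indicator]
  rw [hII, continuous_iff_continuousAt]
  intro p0
  set K : Set (T → ℝ) := Set.Icc (fun z => p0.1 z - 1) (fun z => p0.2 z + 1) with hK
  refine continuousAt_of_dominated (bound := K.indicator fun _ => (1 : ℝ)) ?_ ?_ ?_ ?_
  · exact Eventually.of_forall fun p => (mh.indicator (mbox _ _)).aestronglyMeasurable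
  · filter_upwards [Metric.ball_mem_nhds p0 one_pos] with p hp
    refine Eventually.of_forall fun τ => ?_
    rw [Set.indicator_apply, Set.indicator_apply]
    by_cases hτ : τ ∈ boxR p.1 p.2
    · have hτK : τ ∈ K := by
        rw [Metric.mem_ball, Prod.dist_eq, max_lt_iff] at hp
        refine ⟨fun z => ?_, fun z => ?_⟩
        · have h1 := (dist_le_pi_dist p.1 p0.1 z).trans_lt hp.1
          rw [Real.dist_eq, abs_lt] at h1
          have h2 := (hτ z).1
          simp only
          linarith [h1.1]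
        · have h1 := (dist_le_pi_dist p.2 p0.2 z).trans_lt hp.2
          rw [Real.dist_eq, abs_lt] at h1
          have h2 := (hτ z).2
          simp only
          linarith [h1.2]
      rw [if_pos hτ, if_pos hτK]
      exact bh τ
    · rw [if_neg hτ, norm_zero]
      split_ifs
      · exact zero_le_one
      · exact le_rfl
  · rw [integrable_indicator_iff measurableSet_Icc]
    exact integrableOn_const isCompact_Icc.measure_lt_top.ne
  · have h1 : ∀ᵐ τ : T → ℝ, ∀ z, τ z ≠ p0.1 z := by
      rw [ae_all_iff]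
      exact fun z => Measure.ae_eval_ne (μ := fun _ : T => (volume : Measure ℝ)) z (p0.1 z)
    have h2 : ∀ᵐ τ : T → ℝ, ∀ z, τ z ≠ p0.2 z := by
      rw [ae_all_iff]
      exact fun z => Measure.ae_eval_ne (μ := fun _ : T => (volume : Measure ℝ)) z (p0.2 z)
    filter_upwards [h1, h2] with τ h1 h2
    have c1 : ∀ z, Continuous fun p : (T → ℝ) × (T → ℝ) => p.1 z := fun z => by fun_prop
    have c2 : ∀ z, Continuous fun p : (T → ℝ) × (T → ℝ) => p.2 z := fun z => by fun_prop
    by_cases hτ : τ ∈ boxR p0.1 p0.2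
    · have hev : ∀ᶠ p in 𝓝 p0, τ ∈ boxR p.1 p.2 := by
        have h3 : ∀ z, ∀ᶠ p in 𝓝 p0, p.1 z < τ z ∧ τ z < p.2 z := fun z =>
          ((isOpen_lt (c1 z) continuous_const).mem_nhds (hτ z).1 |> fun a =>
            (isOpen_lt continuous_const (c2 z)).mem_nhds (hτ z).2 |> fun b => Filter.inter_mem a b)
        exact eventually_all.2 h3
      have hev2 : (fun p : (T → ℝ) × (T → ℝ) => (boxR p.1 p.2).indicator h τ) =ᶠ[𝓝 p0]
          fun _ => h τ := by
        filter_upwards [hev] with p hp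
        rw [Set.indicator_of_mem hp]
      exact (continuousAt_const).congr hev2.symm
    · have hex : ∃ z, τ z < p0.1 z ∨ p0.2 z < τ z := by
        by_contra hcon
        push Not at hcon
        exact hτ fun z => ⟨lt_of_le_of_ne (hcon z).1 (Ne.symm (h1 z)),
          lt_of_le_of_ne (hcon z).2 (h2 z)⟩
      obtain ⟨z, hz⟩ := hex
      have hev : ∀ᶠ p in 𝓝 p0, τ ∉ boxR p.1 p.2 := by
        rcases hz with hz | hz
        · filter_upwards [(isOpen_lt continuous_const (c1 z)).mem_nhds hz] with p hp hcon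
          have h5 : τ z < p.1 z := hp
          linarith [(hcon z).1]
        · filter_upwards [(isOpen_lt (c2 z) continuous_const).mem_nhds hz] with p hp hcon
          have h5 : p.2 z < τ z := hp
          linarith [(hcon z).2]
      have hev2 : (fun p : (T → ℝ) × (T → ℝ) => (boxR p.1 p.2).indicator h τ) =ᶠ[𝓝 p0]
          fun _ => 0 := by
        filter_upwards [hev] with p hp
        rw [Set.indicator_of_notMem hp]
      exact (continuousAt_const).congr hev2.symm

end Pool.Agent.H19.UC
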