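import Pool.Agent.H19.UC.Rul
import Pool.Agent.H19.UC.Peak

/-!
# Universal correlation implies all weighted inequalities

PROOF. Given the rational bounds `lo, up` in `(0, 1)` put for the ruler `j = (z, false)`:
`A j = (lo z).num.toNat`, `B j = (lo z).den - A j`, and the same with `up z` for `j = (z, true)`; then
`A j, B j > 0` and `A j / (A j + B j)` is `lo z` (resp. `up z`). For every `N` apply `vol_ineq` with
`X = (T ⊕ T × Bool) ⊕ RulK T W m A B N` and `G = secRel (rulY R) ..`, rewrite the four volumes by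
`ruler_eq` (`cellR b`, `cellR c`, `half x y`, `half y x` are open, hence measurable), divide by the
square of `∫ r in cube, (∏ ..) ^ N > 0` (`peak_pos`) and let `N → ∞` (`peak` with `g r = II .. S`,
continuous by `continuous_II` composed with the continuous maps `r ↦ (r (·, false), r (·, true))`).
-/

open MeasureTheory Filter Topology

namespace Pool.Agent.H19.UC

open Pool.Agent.H45.Corr

private lemma lemA_meas_cell {T : Type} [Fintype T] (r : T → T → Prop) :
    MeasurableSet (cellR r) := by
  have h : cellR r = ⋂ s, ⋂ t, ⋂ (_ : r s t), {τ : T → ℝ | τ s < τ t} := by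
    ext τ
    simp [cellR]
  rw [h]
  exact MeasurableSet.iInter fun s => MeasurableSet.iInter fun t => MeasurableSet.iInter fun _ =>
    measurableSet_lt (measurable_pi_apply s) (measurable_pi_apply t)

private lemma lemA_meas_half {T : Type} (x y : T) : MeasurableSet (half x y) :=
  measurableSet_lt (measurable_pi_apply x) (measurable_pi_apply y)

theorem volIneq {T : Type} [Fintype T] {x y : T} (hxy : x ≠ y)
    {V : Set (LinOrd T)} (h : UnivCorr {L | L.1 x y} V) {b c : LinOrd T}
    (hb : b.1 x y) (hbV : b ∉ V) (hc : c.1 y x) (hcV : c ∈ V) :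
    VolIneq x y b.1 c.1 := by
  classical
  intro lo up hlo0 hlo1 hup0 hup1 R W _ Lo Up m
  set q : T × Bool → ℚ := fun j => if j.2 then up j.1 else lo j.1 with hq
  have hq0 : ∀ j, 0 < q j := by
    rintro ⟨z, b⟩
    cases b
    · simpa [hq] using hlo0 z
    · simpa [hq] using hup0 z
  have hq1 : ∀ j, q j < 1 := by
    rintro ⟨z, b⟩
    cases b
    · simpa [hq] using hlo1 z
    · simpa [hq] using hup1 z
  set A : T × Bool → ℕ := fun j => (q j).num.toNat with hA
  set B : T × Bool → ℕ := fun j => (q j).den - A j with hB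
  have hnum : ∀ j, 0 < (q j).num := fun j => Rat.num_pos.2 (hq0 j)
  have hAz : ∀ j, ((A j : ℕ) : ℤ) = (q j).num := fun j => Int.toNat_of_nonneg (hnum j).le
  have hAlt : ∀ j, A j < (q j).den := by
    intro j
    have h1 : (q j).num < ((q j).den : ℤ) := Rat.num_lt_denom_iff.2 (hq1 j)
    have h2 := hAz j
    rw [← h2] at h1
    exact_mod_cast h1
  have hApos : ∀ j, 0 < A j := by
    intro j
    have h1 := hnum j
    rw [← hAz j] at h1
    exact_mod_cast h1
  have hBpos : ∀ j, 0 < B j := fun j => Nat.sub_pos_of_lt (hAlt j)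
  have hr0 : ∀ j, ((q j : ℚ) : ℝ) = (A j : ℝ) / (A j + B j) := by
    intro j
    have h1 : ((B j : ℕ) : ℝ) = ((q j).den : ℝ) - (A j : ℝ) := by
      rw [hB]
      exact Nat.cast_sub (hAlt j).le
    have h2 : (A j : ℝ) = ((q j).num : ℝ) := by
      have := hAz j
      exact_mod_cast congrArg (fun z : ℤ => (z : ℝ)) this
    rw [h1, Rat.cast_def, h2]
    congr 1
    ring
  -- the functions
  let g : Set (T → ℝ) → (T × Bool → ℝ) → ℝ := fun S r =>
    II (fun z => r (z, false)) (fun z => r (z, true)) R Lo Up m S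
  have hg : ∀ S : Set (T → ℝ), MeasurableSet S → Continuous (g S) := by
    intro S hS
    have h1 := continuous_II R Lo Up m S hS
    have h2 : Continuous fun r : T × Bool → ℝ =>
        ((fun z => r (z, false) : T → ℝ), (fun z => r (z, true) : T → ℝ)) :=
      (continuous_pi fun z => continuous_apply _).prodMk (continuous_pi fun z => continuous_apply _)
    exact h1.comp h2
  have hlim : ∀ S : Set (T → ℝ), MeasurableSet S →
      Tendsto (fun N : ℕ => (∫ r in cube (T × Bool), (∏ j, r j ^ A j * (1 - r j) ^ B j) ^ N)⁻¹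
        * ∫ r in cube (T × Bool), (∏ j, r j ^ A j * (1 - r j) ^ B j) ^ N * g S r) atTop
        (𝓝 (II (fun z => (lo z : ℝ)) (fun z => (up z : ℝ)) R Lo Up m S)) := by
    intro S hS
    have h1 := peak A B hApos hBpos (g S) (hg S hS) (fun j => ((q j : ℚ) : ℝ)) hr0
    have h2 : g S (fun j => ((q j : ℚ) : ℝ))
        = II (fun z => (lo z : ℝ)) (fun z => (up z : ℝ)) R Lo Up m S := by
      simp [g, hq]
    rw [h2] at h1
    exact h1
  have hb' := hlim (cellR b.1) (lemA_meas_cell b.1)
  have hc' := hlim (cellR c.1) (lemA_meas_cell c.1)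
  have hxy' := hlim (half x y) (lemA_meas_half x y)
  have hyx' := hlim (half y x) (lemA_meas_half y x)
  refine le_of_tendsto_of_tendsto' ((hb'.mul hyx').add (hc'.mul hxy')) (hxy'.mul hyx') fun N => ?_
  have hv := vol_ineq ((Function.Embedding.inl : T ↪ T ⊕ (T × Bool)).trans Function.Embedding.inl)
    (secRel (rulY R) (rulLo Lo m A B N) (rulUp Up m A B N)) hxy h hb hbV hc hcV
  rw [ruler_eq R Lo Up m A B N (cellR b.1) (lemA_meas_cell b.1),
    ruler_eq R Lo Up m A B N (cellR c.1) (lemA_meas_cell c.1),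
    ruler_eq R Lo Up m A B N (half x y) (lemA_meas_half x y),
    ruler_eq R Lo Up m A B N (half y x) (lemA_meas_half y x)] at hv
  have hP : 0 < (∫ r in cube (T × Bool), (∏ j, r j ^ A j * (1 - r j) ^ B j) ^ N)⁻¹ :=
    inv_pos.2 (peak_pos A B N)
  have hv2 := mul_le_mul_of_nonneg_left hv (mul_pos hP hP).le
  simp only [g]
  linarith [hv2]

end Pool.Agent.H19.UC
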