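import Pool.Agent.H19.UC.LemA
import Pool.Agent.H19.UC.Core

/-!
# Necessity
-/

namespace Pool.Agent.H19.UC

open Pool.Agent.H45.Corr

theorem VolIneq.swap {T : Type} [Fintype T] {x y : T} {b c : T → T → Prop}
    (h : VolIneq x y b c) : VolIneq y x c b := by
  intro lo up h1 h2 h3 h4 R W _ Lo Up m
  have := h lo up h1 h2 h3 h4 R W Lo Up m
  linarith [this, mul_comm (II (fun z => (lo z : ℝ)) (fun z => (up z : ℝ)) R Lo Up m (half x y))
    (II (fun z => (lo z : ℝ)) (fun z => (up z : ℝ)) R Lo Up m (half y x))]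

theorem RT_swap {T : Type} {x y : T} {b c : T → T → Prop} : RT y x c b ↔ RT x y b c := by
  constructor
  · rintro ⟨z, h | h⟩
    · exact ⟨z, Or.inr ⟨h.2, h.1⟩⟩
    · exact ⟨z, Or.inl ⟨h.2, h.1⟩⟩
  · rintro ⟨z, h | h⟩
    · exact ⟨z, Or.inr ⟨h.2, h.1⟩⟩
    · exact ⟨z, Or.inl ⟨h.2, h.1⟩⟩

/-- **Necessity**: if `x < y` and `V` are universally non-negatively correlated then every pair
`b ∉ V` with `x < y`, `c ∈ V` with `y < x` has a reversed triple, or both `P1` and `P2`. -/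
theorem necessity {T : Type} [Finite T] {x y : T} (hxy : x ≠ y) {V : Set (LinOrd T)}
    (h : UnivCorr {L | L.1 x y} V) (b c : LinOrd T) (hb : b.1 x y) (hbV : b ∉ V) (hc : c.1 y x)
    (hcV : c ∈ V) : RT x y b.1 c.1 ∨ (P1 x y b.1 c.1 ∧ P2 x y b.1 c.1) := by
  have := Fintype.ofFinite T
  have hV := volIneq hxy h hb hbV hc hcV
  by_contra hcon
  push Not at hcon
  obtain ⟨h1, h2⟩ := hcon
  by_cases hP : P1 x y b.1 c.1
  · exact (Dat.core ⟨y, x, c.1, b.1, c.2, b.2, hc, hb, fun h => h1 (RT_swap.1 h), h2 hP⟩) hV.swap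
  · exact (Dat.core ⟨x, y, b.1, c.1, b.2, c.2, hb, hc, h1, hP⟩) hV

end Pool.Agent.H19.UC
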