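import Pool.Agent.H19.UC.Nec
import Pool.Agent.H95.UC.Suff

/-!
# Necessity in the notation of `Pool.Agent.H95.UC.Suff`
-/

namespace Pool.Agent.H19.UC

open Pool.Agent.H45.Corr

theorem necessityB {T : Type} [Finite T] {x y : T} {V : Set (LinOrd T)}
    (h : UnivCorr {L | L.1 x y} V) (b c : LinOrd T) (hb : b.1 x y) (hbV : b ∉ V) (hc : c.1 y x)
    (hcV : c ∈ V) :
    Pool.Agent.H95.UC.RT x y b c ∨
      (Pool.Agent.H95.UC.P1 x y b c ∧ Pool.Agent.H95.UC.P1 y x c b) := by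
  have hxy : x ≠ y := by
    rintro rfl; exact b.2.irrefl _ hb
  exact necessity hxy h b c hb hbV hc hcV

end Pool.Agent.H19.UC
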