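import Pool.Agent.H19.UC.Dat

/-!
# One variable inequalities at the configuration `b` (real analysis only, `Dat` is only used for `gac`)

PROOFS. Always `0 ≤ (1 - ξ) ^ N ≤ (3/4) ^ N`. Use `a ≤ b exp (a / b - 1)` for `b > 0` (from
`Real.add_one_le_exp`), or monotonicity by derivatives.

* `P_LL`: if `ξ ≤ ζ` the left side is `0`. Otherwise `ζ ≤ p exp ((ζ - p) / p)`,
  `ξ - ζ ≤ (1/4 - p) exp ((ξ - ζ) / (1/4 - p) - 1)`, `1 - ξ ≤ (3/4) exp (- (4/3) (ξ - 1/4))`; the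
  product of the third power of the first, the second, and the `N`-th power of the third has the exponent
  `(ζ - p) (3 / p - 1 / (1/4 - p)) + (ξ - 1/4) (1 / (1/4 - p) - 4 N / 3)`, where `3 / p < 16 < 1 / (1/4 - p) ≤ N`;
  it is `≤ 0`, and `< 0` if `ζ ≠ p`.
* `P_LM`: `(1 - ξ) ^ N ζ ≤ (1 - ξ) ^ N ξ`, and `(1 - ξ) ^ N ξ` is strictly decreasing for `ξ ≥ 1/4`
  (`(1 - ξ) ^ 4 ξ` is: `ξ ≤ (1/4) exp (4 ξ - 1)`, `(1 - ξ) ^ 4 ≤ (3/4) ^ 4 exp (- (16/3) (ξ - 1/4))`).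
* `P_MM`: `(1 - max ξ ζ) ^ 4 ≤ (1 - ζ) ^ 4` and `ζ (1 - ζ) ^ 4` is strictly decreasing for `ζ ≥ 1/5`.
* `P_HC`: `max (ζ - ξ) 0 ≤ ζ - 1/4` and `(ζ - 1/4) (1 - ζ) ^ (N - 1)` is strictly decreasing for
  `ζ ≥ 1/4 + 3 / (4 N)`: `ζ - 1/4 ≤ (p - 1/4) exp ((ζ - p) / (p - 1/4))`, `1/(p - 1/4) ≤ N`,
  `1 - ζ ≤ (1 - p) exp (- (ζ - p) / (1 - p))` and `(N - 1) / (1 - p) ≥ (4/3) (N - 1) > N` for `N ≥ 5`
  (as `1 - p ≤ 3/4`).
* `P_Y`, `P_HM`, `P_X`: immediate.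
-/

namespace Pool.Agent.H19.UC

private lemma expb {a b : ℝ} (hb : 0 < b) : a ≤ b * Real.exp (a / b - 1) := by
  have h := Real.add_one_le_exp (a / b - 1)
  have h1 : a / b ≤ Real.exp (a / b - 1) := by linarith
  rw [div_le_iff₀ hb] at h1
  linarith

private lemma pow_expb {a b : ℝ} (hb : 0 < b) (ha : 0 ≤ a) (n : ℕ) :
    a ^ n ≤ b ^ n * Real.exp (n * (a / b - 1)) := by
  calc a ^ n ≤ (b * Real.exp (a / b - 1)) ^ n := pow_le_pow_left₀ ha (expb hb) n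
    _ = b ^ n * Real.exp (n * (a / b - 1)) := by rw [mul_pow, ← Real.exp_nat_mul]

private lemma cl_le {A B E : ℝ} (hB : 0 < B) (h : A ≤ B * Real.exp E) (hE : E ≤ 0) : A ≤ B := by
  have h1 : Real.exp E ≤ 1 := Real.exp_le_one_iff.2 hE
  exact h.trans (mul_le_of_le_one_right hB.le h1)

private lemma cl_lt {A B E : ℝ} (hB : 0 < B) (h : A ≤ B * Real.exp E) (hE : E < 0) : A < B := by
  have h1 : Real.exp E < 1 := by
    rw [← Real.exp_zero]
    exact Real.exp_lt_exp.2 hE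
  exact h.trans_lt (mul_lt_of_lt_one_right hB h1)

private lemma powN_le {ξ : ℝ} (h1 : 1 / 4 ≤ ξ) (h2 : ξ ≤ 1) (N : ℕ) :
    (1 - ξ) ^ N ≤ (1 - 1 / 4) ^ N := pow_le_pow_left₀ (by linarith) (by linarith) N

/-- `gac N k (1/4) p` is positive and is a maximum; strict if `ζ ≠ p`. -/
def GoodP (N : ℕ) (k : Cls) (ξ ζ p : ℝ) : Prop :=
  0 < gac N k (1 / 4) p ∧ gac N k ξ ζ ≤ gac N k (1 / 4) p ∧
    (ζ ≠ p → gac N k ξ ζ < gac N k (1 / 4) p)

theorem P_X {N : ℕ} (hN : 1 ≤ N) {ξ : ℝ} (h1 : 1 / 4 ≤ ξ) (h2 : ξ ≤ 1) :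
    GoodP N .X ξ ξ (1 / 4) := by
  have h0 : (0 : ℝ) < (1 - 1 / 4) ^ N := by positivity
  unfold GoodP gac fac
  refine ⟨by linarith, ?_, fun hne => ?_⟩
  · have := powN_le h1 h2 N
    linarith
  · have h3 : 1 / 4 < ξ := lt_of_le_of_ne h1 (Ne.symm hne)
    have h4 : (1 - ξ) ^ N < (1 - 1 / 4) ^ N :=
      pow_lt_pow_left₀ (by linarith) (by linarith) (by omega)
    linarith

theorem P_Y {N : ℕ} {ξ ζ : ℝ} (h1 : 1 / 4 ≤ ξ) (h2 : ξ ≤ 1) (h3 : 1 / 2 ≤ ζ) (h4 : ζ ≤ 1) :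
    GoodP N .Y ξ ζ (1 / 2) := by
  have h0 : (0 : ℝ) < (1 - 1 / 4) ^ N := by positivity
  have h5 := powN_le h1 h2 N
  have h6 : (1 - ξ) ^ N * (1 - ζ) ≤ (1 - 1 / 4) ^ N * (1 - ζ) :=
    mul_le_mul_of_nonneg_right h5 (by linarith)
  unfold GoodP gac fac
  refine ⟨mul_pos h0 (by norm_num), ?_, fun hne => ?_⟩
  · exact h6.trans (mul_le_mul_of_nonneg_left (by linarith) h0.le)
  · have h7 : 1 / 2 < ζ := lt_of_le_of_ne h3 (Ne.symm hne)
    exact h6.trans_lt (mul_lt_mul_of_pos_left (by linarith) h0)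

theorem P_HM {N : ℕ} {ξ ζ : ℝ} (h1 : 1 / 4 ≤ ξ) (h2 : ξ ≤ 1) (h3 : 1 / 2 ≤ ζ) (h4 : ζ ≤ 1) :
    GoodP N .HM ξ ζ (1 / 2) := by
  have h0 : (0 : ℝ) < (1 - 1 / 4) ^ N := by positivity
  have h5 := powN_le h1 h2 N
  have h6 : (1 - ξ) ^ N * (1 - ζ) ≤ (1 - 1 / 4) ^ N * (1 - ζ) :=
    mul_le_mul_of_nonneg_right h5 (by linarith)
  unfold GoodP gac fac
  refine ⟨mul_pos h0 (by norm_num), ?_, fun hne => ?_⟩
  · exact h6.trans (mul_le_mul_of_nonneg_left (by linarith) h0.le)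
  · have h7 : 1 / 2 < ζ := lt_of_le_of_ne h3 (Ne.symm hne)
    exact h6.trans_lt (mul_lt_mul_of_pos_left (by linarith) h0)

theorem P_LL {N : ℕ} (hN : 16 ≤ N) {ξ ζ p : ℝ} (h1 : 1 / 4 ≤ ξ) (h2 : ξ ≤ 1) (hp : 3 / 16 < p)
    (hp' : p ≤ 1 / 4 - 1 / N) (h3 : p ≤ ζ) : GoodP N .LL ξ ζ p := by
  have hN' : (16 : ℝ) ≤ N := by exact_mod_cast hN
  have hN0 : (0 : ℝ) < N := by linarith
  have hN1 : 0 < 1 / (N : ℝ) := by positivity
  have hp0 : 0 < p := by linarith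
  have hd : 0 < 1 / 4 - p := by linarith
  have h0 : (0 : ℝ) < (1 - 1 / 4) ^ N := by positivity
  have hB : 0 < (1 - 1 / 4 : ℝ) ^ N * (p ^ 3 * (1 / 4 - p)) := by positivity
  have hmax : max (1 / 4 - p) 0 = 1 / 4 - p := max_eq_left hd.le
  have hz0 : 0 < ζ := by linarith
  unfold GoodP gac fac
  simp only [hmax]
  rcases le_or_gt ξ ζ with h | h
  · have e : max (ξ - ζ) 0 = 0 := max_eq_right (by linarith)
    rw [e, mul_zero, mul_zero]
    exact ⟨hB, hB.le, fun _ => hB⟩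
  · have e : max (ξ - ζ) 0 = ξ - ζ := max_eq_left (by linarith)
    rw [e]
    set a : ℝ := 1 / (1 / 4 - p) with ha
    have ha1 : 16 < a := by
      rw [ha, lt_div_iff₀ hd]
      linarith
    have ha2 : a ≤ N := by
      rw [ha, div_le_iff₀ hd]
      have h7 : 1 / (N : ℝ) ≤ 1 / 4 - p := by linarith
      have h8 : (N : ℝ) * (1 / N) = 1 := by field_simp
      nlinarith
    have ha3 : a * (1 / 4 - p) = 1 := by rw [ha, one_div, inv_mul_cancel₀ hd.ne']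
    have hb : 3 / p < 16 := by
      rw [div_lt_iff₀ hp0]
      linarith
    have f1 := pow_expb (by norm_num : (0 : ℝ) < 1 - 1 / 4) (by linarith : 0 ≤ 1 - ξ) N
    have f2 := pow_expb hp0 hz0.le 3
    have f3 := expb (a := ξ - ζ) hd
    have key : (1 - ξ) ^ N * (ζ ^ 3 * (ξ - ζ)) ≤ (1 - 1 / 4) ^ N * (p ^ 3 * (1 / 4 - p)) *
        Real.exp ((ζ - p) * (3 / p - a) + (ξ - 1 / 4) * (a - 4 / 3 * N)) := by
      calc (1 - ξ) ^ N * (ζ ^ 3 * (ξ - ζ))
          ≤ ((1 - 1 / 4) ^ N * Real.exp (N * ((1 - ξ) / (1 - 1 / 4) - 1))) *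
            ((p ^ 3 * Real.exp ((3 : ℕ) * (ζ / p - 1))) *
              ((1 / 4 - p) * Real.exp ((ξ - ζ) / (1 / 4 - p) - 1))) := by
            refine mul_le_mul f1 (mul_le_mul f2 f3 (by linarith) (by positivity)) ?_ ?_
            · exact mul_nonneg (by positivity) (by linarith)
            · positivity
        _ = (1 - 1 / 4) ^ N * (p ^ 3 * (1 / 4 - p)) *
            (Real.exp (N * ((1 - ξ) / (1 - 1 / 4) - 1)) * (Real.exp ((3 : ℕ) * (ζ / p - 1)) *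
              Real.exp ((ξ - ζ) / (1 / 4 - p) - 1))) := by ring
        _ = _ := by
            rw [← Real.exp_add, ← Real.exp_add]
            congr 2
            have e1 : (ξ - ζ) / (1 / 4 - p) = (ξ - ζ) * a := by rw [ha]; ring
            rw [e1]
            have e2 : (ζ - p) * (3 / p - a) = 3 * (ζ / p - 1) - (ζ - p) * a := by
              field_simp
            rw [e2]
            push_cast
            linear_combination ha3
    have hE1 : (ξ - 1 / 4) * (a - 4 / 3 * N) ≤ 0 :=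
      mul_nonpos_of_nonneg_of_nonpos (by linarith) (by linarith)
    refine ⟨hB, cl_le hB key ?_, fun hne => cl_lt hB key ?_⟩
    · have : (ζ - p) * (3 / p - a) ≤ 0 :=
        mul_nonpos_of_nonneg_of_nonpos (by linarith) (by linarith)
      linarith
    · have h9 : p < ζ := lt_of_le_of_ne h3 (Ne.symm hne)
      have : (ζ - p) * (3 / p - a) < 0 := mul_neg_of_pos_of_neg (by linarith) (by linarith)
      linarith

theorem P_LM {N : ℕ} (hN : 16 ≤ N) {ξ ζ : ℝ} (h2 : ξ ≤ 1) (h3 : 1 / 4 ≤ ζ) (h4 : ζ ≤ ξ) :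
    GoodP N .LM ξ ζ (1 / 4) := by
  have hN' : (16 : ℝ) ≤ N := by exact_mod_cast hN
  have hB : 0 < (1 - 1 / 4 : ℝ) ^ N * (1 / 4) := by positivity
  have hx0 : 0 ≤ (1 - ξ) ^ N := pow_nonneg (by linarith) N
  have f1 := pow_expb (by norm_num : (0 : ℝ) < 1 - 1 / 4) (by linarith : 0 ≤ 1 - ξ) N
  have f2 := expb (a := ξ) (by norm_num : (0 : ℝ) < 1 / 4)
  have key : (1 - ξ) ^ N * ζ ≤ (1 - 1 / 4) ^ N * (1 / 4) *
      Real.exp ((ξ - 1 / 4) * (4 - 4 / 3 * N)) := by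
    calc (1 - ξ) ^ N * ζ ≤ (1 - ξ) ^ N * ξ := mul_le_mul_of_nonneg_left h4 hx0
      _ ≤ ((1 - 1 / 4) ^ N * Real.exp (N * ((1 - ξ) / (1 - 1 / 4) - 1))) *
          (1 / 4 * Real.exp (ξ / (1 / 4) - 1)) :=
          mul_le_mul f1 f2 (by linarith) (by positivity)
      _ = (1 - 1 / 4) ^ N * (1 / 4) *
          (Real.exp (N * ((1 - ξ) / (1 - 1 / 4) - 1)) * Real.exp (ξ / (1 / 4) - 1)) := by ring
      _ = _ := by
          rw [← Real.exp_add]
          congr 2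
          ring
  unfold GoodP gac fac
  refine ⟨hB, cl_le hB key ?_, fun hne => cl_lt hB key ?_⟩
  · exact mul_nonpos_of_nonneg_of_nonpos (by linarith) (by linarith)
  · have h9 : 1 / 4 < ζ := lt_of_le_of_ne h3 (Ne.symm hne)
    exact mul_neg_of_pos_of_neg (by linarith) (by linarith)

theorem P_HC {N : ℕ} (hN : 16 ≤ N) {ξ ζ p : ℝ} (h1 : 1 / 4 ≤ ξ) (h2 : ξ ≤ 1)
    (hp : 1 / 4 + 1 / N ≤ p) (hp' : p < 1) (h3 : p ≤ ζ) (h4 : ζ ≤ 1) : GoodP N .HC ξ ζ p := by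
  have hN' : (16 : ℝ) ≤ N := by exact_mod_cast hN
  have hN0 : (0 : ℝ) < N := by linarith
  have hN1 : 0 < 1 / (N : ℝ) := by positivity
  have hd : 0 < p - 1 / 4 := by linarith
  have hq : 0 < 1 - p := by linarith
  have h0 : (0 : ℝ) < (1 - 1 / 4) ^ N := by positivity
  have hB : 0 < (1 - 1 / 4 : ℝ) ^ N * ((p - 1 / 4) * (1 - p) ^ (N - 1)) := by positivity
  have hmax : max (p - 1 / 4) 0 = p - 1 / 4 := max_eq_left hd.le
  have hcast : ((N - 1 : ℕ) : ℝ) = N - 1 := by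
    rw [Nat.cast_sub (by omega)]
    norm_num
  have f0 := powN_le h1 h2 N
  have f1 : max (ζ - ξ) 0 ≤ ζ - 1 / 4 := max_le (by linarith) (by linarith)
  have f2 := expb (a := ζ - 1 / 4) hd
  have f3 := pow_expb hq (by linarith : 0 ≤ 1 - ζ) (N - 1)
  have key : (1 - ξ) ^ N * (max (ζ - ξ) 0 * (1 - ζ) ^ (N - 1)) ≤
      (1 - 1 / 4) ^ N * ((p - 1 / 4) * (1 - p) ^ (N - 1)) *
      Real.exp ((ζ - p) * (1 / (p - 1 / 4) - (N - 1) / (1 - p))) := by
    calc (1 - ξ) ^ N * (max (ζ - ξ) 0 * (1 - ζ) ^ (N - 1))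
        ≤ (1 - 1 / 4) ^ N * (((p - 1 / 4) * Real.exp ((ζ - 1 / 4) / (p - 1 / 4) - 1)) *
          ((1 - p) ^ (N - 1) * Real.exp ((N - 1 : ℕ) * ((1 - ζ) / (1 - p) - 1)))) := by
          refine mul_le_mul f0 (mul_le_mul (f1.trans f2) f3
            (pow_nonneg (by linarith) _) (by positivity)) ?_ h0.le
          exact mul_nonneg (le_max_right _ _) (pow_nonneg (by linarith) _)
      _ = (1 - 1 / 4) ^ N * ((p - 1 / 4) * (1 - p) ^ (N - 1)) *
          (Real.exp ((ζ - 1 / 4) / (p - 1 / 4) - 1) *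
            Real.exp ((N - 1 : ℕ) * ((1 - ζ) / (1 - p) - 1))) := by ring
      _ = _ := by
          rw [← Real.exp_add, hcast]
          congr 2
          have e0 : ζ - 1 / 4 = (ζ - p) + (p - 1 / 4) := by ring
          have e1 : (ζ - 1 / 4) / (p - 1 / 4) - 1 = (ζ - p) * (1 / (p - 1 / 4)) := by
            rw [e0, add_div, div_self hd.ne']
            ring
          have e2 : (1 - ζ) / (1 - p) - 1 = -((ζ - p) / (1 - p)) := by
            field_simp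
            ring
          rw [e1, e2]
          ring
  have hE : 1 / (p - 1 / 4) - (N - 1) / (1 - p) < 0 := by
    have g1 : 1 / (p - 1 / 4) ≤ N := by
      rw [div_le_iff₀ hd]
      have h7 : 1 / (N : ℝ) ≤ p - 1 / 4 := by linarith
      have h8 : (N : ℝ) * (1 / N) = 1 := by field_simp
      nlinarith
    have g2 : (N : ℝ) < (N - 1) / (1 - p) := by
      rw [lt_div_iff₀ hq]
      nlinarith
    linarith
  unfold GoodP gac fac
  simp only [hmax]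
  refine ⟨hB, cl_le hB key ?_, fun hne => cl_lt hB key ?_⟩
  · exact mul_nonpos_of_nonneg_of_nonpos (by linarith) hE.le
  · have h9 : p < ζ := lt_of_le_of_ne h3 (Ne.symm hne)
    exact mul_neg_of_pos_of_neg (by linarith) hE

theorem P_MM {N : ℕ} {ξ ζ p : ℝ} (h1 : 1 / 4 ≤ ξ) (h2 : ξ ≤ 1)
    (hp : 1 / 4 ≤ p) (hp' : p < 1) (h3 : p ≤ ζ) (h4 : ζ ≤ 1) : GoodP N .MM ξ ζ p := by
  have hp0 : 0 < p := by linarith
  have hq : 0 < 1 - p := by linarith
  have hz0 : 0 < ζ := by linarith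
  have h0 : (0 : ℝ) < (1 - 1 / 4) ^ N := by positivity
  have hB : 0 < (1 - 1 / 4 : ℝ) ^ N * (p * (1 - p) ^ 4) := by positivity
  have hmax : max (1 / 4) p = p := max_eq_right hp
  have f0 := powN_le h1 h2 N
  have g1 : 0 ≤ 1 - max ξ ζ := by
    have : max ξ ζ ≤ 1 := max_le h2 h4
    linarith
  have g2 : (1 - max ξ ζ) ^ 4 ≤ (1 - ζ) ^ 4 := by
    have : ζ ≤ max ξ ζ := le_max_right _ _
    exact pow_le_pow_left₀ g1 (by linarith) 4
  have f2 := expb (a := ζ) hp0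
  have f3 := pow_expb hq (by linarith : 0 ≤ 1 - ζ) 4
  have key : (1 - ξ) ^ N * (ζ * (1 - max ξ ζ) ^ 4) ≤ (1 - 1 / 4) ^ N * (p * (1 - p) ^ 4) *
      Real.exp ((ζ - p) * (1 / p - 4 / (1 - p))) := by
    calc (1 - ξ) ^ N * (ζ * (1 - max ξ ζ) ^ 4)
        ≤ (1 - 1 / 4) ^ N * ((p * Real.exp (ζ / p - 1)) *
          ((1 - p) ^ 4 * Real.exp ((4 : ℕ) * ((1 - ζ) / (1 - p) - 1)))) := by
          refine mul_le_mul f0 (mul_le_mul f2 (g2.trans f3) (by positivity) (by positivity)) ?_ h0.le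
          positivity
      _ = (1 - 1 / 4) ^ N * (p * (1 - p) ^ 4) *
          (Real.exp (ζ / p - 1) * Real.exp ((4 : ℕ) * ((1 - ζ) / (1 - p) - 1))) := by ring
      _ = _ := by
          rw [← Real.exp_add]
          congr 2
          have e1 : ζ / p - 1 = (ζ - p) * (1 / p) := by
            field_simp
          have e2 : (1 - ζ) / (1 - p) - 1 = -((ζ - p) / (1 - p)) := by
            field_simp
            ring
          rw [e1, e2]
          push_cast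
          ring
  have hE : 1 / p - 4 / (1 - p) < 0 := by
    have g3 : 1 / p ≤ 4 := by
      rw [div_le_iff₀ hp0]
      linarith
    have g4 : 4 < 4 / (1 - p) := by
      rw [lt_div_iff₀ hq]
      linarith
    linarith
  unfold GoodP gac fac
  simp only [hmax]
  refine ⟨hB, cl_le hB key ?_, fun hne => cl_lt hB key ?_⟩
  · exact mul_nonpos_of_nonneg_of_nonpos (by linarith) hE.le
  · have h9 : p < ζ := lt_of_le_of_ne h3 (Ne.symm hne)
    exact mul_neg_of_pos_of_neg (by linarith) hE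

end Pool.Agent.H19.UC
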