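import Pool.Agent.H19.UC.PVal
import Pool.Agent.H19.UC.OneP

/-!
# `p` is the unique maximum of `h` on the closed domain

PROOF. `N = 16 n ≥ 32`. Let `τ ∈ F`, `ξ = τ x ≥ p x = 1/4`, `ξ ≤ up x < 1`. For every `z` with class
`k` the statement `GoodP N k ξ (τ z) (p z)` holds: `X` (`z = x`) by `P_X`; `Y`, `HM` with `p z = 1/2 ≤ τ z`;
`LL`, `HC`, `MM` with the bounds of `p z` in `PVal.lean`; `LM`: `τ z ≤ τ x` is the relation `R z x`
(`cls z = LM`, `b z x`). All `τ z ≤ up z < 1`. Multiply: `Finset.prod_lt_prod`-like: all factors of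
`h τ` are nonnegative (`gac ≥ 0` for `0 ≤ ξ, ζ ≤ 1`) and at most the positive factors of `h p`; if
`τ ≠ p` then `τ z ≠ p z` for some `z` and that factor is strictly smaller. Note that
`h p = ∏ z, gac N (cls z) (1/4) (p z)` as `p x = 1/4`.
-/

namespace Pool.Agent.H19.UC

variable {T : Type} [Fintype T] (D : Dat T)

theorem gac_nonneg {N : ℕ} {k : Cls} {ξ ζ : ℝ} (h1 : 0 ≤ ξ) (h2 : ξ ≤ 1) (h3 : 0 ≤ ζ)
    (h4 : ζ ≤ 1) : 0 ≤ gac N k ξ ζ := by
  have h5 : 0 ≤ 1 - ξ := sub_nonneg.2 h2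
  have h6 : 0 ≤ 1 - ζ := sub_nonneg.2 h4
  have h7 : 0 ≤ 1 - max ξ ζ := sub_nonneg.2 (max_le h2 h4)
  unfold gac fac
  cases k <;> simp only [] <;> positivity

private theorem optp_mem : D.pt ∈ D.F := by
  refine ⟨fun z => ⟨le_rfl, ?_⟩, fun s t h => ?_⟩
  · have e : D.pt z = (D.p z : ℝ) := rfl
    rw [e]
    exact_mod_cast (D.p_lt_up z).le
  · have hn : (0 : ℝ) ≤ D.eta := by
      unfold Dat.eta
      positivity
    rcases D.gap h.1 with h1 | ⟨-, h1⟩
    · linarith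
    · exact h1.le

private theorem optp_good {τ : T → ℝ} (hτ : τ ∈ D.F) (z : T) :
    GoodP D.N (D.cls z) (τ D.x) (τ z) (D.pt z) := by
  have hn : 2 ≤ Fintype.card T := D.two_le_card
  have hN : 16 ≤ D.N := by
    unfold Dat.N
    omega
  have hu : ∀ z, τ z ≤ 1 := fun z => by
    have h1 : (D.up z : ℝ) < 1 := by exact_mod_cast D.up_lt_one z
    linarith [(hτ.1 z).2]
  have hx : 1 / 4 ≤ τ D.x := by
    have h1 := (hτ.1 D.x).1
    rw [D.p_X] at h1
    push_cast at h1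
    exact h1
  have hz := (hτ.1 z).1
  have e : D.pt z = (D.p z : ℝ) := rfl
  rw [e]
  cases hc : D.cls z with
  | X =>
    have h1 := D.cls_X.mp hc
    rw [h1, D.p_X]
    push_cast
    exact P_X (by omega) hx (hu _)
  | Y =>
    have h1 := D.cls_Y.mp hc
    rw [h1, D.p_Y] at hz
    rw [h1, D.p_Y]
    push_cast at hz ⊢
    exact P_Y hx (hu _) hz (hu _)
  | LL =>
    obtain ⟨h1, h2⟩ := D.p_LL hc
    have h1' : (3 / 16 : ℝ) < (D.p z : ℝ) := by
      have := (Rat.cast_lt (K := ℝ)).2 h1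
      push_cast at this
      exact this
    have h2' : (D.p z : ℝ) ≤ 1 / 4 - 1 / (D.N : ℝ) := by
      have := (Rat.cast_le (K := ℝ)).2 h2
      push_cast at this
      exact this
    exact P_LL hN hx (hu _) h1' h2' hz
  | LM =>
    have h1 : τ z ≤ τ D.x := hτ.2 z D.x ⟨(D.cls_LM hc).1, Or.inl ⟨hc, Or.inl rfl⟩⟩
    rw [D.p_LM hc] at hz ⊢
    push_cast at hz ⊢
    exact P_LM hN (hu _) hz h1
  | HC =>
    obtain ⟨h1, h2⟩ := D.p_HC hc
    have h1' : 1 / 4 + 1 / (D.N : ℝ) ≤ (D.p z : ℝ) := by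
      have := (Rat.cast_le (K := ℝ)).2 h1
      push_cast at this
      exact this
    have h2' : (D.p z : ℝ) < 1 := by
      have := (Rat.cast_lt (K := ℝ)).2 (h2.trans (D.up_lt_one z))
      push_cast at this
      exact this
    exact P_HC hN hx (hu _) h1' h2' hz (hu _)
  | MM =>
    obtain ⟨h1, h2⟩ := D.p_MM hc
    have h1' : 1 / 4 + 1 / (D.N : ℝ) ≤ (D.p z : ℝ) := by
      have := (Rat.cast_le (K := ℝ)).2 h1
      push_cast at this
      exact this
    have h2' : (D.p z : ℝ) < 5 / 16 := by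
      have := (Rat.cast_lt (K := ℝ)).2 h2
      push_cast at this
      exact this
    have h3 : (0 : ℝ) ≤ 1 / (D.N : ℝ) := by positivity
    exact P_MM hx (hu _) (by linarith) (by linarith) hz (hu _)
  | HM =>
    rw [D.p_HM hc] at hz ⊢
    push_cast at hz ⊢
    exact P_HM hx (hu _) hz (hu _)

private theorem optp_pt_x : D.pt D.x = 1 / 4 := by
  have e : D.pt D.x = (D.p D.x : ℝ) := rfl
  rw [e, D.p_X]
  push_cast
  rfl

theorem Dat.h_P_pos : 0 < D.h D.pt := by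
  unfold Dat.h
  refine Finset.prod_pos fun z _ => ?_
  rw [optp_pt_x D]
  exact (optp_good D (optp_mem D) z).1

theorem Dat.h_lt_P {τ : T → ℝ} (hτ : τ ∈ D.F) (hne : τ ≠ D.pt) : D.h τ < D.h D.pt := by
  by_cases h0 : ∃ z, gac D.N (D.cls z) (τ D.x) (τ z) = 0
  · obtain ⟨z, hz⟩ := h0
    have e : D.h τ = 0 := Finset.prod_eq_zero (Finset.mem_univ z) hz
    rw [e]
    exact D.h_P_pos
  · push Not at h0
    obtain ⟨z, hz⟩ := Function.ne_iff.1 hne
    have h01 : ∀ z, 0 ≤ τ z ∧ τ z ≤ 1 := fun z => by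
      have h1 : (D.up z : ℝ) < 1 := by exact_mod_cast D.up_lt_one z
      have h2 : (0 : ℝ) < (D.p z : ℝ) := by exact_mod_cast D.p_pos z
      exact ⟨by linarith [(hτ.1 z).1], by linarith [(hτ.1 z).2]⟩
    unfold Dat.h
    refine Finset.prod_lt_prod (fun w _ => ?_) (fun w _ => ?_) ⟨z, Finset.mem_univ z, ?_⟩
    · exact lt_of_le_of_ne (gac_nonneg (h01 _).1 (h01 _).2 (h01 _).1 (h01 _).2) (h0 w).symm
    · rw [optp_pt_x D]
      exact (optp_good D hτ w).2.1
    · rw [optp_pt_x D]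
      exact (optp_good D hτ z).2.2 hz

end Pool.Agent.H19.UC
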