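import Pool.Agent.H19.UC.Comb

/-!
# The numbers `p z` and `up z`

Write `n = card T`, `N = 16 n`; ranks are `< n`. All are rational computations by cases on the
class, with `Comb.lean`.

* `p_bounds`: `LL`: `p = 1/4 - k / N` with `1 ≤ k ≤ n - 1` (`rb z < rb x`), so `3/16 < p ≤ 1/4 - 1/N`.
* `LM`: `p = 1/4`. `HC`, `MM` with `b z y`: `p = 1/4 + k/N`, `1 ≤ k ≤ n - 1`, so
  `1/4 + 1/N ≤ p < 5/16`. `HC` with `b y z`: `1/2 < p < 1/2 + 1/(2N)` as `1 ≤ rb z < n`.
* `gap`: for `b s t` either `p s + 2 η ≤ p t` with `η = 1 / (4 n N)`, or `R s t` and `p s = p t`.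
  The values are `LL < 1/4 = LM = X < MM, HC (between) < 1/2 = Y = HM < HC (above y)`; equal values
  occur only for two elements of `LM ∪ {x}` or of `{y} ∪ HM`, where `R` holds by definition (`b s t`;
  `x` is above `LM` and `y` below `HM` in `b`). If the class of `t` comes before the class of `s` in
  this list then `b t s`: by the definition of the classes, `LL_LM` and `HM_HC`. Inside
  one class the values differ by at least `1/N`, or `1/(2 n N) = 2 η` for `HC` above `y`.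
-/

namespace Pool.Agent.H19.UC

variable {T : Type} [Fintype T] (D : Dat T)

private theorem bIrr (D : Dat T) {s : T} : ¬ D.b s s := by
  haveI := D.sb
  exact irrefl_of D.b s

private theorem bTr (D : Dat T) {r s t : T} (h : D.b r s) (h' : D.b s t) : D.b r t := by
  haveI := D.sb
  exact trans_of D.b h h'

private theorem bAs (D : Dat T) {s t : T} (h : D.b s t) : ¬ D.b t s := by
  haveI := D.sb
  exact asymm_of D.b h

private theorem cIrr (D : Dat T) {s : T} : ¬ D.c s s := by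
  haveI := D.sc
  exact irrefl_of D.c s

private theorem cAs (D : Dat T) {s t : T} (h : D.c s t) : ¬ D.c t s := by
  haveI := D.sc
  exact asymm_of D.c h

private theorem bTri (D : Dat T) {s t : T} (h : s ≠ t) (h' : ¬ D.b s t) : D.b t s := by
  haveI := D.sb
  rcases trichotomous_of D.b s t with h1 | h1 | h1
  · exact absurd h1 h'
  · exact absurd h1 h
  · exact h1

include D in
theorem Dat.two_le_card : 2 ≤ Fintype.card T := by
  have h : D.x ≠ D.y := by
    intro h
    have := D.bxy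
    rw [h] at this
    exact bIrr D this
  have : 1 < Fintype.card T := Fintype.one_lt_card_iff.mpr ⟨_, _, h⟩
  omega

private theorem nQ (D : Dat T) : (2 : ℚ) ≤ (Fintype.card T : ℚ) := by
  exact_mod_cast D.two_le_card

private theorem NQ (D : Dat T) : (D.N : ℚ) = 16 * (Fintype.card T : ℚ) := by
  unfold Dat.N
  push_cast
  ring

private theorem NQ32 (D : Dat T) : (32 : ℚ) ≤ (D.N : ℚ) := by
  rw [NQ]
  linarith [nQ D]

/-- Division by `N`. -/
private theorem div_bd (D : Dat T) {k : ℚ} (h1 : 1 ≤ k) (h2 : k < Fintype.card T) :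
    1 / (D.N : ℚ) ≤ k / D.N ∧ k / D.N < 1 / 16 := by
  have hN : (0 : ℚ) < D.N := by linarith [NQ32 D]
  refine ⟨by gcongr, ?_⟩
  rw [div_lt_iff₀ hN, NQ]
  linarith

private theorem invN (D : Dat T) : 0 < 1 / (D.N : ℚ) ∧ 1 / (D.N : ℚ) ≤ 1 / 32 := by
  have hN := NQ32 D
  refine ⟨by positivity, ?_⟩
  exact one_div_le_one_div_of_le (by norm_num) hN

theorem Dat.p_X : D.p D.x = 1 / 4 := by
  have h : D.cls D.x = .X := D.cls_X.mpr rfl
  simp only [Dat.p, h]

theorem Dat.p_Y : D.p D.y = 1 / 2 := by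
  have h : D.cls D.y = .Y := D.cls_Y.mpr rfl
  simp only [Dat.p, h]

private theorem p_LL' {z : T} (h : D.cls z = .LL) :
    D.p z = 1 / 4 - ((D.rb D.x : ℚ) - D.rb z) / D.N := by
  simp only [Dat.p, h]

private theorem rk_bd (D : Dat T) {s t : T} (h : D.b s t) :
    1 ≤ (D.rb t : ℚ) - D.rb s ∧ (D.rb t : ℚ) - D.rb s < Fintype.card T := by
  have h1 : (D.rb s : ℚ) + 1 ≤ D.rb t := by exact_mod_cast D.rb_lt h
  have h2 : (D.rb t : ℚ) < Fintype.card T := by exact_mod_cast D.rb_lt_card t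
  have h3 : (0 : ℚ) ≤ D.rb s := Nat.cast_nonneg _
  constructor <;> linarith

theorem Dat.p_LL {z : T} (h : D.cls z = .LL) : 3 / 16 < D.p z ∧ D.p z ≤ 1 / 4 - 1 / D.N := by
  obtain ⟨h1, -⟩ := D.cls_LL h
  obtain ⟨h2, h3⟩ := rk_bd D h1
  obtain ⟨h4, h5⟩ := div_bd D h2 h3
  rw [p_LL' D h]
  constructor <;> linarith

theorem Dat.p_LM {z : T} (h : D.cls z = .LM) : D.p z = 1 / 4 := by
  simp only [Dat.p, h]

private theorem p_HC1 {z : T} (h : D.cls z = .HC) (hz : D.b z D.y) :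
    D.p z = 1 / 4 + ((D.rb z : ℚ) - D.rb D.x) / D.N := by
  simp only [Dat.p, h, if_pos hz]

private theorem p_HC2 {z : T} (h : D.cls z = .HC) (hz : ¬ D.b z D.y) :
    D.p z = 1 / 2 + (D.rb z : ℚ) / (2 * Fintype.card T * D.N) := by
  simp only [Dat.p, h, if_neg hz]

private theorem up_HC {z : T} (h : D.cls z = .HC) : D.up z = 1 / 2 + 1 / (2 * D.N) := by
  obtain ⟨-, h1, h2, -⟩ := D.cls_HC h
  simp only [Dat.up, if_neg (cAs D h2), if_pos h1]

private theorem half_inv (D : Dat T) : 1 / (2 * (D.N : ℚ)) = (1 / (D.N : ℚ)) / 2 := by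
  rw [div_div, mul_comm]

private theorem two_eta (D : Dat T) : 0 < 1 / (2 * (Fintype.card T : ℚ) * D.N) ∧
    1 / (2 * (Fintype.card T : ℚ) * D.N) ≤ 1 / D.N := by
  have hN := NQ32 D
  have hn := nQ D
  refine ⟨by positivity, one_div_le_one_div_of_le (by linarith) ?_⟩
  nlinarith

private theorem rk_up (D : Dat T) (z : T) :
    (D.rb z : ℚ) / (2 * Fintype.card T * D.N) < 1 / (2 * D.N) := by
  have hN := NQ32 D
  have hn := nQ D
  have h2 : (D.rb z : ℚ) < Fintype.card T := by exact_mod_cast D.rb_lt_card z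
  rw [div_lt_div_iff₀ (by positivity) (by positivity)]
  nlinarith

theorem Dat.p_HC {z : T} (h : D.cls z = .HC) : 1 / 4 + 1 / D.N ≤ D.p z ∧ D.p z < D.up z := by
  have hi := invN D
  rw [up_HC D h, half_inv]
  by_cases hz : D.b z D.y
  · obtain ⟨h1, -⟩ := D.cls_HC h
    obtain ⟨h2, h3⟩ := rk_bd D h1
    obtain ⟨h4, h5⟩ := div_bd D h2 h3
    rw [p_HC1 D h hz]
    constructor <;> linarith
  · rw [p_HC2 D h hz]
    have h1 := rk_up D z
    rw [half_inv] at h1
    have h2 : 0 ≤ (D.rb z : ℚ) / (2 * Fintype.card T * D.N) := by positivity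
    constructor <;> linarith

private theorem p_MM' {z : T} (h : D.cls z = .MM) :
    D.p z = 1 / 4 + ((D.rb z : ℚ) - D.rb D.x) / D.N := by
  simp only [Dat.p, h]

theorem Dat.p_MM {z : T} (h : D.cls z = .MM) : 1 / 4 + 1 / D.N ≤ D.p z ∧ D.p z < 5 / 16 := by
  obtain ⟨h1, -⟩ := D.cls_MM h
  obtain ⟨h2, h3⟩ := rk_bd D h1
  obtain ⟨h4, h5⟩ := div_bd D h2 h3
  rw [p_MM' D h]
  constructor <;> linarith

theorem Dat.p_HM {z : T} (h : D.cls z = .HM) : D.p z = 1 / 2 := by
  simp only [Dat.p, h]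

private theorem up_ge (D : Dat T) (z : T) : 3 / 8 ≤ D.up z := by
  have hi := invN D
  unfold Dat.up
  split_ifs
  · exact le_refl _
  · rw [half_inv]
    linarith
  · norm_num

private theorem q_ge (D : Dat T) (z : T) : 3 / 8 ≤ D.q z := by
  have hi := invN D
  unfold Dat.q
  split_ifs
  · exact le_refl _
  · rw [half_inv]
    linarith
  · norm_num

private theorem up_Y (D : Dat T) : D.up D.y = 3 / 4 := by
  simp only [Dat.up, if_neg (cIrr D (s := D.y)), if_neg (cAs D D.cyx)]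

private theorem q_Y (D : Dat T) : D.q D.y = 1 / 2 := by
  simp only [Dat.q, if_neg (cIrr D (s := D.y)), if_neg (cAs D D.cyx)]

theorem Dat.p_lt_up (z : T) : D.p z < D.up z := by
  have hi := invN D
  have hu := up_ge D z
  cases hc : D.cls z with
  | X =>
    have := D.cls_X.mp hc
    subst this
    rw [D.p_X]
    linarith
  | Y =>
    have := D.cls_Y.mp hc
    subst this
    rw [D.p_Y, up_Y]
    norm_num
  | LL => linarith [(D.p_LL hc).2]
  | LM =>
    rw [D.p_LM hc]
    linarith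
  | HC => exact (D.p_HC hc).2
  | MM => linarith [(D.p_MM hc).2]
  | HM =>
    obtain ⟨-, -, h1, h2⟩ := D.cls_HM hc
    rw [D.p_HM hc]
    have : D.up z = 3 / 4 := by
      simp only [Dat.up, if_neg (cAs D h1), if_neg (cAs D h2)]
    rw [this]
    norm_num

theorem Dat.p_pos (z : T) : 0 < D.p z := by
  have hi := invN D
  cases hc : D.cls z with
  | X =>
    have := D.cls_X.mp hc
    subst this
    rw [D.p_X]
    norm_num
  | Y =>
    have := D.cls_Y.mp hc
    subst this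
    rw [D.p_Y]
    norm_num
  | LL => linarith [(D.p_LL hc).1]
  | LM =>
    rw [D.p_LM hc]
    norm_num
  | HC => linarith [(D.p_HC hc).1]
  | MM => linarith [(D.p_MM hc).1]
  | HM =>
    rw [D.p_HM hc]
    norm_num

theorem Dat.up_lt_one (z : T) : D.up z < 1 := by
  have hi := invN D
  unfold Dat.up
  split_ifs
  · norm_num
  · rw [half_inv]
    linarith
  · norm_num

theorem Dat.q_le_up (z : T) : D.q z ≤ D.up z := by
  unfold Dat.q Dat.up
  split_ifs
  · exact le_refl _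
  · exact le_refl _
  · norm_num

theorem Dat.p_le_q (z : T) : D.p z ≤ D.q z := by
  have hi := invN D
  have hu := q_ge D z
  cases hc : D.cls z with
  | X =>
    have := D.cls_X.mp hc
    subst this
    rw [D.p_X]
    linarith
  | Y =>
    have := D.cls_Y.mp hc
    subst this
    rw [D.p_Y, q_Y]
  | LL => linarith [(D.p_LL hc).2]
  | LM =>
    rw [D.p_LM hc]
    linarith
  | HC =>
    have h1 := (D.p_HC hc).2
    rw [up_HC D hc] at h1
    obtain ⟨-, h2, h3, -⟩ := D.cls_HC hc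
    have : D.q z = 1 / 2 + 1 / (2 * D.N) := by
      simp only [Dat.q, if_neg (cAs D h3), if_pos h2]
    rw [this]
    exact h1.le
  | MM => linarith [(D.p_MM hc).2]
  | HM =>
    obtain ⟨-, -, h1, h2⟩ := D.cls_HM hc
    rw [D.p_HM hc]
    have : D.q z = 1 / 2 := by
      simp only [Dat.q, if_neg (cAs D h1), if_neg (cAs D h2)]
    rw [this]

/-- The five levels. -/
private theorem lev (D : Dat T) (z : T) :
    (D.cls z = .LL ∧ D.b z D.x ∧ D.b z D.y ∧ D.p z = 1 / 4 - ((D.rb D.x : ℚ) - D.rb z) / D.N ∧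
      D.p z ≤ 1 / 4 - 1 / D.N) ∨
    ((D.cls z = .LM ∨ z = D.x) ∧ D.p z = 1 / 4 ∧ D.b z D.y ∧ (D.b z D.x ∨ z = D.x)) ∨
    (D.b D.x z ∧ D.b z D.y ∧ D.p z = 1 / 4 + ((D.rb z : ℚ) - D.rb D.x) / D.N ∧
      1 / 4 + 1 / D.N ≤ D.p z ∧ D.p z < 5 / 16) ∨
    ((z = D.y ∨ D.cls z = .HM) ∧ D.p z = 1 / 2 ∧ (z = D.y ∨ D.b D.y z)) ∨
    (D.cls z = .HC ∧ D.b D.y z ∧ D.p z = 1 / 2 + (D.rb z : ℚ) / (2 * Fintype.card T * D.N) ∧
      1 / 2 + 1 / (2 * Fintype.card T * D.N) ≤ D.p z) := by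
  cases hc : D.cls z with
  | X =>
    have := D.cls_X.mp hc
    subst this
    exact Or.inr (Or.inl ⟨Or.inr rfl, D.p_X, D.bxy, Or.inr rfl⟩)
  | Y =>
    have := D.cls_Y.mp hc
    subst this
    exact Or.inr (Or.inr (Or.inr (Or.inl ⟨Or.inl rfl, D.p_Y, Or.inl rfl⟩)))
  | LL =>
    obtain ⟨h1, h2, -⟩ := D.cls_LL hc
    exact Or.inl ⟨rfl, h1, h2, p_LL' D hc, (D.p_LL hc).2⟩
  | LM =>
    obtain ⟨h1, h2, -⟩ := D.cls_LM hc
    exact Or.inr (Or.inl ⟨Or.inl rfl, D.p_LM hc, h2, Or.inl h1⟩)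
  | HC =>
    obtain ⟨h1, h2, h3, h4⟩ := D.cls_HC hc
    by_cases hz : D.b z D.y
    · refine Or.inr (Or.inr (Or.inl ⟨h1, hz, p_HC1 D hc hz, (D.p_HC hc).1, ?_⟩))
      obtain ⟨h5, h6⟩ := rk_bd D h1
      obtain ⟨h7, h8⟩ := div_bd D h5 h6
      rw [p_HC1 D hc hz]
      linarith
    · refine Or.inr (Or.inr (Or.inr (Or.inr ⟨rfl, bTri D h4 hz, p_HC2 D hc hz, ?_⟩)))
      rw [p_HC2 D hc hz]
      have hr : (1 : ℚ) ≤ D.rb z := by
        have := rk_bd D h1
        have h3 : (0 : ℚ) ≤ D.rb D.x := Nat.cast_nonneg _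
        linarith [this.1]
      have hN := NQ32 D
      have hn := nQ D
      have : 1 / (2 * (Fintype.card T : ℚ) * D.N) ≤ (D.rb z : ℚ) / (2 * Fintype.card T * D.N) := by
        gcongr
      linarith
  | MM =>
    obtain ⟨h1, h2, -⟩ := D.cls_MM hc
    exact Or.inr (Or.inr (Or.inl ⟨h1, h2, p_MM' D hc, (D.p_MM hc).1, (D.p_MM hc).2⟩))
  | HM =>
    obtain ⟨-, h1, -⟩ := D.cls_HM hc
    exact Or.inr (Or.inr (Or.inr (Or.inl ⟨Or.inr rfl, D.p_HM hc, Or.inr h1⟩)))

private theorem gapQ (D : Dat T) {s t : T} (h : D.b s t) :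
    (D.p s + 1 / (2 * Fintype.card T * D.N) ≤ D.p t) ∨ (D.R s t ∧ D.p s = D.p t) := by
  have hi := invN D
  have he := two_eta D
  have hr := rk_bd D h
  have hd : 1 / (D.N : ℚ) ≤ ((D.rb t : ℚ) - D.rb s) / D.N := by
    have hN := NQ32 D
    gcongr
    exact hr.1
  have hnb : ¬ D.b t s := bAs D h
  rcases lev D s with ⟨s1, s2, s3, s4, s5⟩ | ⟨s1, s2, s3, s4⟩ | ⟨s1, s2, s3, s4, s5⟩ |
    ⟨s1, s2, s3⟩ | ⟨s1, s2, s3, s4⟩ <;>
  rcases lev D t with ⟨t1, t2, t3, t4, t5⟩ | ⟨t1, t2, t3, t4⟩ | ⟨t1, t2, t3, t4, t5⟩ |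
    ⟨t1, t2, t3⟩ | ⟨t1, t2, t3, t4⟩
  -- level of `s` is `LL`
  · left
    rw [s4, t4]
    have : ((D.rb t : ℚ) - D.rb s) / D.N = ((D.rb D.x : ℚ) - D.rb s) / D.N -
      ((D.rb D.x : ℚ) - D.rb t) / D.N := by ring
    linarith
  · left
    linarith
  · left
    linarith
  · left
    linarith
  · left
    linarith
  -- level of `s` is `LM` or `X`
  · exfalso
    rcases s1 with s1 | s1
    · exact hnb (D.LL_LM t1 s1)
    · subst s1
      exact hnb t2
  · right
    refine ⟨⟨h, Or.inl ?_⟩, by rw [s2, t2]⟩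
    rcases s1 with s1 | s1
    · exact ⟨s1, t1.symm⟩
    · exfalso
      subst s1
      rcases t4 with t4 | t4
      · exact hnb t4
      · rw [t4] at h
        exact bIrr D h
  · left
    linarith
  · left
    linarith
  · left
    linarith
  -- level of `s` is between
  · exact absurd (bTr D t2 s1) hnb
  · exfalso
    rcases t4 with t4 | t4
    · exact hnb (bTr D t4 s1)
    · subst t4
      exact hnb s1
  · left
    rw [s3, t3]
    have : ((D.rb t : ℚ) - D.rb s) / D.N = ((D.rb t : ℚ) - D.rb D.x) / D.N -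
      ((D.rb s : ℚ) - D.rb D.x) / D.N := by ring
    linarith
  · left
    linarith
  · left
    linarith
  -- level of `s` is `Y` or `HM`
  · exfalso
    rcases s3 with s3 | s3
    · subst s3
      exact hnb t3
    · exact hnb (bTr D t3 s3)
  · exfalso
    rcases s3 with s3 | s3
    · subst s3
      exact hnb t3
    · exact hnb (bTr D t3 s3)
  · exfalso
    rcases s3 with s3 | s3
    · subst s3
      exact hnb t2
    · exact hnb (bTr D t2 s3)
  · right
    refine ⟨⟨h, Or.inr ?_⟩, by rw [s2, t2]⟩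
    rcases t1 with t1 | t1
    · exfalso
      subst t1
      rcases s3 with s3 | s3
      · rw [s3] at h
        exact bIrr D h
      · exact hnb s3
    · exact ⟨t1, s1⟩
  · left
    linarith
  -- level of `s` is `HC` above `y`
  · exact absurd (bTr D t3 s2) hnb
  · exact absurd (bTr D t3 s2) hnb
  · exact absurd (bTr D t2 s2) hnb
  · exfalso
    rcases t1 with t1 | t1
    · subst t1
      exact hnb s2
    · exact hnb (D.HM_HC t1 s1 s2)
  · left
    rw [s3, t3]
    have hN := NQ32 D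
    have hn := nQ D
    have h1 : 1 / (2 * (Fintype.card T : ℚ) * D.N) ≤
        ((D.rb t : ℚ) - D.rb s) / (2 * Fintype.card T * D.N) := by
      gcongr
      exact hr.1
    have h2 : ((D.rb t : ℚ) - D.rb s) / (2 * Fintype.card T * D.N) =
        (D.rb t : ℚ) / (2 * Fintype.card T * D.N) - (D.rb s : ℚ) / (2 * Fintype.card T * D.N) := by
      ring
    linarith

theorem Dat.gap {s t : T} (h : D.b s t) :
    (D.pt s + 2 * D.eta ≤ D.pt t) ∨ (D.R s t ∧ D.pt s = D.pt t) := by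
  rcases gapQ D h with h1 | ⟨h1, h2⟩
  · left
    have h3 : ((D.p s + 1 / (2 * Fintype.card T * D.N) : ℚ) : ℝ) ≤ (D.p t : ℝ) := by
      exact_mod_cast h1
    have h4 : 2 * D.eta = 1 / (2 * (Fintype.card T : ℝ) * D.N) := by
      have hN0 : (0 : ℚ) < D.N := by linarith [NQ32 D]
      have hn0 : (0 : ℚ) < Fintype.card T := by linarith [nQ D]
      have hN : (0 : ℝ) < D.N := by exact_mod_cast hN0
      have hn : (0 : ℝ) < Fintype.card T := by exact_mod_cast hn0
      unfold Dat.eta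
      field_simp
      norm_num
    rw [h4]
    push_cast at h3
    exact h3
  · right
    exact ⟨h1, by simp only [Dat.pt, h2]⟩

end Pool.Agent.H19.UC
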