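import Pool.Agent.H19.UC.Sect

/-!
# Rulers: elements `(z, false)` below and `(z, true)` above `z`, held in place by long antichains

`Y = T ⊕ (T × Bool)`. The elements of `K` are: `m w` copies of the weight `w`, `N * A j` elements
below the ruler `j` and `N * B j` elements above it.

PROOF of `ruler_eq`. Apply `sect_vol` with `ι : T ↪ T ⊕ (T × Bool)`. The product over `K` is
(`Fintype.prod_sum_type`, `Fintype.prod_sigma`, `Finset.prod_const`)
`∏ w, len (Lo w) (Up w) (τ ∘ inl) ^ m w * ∏ j, len ∅ {j} ^ (N * A j) * ∏ j, len {j} ∅ ^ (N * B j)`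
and for `r j ∈ (0, 1)` the length of `{ω ∈ (0,1) | ω < r j}` is `r j`, that of `{ω ∈ (0,1) | r j < ω}`
is `1 - r j`. Transport the integral to `(T → ℝ) × (T × Bool → ℝ)` by
`measurePreserving_sumPiEquivProdPi`, use Fubini (`setIntegral_prod` or `integral_prod_symm`, the
integrand is bounded and measurable on a bounded set) with `r` as the outer variable. For `r` in the
cube the inner domain is `boxR (r (·, false)) (r (·, true)) ∩ cellR R ∩ S` (it is contained in the
cube of `T`), so the inner integral is `II ..`.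
-/

open MeasureTheory

namespace Pool.Agent.H19.UC

open Pool.Agent.H45.Corr

/-- The relation on `T ⊕ (T × Bool)`: `R` on `T`, and `(z, false) < z < (z, true)`. -/
def rulY {T : Type} (R : T → T → Prop) : T ⊕ (T × Bool) → T ⊕ (T × Bool) → Prop
  | .inl s, .inl t => R s t
  | .inl s, .inr j => j = (s, true)
  | .inr j, .inl s => j = (s, false)
  | .inr _, .inr _ => False

/-- The index type of the additional elements. -/
abbrev RulK (T W : Type) (m : W → ℕ) (A B : T × Bool → ℕ) (N : ℕ) : Type :=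
  (Σ w : W, Fin (m w)) ⊕ ((Σ j : T × Bool, Fin (N * A j)) ⊕ (Σ j : T × Bool, Fin (N * B j)))

/-- The elements of `Y` below the element `k`. -/
def rulLo {T W : Type} (Lo : W → T → Prop) (m : W → ℕ) (A B : T × Bool → ℕ) (N : ℕ) :
    RulK T W m A B N → T ⊕ (T × Bool) → Prop
  | .inl w, .inl t => Lo w.1 t
  | .inr (.inr j), .inr i => i = j.1
  | _, _ => False

/-- The elements of `Y` above the element `k`. -/
def rulUp {T W : Type} (Up : W → T → Prop) (m : W → ℕ) (A B : T × Bool → ℕ) (N : ℕ) :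
    RulK T W m A B N → T ⊕ (T × Bool) → Prop
  | .inl w, .inl t => Up w.1 t
  | .inr (.inl j), .inr i => i = j.1
  | _, _ => False

private theorem rul_len_inl {T W : Type} (Lo Up : W → T → Prop) (m : W → ℕ) (A B : T × Bool → ℕ)
    (N : ℕ) (w : Σ w : W, Fin (m w)) (τ : T ⊕ (T × Bool) → ℝ) :
    len (rulLo Lo m A B N (.inl w)) (rulUp Up m A B N (.inl w)) τ =
      len (Lo w.1) (Up w.1) (fun t => τ (.inl t)) := by
  unfold len
  congr 2
  ext ω
  simp only [Set.mem_ofPred_eq]
  constructor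
  · rintro ⟨h1, h2, h3, h4⟩
    exact ⟨h1, h2, fun t ht => h3 (.inl t) ht, fun t ht => h4 (.inl t) ht⟩
  · rintro ⟨h1, h2, h3, h4⟩
    refine ⟨h1, h2, ?_, ?_⟩
    · rintro (t | j) hh
      · exact h3 t hh
      · exact hh.elim
    · rintro (t | j) hh
      · exact h4 t hh
      · exact hh.elim

private theorem rul_len_low {T W : Type} (Lo Up : W → T → Prop) (m : W → ℕ) (A B : T × Bool → ℕ)
    (N : ℕ) (j : Σ j : T × Bool, Fin (N * A j)) {τ : T ⊕ (T × Bool) → ℝ}
    (h0 : 0 < τ (.inr j.1)) (h1 : τ (.inr j.1) < 1) :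
    len (rulLo Lo m A B N (.inr (.inl j))) (rulUp Up m A B N (.inr (.inl j))) τ =
      τ (.inr j.1) := by
  unfold len
  have e : {ω : ℝ | 0 < ω ∧ ω < 1 ∧ (∀ i, rulLo Lo m A B N (.inr (.inl j)) i → τ i < ω) ∧
      ∀ i, rulUp Up m A B N (.inr (.inl j)) i → ω < τ i} = Set.Ioo 0 (τ (.inr j.1)) := by
    ext ω
    simp only [Set.mem_ofPred_eq, Set.mem_Ioo]
    constructor
    · rintro ⟨h2, -, -, h4⟩
      exact ⟨h2, h4 (.inr j.1) rfl⟩
    · rintro ⟨h2, h3⟩
      refine ⟨h2, h3.trans h1, ?_, ?_⟩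
      · rintro (t | i) hh
        · exact hh.elim
        · exact hh.elim
      · rintro (t | i) hh
        · exact hh.elim
        · have hi : i = j.1 := hh
          rw [hi]
          exact h3
  rw [e, Real.volume_Ioo, sub_zero, ENNReal.toReal_ofReal h0.le]

private theorem rul_len_upp {T W : Type} (Lo Up : W → T → Prop) (m : W → ℕ) (A B : T × Bool → ℕ)
    (N : ℕ) (j : Σ j : T × Bool, Fin (N * B j)) {τ : T ⊕ (T × Bool) → ℝ}
    (h0 : 0 < τ (.inr j.1)) (h1 : τ (.inr j.1) < 1) :
    len (rulLo Lo m A B N (.inr (.inr j))) (rulUp Up m A B N (.inr (.inr j))) τ =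
      1 - τ (.inr j.1) := by
  unfold len
  have e : {ω : ℝ | 0 < ω ∧ ω < 1 ∧ (∀ i, rulLo Lo m A B N (.inr (.inr j)) i → τ i < ω) ∧
      ∀ i, rulUp Up m A B N (.inr (.inr j)) i → ω < τ i} = Set.Ioo (τ (.inr j.1)) 1 := by
    ext ω
    simp only [Set.mem_ofPred_eq, Set.mem_Ioo]
    constructor
    · rintro ⟨-, h2, h3, -⟩
      exact ⟨h3 (.inr j.1) rfl, h2⟩
    · rintro ⟨h2, h3⟩
      refine ⟨h0.trans h2, h3, ?_, ?_⟩
      · rintro (t | i) hh
        · exact hh.elim
        · have hi : i = j.1 := hh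
          rw [hi]
          exact h2
      · rintro (t | i) hh
        · exact hh.elim
        · exact hh.elim
  rw [e, Real.volume_Ioo, ENNReal.toReal_ofReal (by linarith)]

private theorem rul_prod {T W : Type} [Fintype T] [Fintype W] (Lo Up : W → T → Prop) (m : W → ℕ)
    (A B : T × Bool → ℕ) (N : ℕ) {τ : T ⊕ (T × Bool) → ℝ}
    (h : ∀ j, 0 < τ (.inr j) ∧ τ (.inr j) < 1) :
    ∏ k, len (rulLo Lo m A B N k) (rulUp Up m A B N k) τ =
      (∏ j, τ (.inr j) ^ A j * (1 - τ (.inr j)) ^ B j) ^ N * wt Lo Up m (fun t => τ (.inl t)) := by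
  rw [Fintype.prod_sum_type, Fintype.prod_sum_type]
  have e1 : ∏ w : Σ w : W, Fin (m w), len (rulLo Lo m A B N (.inl w)) (rulUp Up m A B N (.inl w)) τ =
      wt Lo Up m (fun t => τ (.inl t)) := by
    rw [Finset.prod_congr rfl fun w _ => rul_len_inl Lo Up m A B N w τ, Fintype.prod_sigma]
    unfold wt
    refine Finset.prod_congr rfl fun w _ => ?_
    simp only
    rw [Finset.prod_const, Finset.card_univ, Fintype.card_fin]
  have e2 : ∏ j : Σ j : T × Bool, Fin (N * A j),
      len (rulLo Lo m A B N (.inr (.inl j))) (rulUp Up m A B N (.inr (.inl j))) τ =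
      ∏ j, (τ (.inr j) ^ A j) ^ N := by
    rw [Finset.prod_congr rfl fun j _ => rul_len_low Lo Up m A B N j (h j.1).1 (h j.1).2,
      Fintype.prod_sigma]
    refine Finset.prod_congr rfl fun j _ => ?_
    simp only
    rw [Finset.prod_const, Finset.card_univ, Fintype.card_fin, mul_comm N, pow_mul]
  have e3 : ∏ j : Σ j : T × Bool, Fin (N * B j),
      len (rulLo Lo m A B N (.inr (.inr j))) (rulUp Up m A B N (.inr (.inr j))) τ =
      ∏ j, ((1 - τ (.inr j)) ^ B j) ^ N := by
    rw [Finset.prod_congr rfl fun j _ => rul_len_upp Lo Up m A B N j (h j.1).1 (h j.1).2,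
      Fintype.prod_sigma]
    refine Finset.prod_congr rfl fun j _ => ?_
    simp only
    rw [Finset.prod_const, Finset.card_univ, Fintype.card_fin, mul_comm N, pow_mul]
  rw [e1, e2, e3, ← Finset.prod_mul_distrib, ← Finset.prod_pow, mul_comm]
  congr 1
  refine Finset.prod_congr rfl fun j _ => ?_
  rw [mul_pow]

theorem ruler_eq {T W : Type} [Fintype T] [Fintype W] (R : T → T → Prop) (Lo Up : W → T → Prop)
    (m : W → ℕ) (A B : T × Bool → ℕ) (N : ℕ) (S : Set (T → ℝ)) (hS : MeasurableSet S) :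
    nu ((Function.Embedding.inl : T ↪ T ⊕ (T × Bool)).trans Function.Embedding.inl)
        (secRel (rulY R) (rulLo Lo m A B N) (rulUp Up m A B N)) S
      = ∫ r in cube (T × Bool), (∏ j, r j ^ A j * (1 - r j) ^ B j) ^ N
          * II (fun z => r (z, false)) (fun z => r (z, true)) R Lo Up m S := by
  classical
  rw [sect_vol (Function.Embedding.inl : T ↪ T ⊕ (T × Bool)) (rulY R) (rulLo Lo m A B N)
    (rulUp Up m A B N) S hS]
  set e := MeasurableEquiv.sumPiEquivProdPi (fun _ : T ⊕ (T × Bool) => ℝ) with he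
  set A' : Set ((T → ℝ) × (T × Bool → ℝ)) := {p | p.1 ∈ cube T ∧ p.2 ∈ cube (T × Bool) ∧
    p.1 ∈ cellR R ∧ (∀ z, p.2 (z, false) < p.1 z ∧ p.1 z < p.2 (z, true)) ∧ p.1 ∈ S} with hA'
  set G : (T → ℝ) × (T × Bool → ℝ) → ℝ := fun p =>
    (∏ j, p.2 j ^ A j * (1 - p.2 j) ^ B j) ^ N * wt Lo Up m p.1 with hG
  have mcube : ∀ (J : Type) [Fintype J], MeasurableSet (cube J) := by
    intro J _
    have e1 : cube J = Set.univ.pi fun _ : J => Set.Ioo (0 : ℝ) 1 := by
      ext r
      simp [cube, boxR, Set.mem_pi]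
    rw [e1]
    exact MeasurableSet.univ_pi fun _ => measurableSet_Ioo
  have mcell : ∀ (Y : Type) [Fintype Y] (g : Y → Y → Prop), MeasurableSet (cellR g) := by
    intro Y _ g
    have e1 : cellR g = ⋂ s, ⋂ t, {τ : Y → ℝ | g s t → τ s < τ t} := by
      ext τ; simp [cellR]
    rw [e1]
    refine MeasurableSet.iInter fun s => MeasurableSet.iInter fun t => ?_
    by_cases hg : g s t
    · simpa [hg] using measurableSet_lt (measurable_pi_apply s) (measurable_pi_apply t)
    · simp [hg]
  have mbt : MeasurableSet {p : (T → ℝ) × (T × Bool → ℝ) |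
      ∀ z, p.2 (z, false) < p.1 z ∧ p.1 z < p.2 (z, true)} := by
    have e1 : {p : (T → ℝ) × (T × Bool → ℝ) | ∀ z, p.2 (z, false) < p.1 z ∧ p.1 z < p.2 (z, true)} =
        ⋂ z, ({p : (T → ℝ) × (T × Bool → ℝ) | p.2 (z, false) < p.1 z} ∩
          {p : (T → ℝ) × (T × Bool → ℝ) | p.1 z < p.2 (z, true)}) := by
      ext p; simp
    rw [e1]
    have m1 : ∀ z, Measurable fun p : (T → ℝ) × (T × Bool → ℝ) => p.1 z := fun z =>
      (measurable_pi_apply z).comp measurable_fst
    have m2 : ∀ z, Measurable fun p : (T → ℝ) × (T × Bool → ℝ) => p.2 z := fun z =>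
      (measurable_pi_apply z).comp measurable_snd
    exact MeasurableSet.iInter fun z => (measurableSet_lt (m2 _) (m1 _)).inter
      (measurableSet_lt (m1 _) (m2 _))
  have mA' : MeasurableSet A' := by
    have e1 : A' = (Prod.fst ⁻¹' cube T) ∩ ((Prod.snd ⁻¹' cube (T × Bool)) ∩
        ((Prod.fst ⁻¹' cellR R) ∩ ({p : (T → ℝ) × (T × Bool → ℝ) |
          ∀ z, p.2 (z, false) < p.1 z ∧ p.1 z < p.2 (z, true)} ∩ (Prod.fst ⁻¹' S)))) := rfl
    rw [e1]
    exact (measurable_fst (mcube T)).inter ((measurable_snd (mcube (T × Bool))).inter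
      ((measurable_fst (mcell T R)).inter (mbt.inter (measurable_fst hS))))
  have hset : cube (T ⊕ (T × Bool)) ∩ cellR (rulY R) ∩
      {τ : T ⊕ (T × Bool) → ℝ | (fun t => τ ((Function.Embedding.inl : T ↪ T ⊕ (T × Bool)) t)) ∈ S}
      = e ⁻¹' A' := by
    ext τ
    constructor
    · rintro ⟨⟨h1, h2⟩, h3⟩
      refine ⟨fun z => h1 (.inl z), fun j => h1 (.inr j), fun s t hst => h2 (.inl s) (.inl t) hst,
        fun z => ⟨h2 (.inr (z, false)) (.inl z) rfl, h2 (.inl z) (.inr (z, true)) rfl⟩, h3⟩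
    · rintro ⟨h1, h2, h3, h4, h5⟩
      refine ⟨⟨?_, ?_⟩, h5⟩
      · rintro (z | j)
        · exact h1 z
        · exact h2 j
      · rintro (s | j) (t | j') hst
        · exact h3 s t hst
        · have hj : j' = (s, true) := hst
          rw [hj]
          exact (h4 s).2
        · have hj : j = (t, false) := hst
          rw [hj]
          exact (h4 t).1
        · exact hst.elim
  rw [hset]
  have mpre : MeasurableSet (e ⁻¹' A') := e.measurable mA'
  have hfun : ∫ τ in e ⁻¹' A', ∏ k, len (rulLo Lo m A B N k) (rulUp Up m A B N k) τ =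
      ∫ τ in e ⁻¹' A', G (e τ) := by
    refine setIntegral_congr_fun mpre fun τ hτ => ?_
    exact rul_prod Lo Up m A B N (τ := τ) hτ.2.1
  have hmp := volume_measurePreserving_sumPiEquivProdPi (fun _ : T ⊕ (T × Bool) => ℝ)
  rw [hfun, hmp.setIntegral_preimage_emb e.measurableEmbedding G A']
  -- Fubini
  have cG : Continuous G := by
    have h1 : Continuous (wt Lo Up m) := by
      unfold wt
      exact continuous_finsetProd _ fun w _ => (continuous_len (Lo w) (Up w)).pow (m w)
    exact (by fun_prop : Continuous fun p : (T → ℝ) × (T × Bool → ℝ) =>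
      (∏ j, p.2 j ^ A j * (1 - p.2 j) ^ B j) ^ N).mul (h1.comp continuous_fst)
  have iG : Integrable (A'.indicator G) (volume : Measure ((T → ℝ) × (T × Bool → ℝ))) := by
    rw [integrable_indicator_iff mA']
    have h1 : IntegrableOn G (Set.Icc (0 : (T → ℝ) × (T × Bool → ℝ)) 1) volume :=
      cG.continuousOn.integrableOn_compact isCompact_Icc
    refine h1.mono_set fun q hq => ?_
    exact ⟨⟨fun z => (hq.1 z).1.le, fun j => (hq.2.1 j).1.le⟩,
      ⟨fun z => (hq.1 z).2.le, fun j => (hq.2.1 j).2.le⟩⟩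
  rw [← integral_indicator mA', Measure.volume_eq_prod, integral_prod_symm _ (by
    rw [← Measure.volume_eq_prod]; exact iG), ← integral_indicator (mcube (T × Bool))]
  refine integral_congr_ae (Filter.Eventually.of_forall fun r => ?_)
  by_cases hr : r ∈ cube (T × Bool)
  · simp only [Set.indicator_of_mem hr]
    unfold II
    have mbox : MeasurableSet (boxR (fun z => r (z, false)) (fun z => r (z, true))) := by
      have e1 : boxR (fun z => r (z, false)) (fun z => r (z, true)) =
          Set.univ.pi fun z => Set.Ioo (r (z, false)) (r (z, true)) := by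
        ext τ
        simp [boxR, Set.mem_pi]
      rw [e1]
      exact MeasurableSet.univ_pi fun _ => measurableSet_Ioo
    rw [← integral_indicator ((mbox.inter (mcell T R)).inter hS), ← integral_const_mul]
    refine integral_congr_ae (Filter.Eventually.of_forall fun t => ?_)
    by_cases ht : t ∈ boxR (fun z => r (z, false)) (fun z => r (z, true)) ∩ cellR R ∩ S
    · have hm : (t, r) ∈ A' := by
        refine ⟨fun z => ⟨?_, ?_⟩, hr, ht.1.2, ht.1.1, ht.2⟩
        · exact (hr (z, false)).1.trans (ht.1.1 z).1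
        · exact (ht.1.1 z).2.trans (hr (z, true)).2
      simp only [Set.indicator_of_mem ht, Set.indicator_of_mem hm, hG]
    · have hm : (t, r) ∉ A' := fun h => ht ⟨⟨h.2.2.2.1, h.2.2.1⟩, h.2.2.2.2⟩
      simp only [Set.indicator_of_notMem ht, Set.indicator_of_notMem hm, mul_zero]
  · simp only [Set.indicator_of_notMem hr]
    have h0 : ∀ t : T → ℝ, A'.indicator G (t, r) = 0 := fun t =>
      Set.indicator_of_notMem (fun h => hr h.2.1) _
    simp only [h0, integral_zero]

end Pool.Agent.H19.UC
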