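import Pool.Agent.H19.UC.Cell

/-!
# Sections over the elements of `Y`: elements `k ∈ K` which are only compared with elements of `Y`

PROOF of `sect_vol`. The map `(Y ⊕ K → ℝ) ≃ (Y → ℝ) × (K → ℝ)` is measure preserving
(`MeasureTheory.volume_measurePreserving_sumPiEquivProdPi`, or `measurePreserving_sumPiEquivProdPi`).
Under it the set is `{(τ, κ) | τ ∈ A, ∀ k, κ k ∈ E k τ}` with `A` the integration set on the right and
`E k τ = {ω | 0 < ω ∧ ω < 1 ∧ (∀ i, lo k i → τ i < ω) ∧ ∀ i, up k i → ω < τ i}`. It is measurable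
(finite intersection of open sets and of the preimage of `S`). By `Measure.prod_apply` its measure is
`∫⁻ τ, volume (section)`, the section over `τ ∈ A` is `Set.univ.pi (fun k => E k τ)` with measure
`∏ k, volume (E k τ)` (`MeasureTheory.volume_pi_pi` or `Measure.pi_pi`), and empty for `τ ∉ A`.
`volume (E k τ) ≤ 1`, so everything is finite; pass to `toReal` with `integral_toReal` (or
`ofReal_integral_eq_lintegral_ofReal`); measurability of `τ ↦ volume (E k τ)` is
`measurable_measure_prodMk_left`. `len_le_one`, `len_nonneg`, `measurable_len` are the same facts in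
real form; `continuous_len`: the set `E k τ` is the intersection of `Ioo 0 1` with finitely many half
lines; for a sequence `τ' → τ` the indicator converges at all `ω` outside the finite set of the
values `τ i` (dominated convergence, dominating function the indicator of `Ioo 0 1`); or: the
length is the positive part of `min (1, inf τ i) - max (0, sup τ i)`.
-/

open MeasureTheory

namespace Pool.Agent.H19.UC

open Pool.Agent.H45.Corr

/-- The relation on `Y ⊕ K` generated by `g` on `Y` and the bounds of the elements of `K`. -/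
def secRel {Y K : Type} (g : Y → Y → Prop) (lo up : K → Y → Prop) : Y ⊕ K → Y ⊕ K → Prop
  | .inl i, .inl j => g i j
  | .inl i, .inr k => lo k i
  | .inr k, .inl i => up k i
  | .inr _, .inr _ => False

theorem len_nonneg {T : Type} (Lo Up : T → Prop) (τ : T → ℝ) : 0 ≤ len Lo Up τ :=
  ENNReal.toReal_nonneg

/-- the upper end of the lower bounds -/
private noncomputable def loF {T : Type} [Fintype T] (Lo : T → Prop) (τ : T → ℝ) : ℝ := by
  classical
  exact (Finset.univ : Finset (Option T)).sup' Finset.univ_nonempty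
    (fun o => o.elim 0 (fun i => if Lo i then τ i else 0))

/-- the lower end of the upper bounds -/
private noncomputable def upF {T : Type} [Fintype T] (Up : T → Prop) (τ : T → ℝ) : ℝ := by
  classical
  exact (Finset.univ : Finset (Option T)).inf' Finset.univ_nonempty
    (fun o => o.elim 1 (fun i => if Up i then τ i else 1))

private theorem loF_lt {T : Type} [Fintype T] (Lo : T → Prop) (τ : T → ℝ) (ω : ℝ) :
    loF Lo τ < ω ↔ 0 < ω ∧ ∀ i, Lo i → τ i < ω := by
  classical
  unfold loF
  rw [Finset.sup'_lt_iff]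
  constructor
  · intro h
    refine ⟨h none (Finset.mem_univ _), fun i hi => ?_⟩
    have := h (some i) (Finset.mem_univ _)
    simpa [hi] using this
  · rintro ⟨h0, h1⟩ o -
    cases o with
    | none => exact h0
    | some i =>
      by_cases hi : Lo i
      · simpa [hi] using h1 i hi
      · simpa [hi] using h0

private theorem lt_upF {T : Type} [Fintype T] (Up : T → Prop) (τ : T → ℝ) (ω : ℝ) :
    ω < upF Up τ ↔ ω < 1 ∧ ∀ i, Up i → ω < τ i := by
  classical
  unfold upF
  rw [Finset.lt_inf'_iff]
  constructor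
  · intro h
    refine ⟨h none (Finset.mem_univ _), fun i hi => ?_⟩
    have := h (some i) (Finset.mem_univ _)
    simpa [hi] using this
  · rintro ⟨h0, h1⟩ o -
    cases o with
    | none => exact h0
    | some i =>
      by_cases hi : Up i
      · simpa [hi] using h1 i hi
      · simpa [hi] using h0

private theorem loF_cont {T : Type} [Fintype T] (Lo : T → Prop) : Continuous (loF Lo) := by
  classical
  unfold loF
  refine Continuous.finset_sup'_apply _ fun o _ => ?_
  cases o with
  | none => exact continuous_const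
  | some i =>
    by_cases hi : Lo i
    · simpa [hi] using continuous_apply i
    · simpa [hi] using continuous_const

private theorem upF_cont {T : Type} [Fintype T] (Up : T → Prop) : Continuous (upF Up) := by
  classical
  unfold upF
  refine Continuous.finset_inf'_apply _ fun o _ => ?_
  cases o with
  | none => exact continuous_const
  | some i =>
    by_cases hi : Up i
    · simpa [hi] using continuous_apply i
    · simpa [hi] using continuous_const

private theorem sec_eq {T : Type} [Fintype T] (Lo Up : T → Prop) (τ : T → ℝ) :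
    {ω : ℝ | 0 < ω ∧ ω < 1 ∧ (∀ i, Lo i → τ i < ω) ∧ ∀ i, Up i → ω < τ i} =
      Set.Ioo (loF Lo τ) (upF Up τ) := by
  ext ω
  rw [Set.mem_Ioo, loF_lt, lt_upF, Set.mem_ofPred_eq]
  constructor
  · rintro ⟨h1, h2, h3, h4⟩
    exact ⟨⟨h1, h3⟩, h2, h4⟩
  · rintro ⟨⟨h1, h3⟩, h2, h4⟩
    exact ⟨h1, h2, h3, h4⟩

theorem len_le_one {T : Type} (Lo Up : T → Prop) (τ : T → ℝ) : len Lo Up τ ≤ 1 := by
  unfold len
  have h1 : volume {ω : ℝ | 0 < ω ∧ ω < 1 ∧ (∀ i, Lo i → τ i < ω) ∧ ∀ i, Up i → ω < τ i} ≤ 1 := by
    calc _ ≤ volume (Set.Ioo (0 : ℝ) 1) := measure_mono fun ω hω => ⟨hω.1, hω.2.1⟩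
      _ = 1 := by rw [Real.volume_Ioo]; norm_num
  exact ENNReal.toReal_le_of_le_ofReal zero_le_one (by simpa using h1)

private theorem sec_fin {T : Type} (Lo Up : T → Prop) (τ : T → ℝ) :
    volume {ω : ℝ | 0 < ω ∧ ω < 1 ∧ (∀ i, Lo i → τ i < ω) ∧ ∀ i, Up i → ω < τ i}
      = ENNReal.ofReal (len Lo Up τ) := by
  unfold len
  rw [ENNReal.ofReal_toReal]
  have h1 : volume {ω : ℝ | 0 < ω ∧ ω < 1 ∧ (∀ i, Lo i → τ i < ω) ∧ ∀ i, Up i → ω < τ i} ≤ 1 := by
    calc _ ≤ volume (Set.Ioo (0 : ℝ) 1) := measure_mono fun ω hω => ⟨hω.1, hω.2.1⟩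
      _ = 1 := by rw [Real.volume_Ioo]; norm_num
  exact (h1.trans_lt ENNReal.one_lt_top).ne

theorem continuous_len {T : Type} [Fintype T] (Lo Up : T → Prop) : Continuous (len Lo Up) := by
  have h : len Lo Up = fun τ => max (upF Up τ - loF Lo τ) 0 := by
    funext τ
    unfold len
    rw [sec_eq, Real.volume_Ioo, ENNReal.toReal_ofReal']
  rw [h]
  exact ((upF_cont Up).sub (loF_cont Lo)).max continuous_const

private theorem meas_base {T Y : Type} [Fintype Y] (ι : T ↪ Y) (g : Y → Y → Prop)
    (S : Set (T → ℝ)) (hS : MeasurableSet S) :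
    MeasurableSet (cube Y ∩ cellR g ∩ {τ : Y → ℝ | (fun t => τ (ι t)) ∈ S}) := by
  refine (MeasurableSet.inter ?_ ?_).inter ?_
  · have : cube Y = ⋂ z, {τ : Y → ℝ | 0 < τ z ∧ τ z < 1} := by
      ext τ; simp [cube, boxR]
    rw [this]
    exact MeasurableSet.iInter fun z =>
      (measurableSet_lt measurable_const (measurable_pi_apply z)).inter
        (measurableSet_lt (measurable_pi_apply z) measurable_const)
  · have : cellR g = ⋂ s, ⋂ t, {τ : Y → ℝ | g s t → τ s < τ t} := by
      ext τ; simp [cellR]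
    rw [this]
    refine MeasurableSet.iInter fun s => MeasurableSet.iInter fun t => ?_
    by_cases hg : g s t
    · simpa [hg] using measurableSet_lt (measurable_pi_apply s) (measurable_pi_apply t)
    · simp [hg]
  · have hm : Measurable fun τ : Y → ℝ => fun t => τ (ι t) :=
      measurable_pi_lambda _ fun t => measurable_pi_apply _
    exact hm hS

theorem sect_vol {T Y K : Type} [Fintype T] [Fintype Y] [Fintype K] (ι : T ↪ Y) (g : Y → Y → Prop)
    (lo up : K → Y → Prop) (S : Set (T → ℝ)) (hS : MeasurableSet S) :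
    nu (ι.trans Function.Embedding.inl) (secRel g lo up) S
      = ∫ τ in cube Y ∩ cellR g ∩ {τ : Y → ℝ | (fun t => τ (ι t)) ∈ S},
          ∏ k, len (lo k) (up k) τ := by
  classical
  set A : Set (Y → ℝ) := cube Y ∩ cellR g ∩ {τ : Y → ℝ | (fun t => τ (ι t)) ∈ S} with hA
  have mA : MeasurableSet A := meas_base ι g S hS
  set E : K → (Y → ℝ) → Set ℝ := fun k τ =>
    {ω : ℝ | 0 < ω ∧ ω < 1 ∧ (∀ i, lo k i → τ i < ω) ∧ ∀ i, up k i → ω < τ i} with hE
  set B : Set ((Y → ℝ) × (K → ℝ)) := {p | p.1 ∈ A ∧ ∀ k, p.2 k ∈ E k p.1} with hB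
  have mB : MeasurableSet B := by
    have e : B = (Prod.fst ⁻¹' A) ∩ ⋂ k, {p : (Y → ℝ) × (K → ℝ) | loF (lo k) p.1 < p.2 k ∧
        p.2 k < upF (up k) p.1} := by
      ext p
      simp only [hB, Set.mem_ofPred_eq, Set.mem_inter_iff, Set.mem_preimage, Set.mem_iInter]
      refine and_congr_right fun _ => forall_congr' fun k => ?_
      simp only [hE]
      rw [sec_eq, Set.mem_Ioo]
    rw [e]
    refine (measurable_fst mA).inter (MeasurableSet.iInter fun k => ?_)
    have m1 : Measurable fun p : (Y → ℝ) × (K → ℝ) => p.2 k :=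
      (measurable_pi_apply k).comp measurable_snd
    exact (measurableSet_lt ((loF_cont (lo k)).measurable.comp measurable_fst) m1).inter
      (measurableSet_lt m1 ((upF_cont (up k)).measurable.comp measurable_fst))
  have hpre : cube (Y ⊕ K) ∩ cellR (secRel g lo up) ∩
      {τ : Y ⊕ K → ℝ | (fun t => τ ((ι.trans Function.Embedding.inl) t)) ∈ S}
      = (MeasurableEquiv.sumPiEquivProdPi (fun _ : Y ⊕ K => ℝ)) ⁻¹' B := by
    ext τ
    simp only [hB, hA, hE, Set.mem_preimage, Set.mem_ofPred_eq, Set.mem_inter_iff, cube, boxR, cellR]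
    constructor
    · rintro ⟨⟨h1, h2⟩, h3⟩
      refine ⟨⟨⟨fun z => h1 (Sum.inl z), fun s t hst => h2 (Sum.inl s) (Sum.inl t) hst⟩, h3⟩,
        fun k => ⟨(h1 (Sum.inr k)).1, (h1 (Sum.inr k)).2,
          fun i hi => h2 (Sum.inl i) (Sum.inr k) hi, fun i hi => h2 (Sum.inr k) (Sum.inl i) hi⟩⟩
    · rintro ⟨⟨⟨h1, h2⟩, h3⟩, h4⟩
      refine ⟨⟨?_, ?_⟩, h3⟩
      · rintro (z | k)
        · exact h1 z
        · exact ⟨(h4 k).1, (h4 k).2.1⟩
      · rintro (s | k) (t | k') hst
        · exact h2 s t hst
        · exact (h4 k').2.2.1 s hst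
        · exact (h4 k).2.2.2 t hst
        · exact hst.elim
  have hsec : ∀ τ, volume (Prod.mk τ ⁻¹' B) =
      A.indicator (fun τ => ENNReal.ofReal (∏ k, len (lo k) (up k) τ)) τ := by
    intro τ
    by_cases hτ : τ ∈ A
    · rw [Set.indicator_of_mem hτ]
      have e : Prod.mk τ ⁻¹' B = Set.univ.pi fun k => E k τ := by
        ext κ
        simp [hB, hτ]
      rw [e, volume_pi_pi, ENNReal.ofReal_prod_of_nonneg fun k _ => len_nonneg _ _ _]
      exact Finset.prod_congr rfl fun k _ => sec_fin _ _ _
    · rw [Set.indicator_of_notMem hτ]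
      have e : Prod.mk τ ⁻¹' B = ∅ := by
        ext κ
        simp [hB, hτ]
      rw [e, measure_empty]
  unfold nu
  rw [hpre, (volume_measurePreserving_sumPiEquivProdPi (fun _ : Y ⊕ K => ℝ)).measure_preimage
    mB.nullMeasurableSet]
  have hprod : (volume : Measure ((Y → ℝ) × (K → ℝ))) B
      = ∫⁻ τ in A, ENNReal.ofReal (∏ k, len (lo k) (up k) τ) := by
    rw [Measure.volume_eq_prod, Measure.prod_apply mB, ← lintegral_indicator mA]
    exact lintegral_congr hsec
  rw [integral_eq_lintegral_of_nonneg_ae]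
  · exact congrArg ENNReal.toReal hprod
  · exact Filter.Eventually.of_forall fun τ => Finset.prod_nonneg fun k _ => len_nonneg _ _ _
  · exact (continuous_finsetProd _ fun k _ => continuous_len _ _).aestronglyMeasurable

end Pool.Agent.H19.UC
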